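import Pool.Agent.Helper113.Gorin.Defs
import Pool.Agent.W327.F4.AcB
import Pool.Agent.W481.AnaDefs

/-!
# Holomorphic maps into the plane without two points: definitions and statements

Blueprint of the proof that the number of non-constant holomorphic maps of an affine manifold
into `ℂ ∖ {0, 1}` is bounded on the homeomorphism class (MP_9bd952_ag, `S00329`).
-/

set_option autoImplicit false

open Metric Set Topology

namespace Pool.Agent.Y225.Gor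

open H113G Pool.Agent.W481 Pool.Agent.W327.F4

/-- `pr : Y → ℂ^k` is dominant and an `e`-sheeted holomorphic covering over `{δ ≠ 0}` -/
structure PCov {m k : ℕ} (Y : Set (Fin m → ℂ)) (pr : (Fin m → ℂ) → (Fin k → ℂ))
    (δ : MvPolynomial (Fin k) ℂ) (e : ℕ) : Prop where
  diff : Differentiable ℂ pr
  ne : δ ≠ 0
  dominant : ∀ D : MvPolynomial (Fin k) ℂ, D ≠ 0 → ∃ y ∈ Y, MvPolynomial.eval (pr y) D ≠ 0
  sections : ∀ z : Fin k → ℂ, MvPolynomial.eval z δ ≠ 0 → ∃ r : ℝ, 0 < r ∧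
    ∃ s : Fin e → (Fin k → ℂ) → (Fin m → ℂ),
      (∀ i, DifferentiableOn ℂ (s i) (ball z r)) ∧
      ∀ z' ∈ ball z r, MvPolynomial.eval z' δ ≠ 0 ∧ Function.Injective (fun i => s i z') ∧
        {y | y ∈ Y ∧ pr y = z'} = Set.range (fun i => s i z')

/-- the zero set of `t ↦ δ (t v)` consists of `N` different continuous functions of `v` near
`v₁` -/
def RootCont {k : ℕ} (δ : MvPolynomial (Fin k) ℂ) (v₁ : Fin k → ℂ) : Prop :=
  ∃ (ε : ℝ) (N : ℕ) (b : Fin N → (Fin k → ℂ) → ℂ), 0 < ε ∧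
    (∀ i, ContinuousOn (b i) (ball v₁ ε)) ∧
    ∀ v ∈ ball v₁ ε, Function.Injective (fun i => b i v) ∧
      ∀ t : ℂ, MvPolynomial.eval (t • v) δ = 0 ↔ ∃ i, t = b i v

/-- the part of `Y` over the points `t v`, `t ∈ ℂ`, of the base `{δ ≠ 0}` -/
abbrev Lc {m k : ℕ} (Y : Set (Fin m → ℂ)) (pr : (Fin m → ℂ) → (Fin k → ℂ))
    (δ : MvPolynomial (Fin k) ℂ) (v : Fin k → ℂ) : Type :=
  {w : ℂ × (Fin m → ℂ) // w.2 ∈ Y ∧ pr w.2 = w.1 • v ∧ MvPolynomial.eval (w.1 • v) δ ≠ 0}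

/-- the projection of `Lc` to the parameter `t` -/
def lp {m k : ℕ} (Y : Set (Fin m → ℂ)) (pr : (Fin m → ℂ) → (Fin k → ℂ))
    (δ : MvPolynomial (Fin k) ℂ) (v : Fin k → ℂ) : Lc Y pr δ v → ℂ := fun w => w.1.1

/-- a finite unramified covering `pr` of the complement of the zeros of the polynomial `b` -/
structure RD {Γ : Type} [TopologicalSpace Γ] (pr : Γ → ℂ) (b : Polynomial ℂ) : Prop where
  ne : b ≠ 0
  lh : IsLocalHomeomorph pr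
  cov : IsCoveringMapOn pr {s | b.eval s ≠ 0}
  fin : ∀ s, (pr ⁻¹' {s}).Finite
  rng : ∀ x, b.eval (pr x) ≠ 0

/-- `F` is locally an analytic function of `s = pr x` -/
def Hl {Γ : Type} [TopologicalSpace Γ] (pr : Γ → ℂ) (F : Γ → ℂ) : Prop :=
  ∀ x, ∃ g : ℂ → ℂ, AnalyticAt ℂ g (pr x) ∧ ∀ᶠ y in 𝓝 x, F y = g (pr y)

/-- polynomial growth -/
def Gr {Γ : Type} (pr : Γ → ℂ) (b : Polynomial ℂ) (F : Γ → ℂ) : Prop :=
  ∃ (C : ℝ) (K K' : ℕ), ∀ x, ‖F x‖ * ‖b.eval (pr x)‖ ^ K ≤ C * (1 + ‖pr x‖) ^ K'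

/-! ### the statements -/

/-- charts of submanifolds -/
def S_CHART : Prop := ∀ (m : ℕ) (Y : Set (Fin m → ℂ)), IsSmooth Y → HasCharts Y

/-- identity theorem -/
def S_IDENT : Prop := ∀ (m : ℕ) (Y : Set (Fin m → ℂ)), HasCharts Y → IsPreconnected Y →
  ∀ φ : (Fin m → ℂ) → ℂ, HolOn Y φ → ∀ V : Set (Fin m → ℂ), IsOpen V → (Y ∩ V).Nonempty →
    (∀ y ∈ Y ∩ V, φ y = 0) → ∀ y ∈ Y, φ y = 0

/-- extension of logarithms across hypersurfaces -/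
def S_EXT : Prop := ∀ (m : ℕ) (Y : Set (Fin m → ℂ)), HasCharts Y → IsPreconnected Y →
  ∀ φ u : (Fin m → ℂ) → ℂ, HolOn Y φ → (∃ y ∈ Y, φ y ≠ 0) → ContinuousOn u Y →
    (∀ y ∈ Y, u y ≠ 0) → HasLog {y | y ∈ Y ∧ φ y ≠ 0} u → HasLog Y u

/-- Noether normalisation of a prime ideal and a primitive element -/
def S_ALG : Prop := ∀ (m : ℕ) (I : Ideal (MvPolynomial (Fin m) ℂ)), I.IsPrime →
  ∃ (k : ℕ) (p : Fin k → MvPolynomial (Fin m) ℂ) (Θ : MvPolynomial (Fin m) ℂ)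
    (f : Polynomial (MvPolynomial (Fin k) ℂ)) (Q : Fin m → Polynomial (MvPolynomial (Fin k) ℂ))
    (δ : MvPolynomial (Fin k) ℂ), f.Monic ∧ δ ≠ 0 ∧
    (∀ D : MvPolynomial (Fin k) ℂ, MvPolynomial.aeval p D ∈ I → D = 0) ∧
    (∀ x : Fin m → ℂ, (∀ P ∈ I, MvPolynomial.eval x P = 0) →
      ev (fun i => MvPolynomial.eval x (p i)) (MvPolynomial.eval x Θ) f = 0 ∧
      ∀ j, MvPolynomial.eval (fun i => MvPolynomial.eval x (p i)) δ * x j =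
        ev (fun i => MvPolynomial.eval x (p i)) (MvPolynomial.eval x Θ) (Q j)) ∧
    (∀ (z : Fin k → ℂ) (t : ℂ), MvPolynomial.eval z δ ≠ 0 → ev z t f = 0 →
      ev z t (Polynomial.derivative f) ≠ 0 ∧
      ∃ x : Fin m → ℂ, (∀ P ∈ I, MvPolynomial.eval x P = 0) ∧
        (fun i => MvPolynomial.eval x (p i)) = z ∧ MvPolynomial.eval x Θ = t)

/-- the covering attached to the data of `S_ALG` -/
def S_PCOV : Prop := ∀ (m : ℕ) (Y : Set (Fin m → ℂ)) (I : Ideal (MvPolynomial (Fin m) ℂ)),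
  (∀ P, P ∈ I ↔ ∀ y ∈ Y, MvPolynomial.eval y P = 0) →
  (∀ x, x ∈ Y ↔ ∀ P ∈ I, MvPolynomial.eval x P = 0) →
  ∀ (k : ℕ) (p : Fin k → MvPolynomial (Fin m) ℂ) (Θ : MvPolynomial (Fin m) ℂ)
    (f : Polynomial (MvPolynomial (Fin k) ℂ)) (Q : Fin m → Polynomial (MvPolynomial (Fin k) ℂ))
    (δ : MvPolynomial (Fin k) ℂ), f.Monic → δ ≠ 0 →
    (∀ D : MvPolynomial (Fin k) ℂ, MvPolynomial.aeval p D ∈ I → D = 0) →
    (∀ x : Fin m → ℂ, (∀ P ∈ I, MvPolynomial.eval x P = 0) →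
      ev (fun i => MvPolynomial.eval x (p i)) (MvPolynomial.eval x Θ) f = 0 ∧
      ∀ j, MvPolynomial.eval (fun i => MvPolynomial.eval x (p i)) δ * x j =
        ev (fun i => MvPolynomial.eval x (p i)) (MvPolynomial.eval x Θ) (Q j)) →
    (∀ (z : Fin k → ℂ) (t : ℂ), MvPolynomial.eval z δ ≠ 0 → ev z t f = 0 →
      ev z t (Polynomial.derivative f) ≠ 0 ∧
      ∃ x : Fin m → ℂ, (∀ P ∈ I, MvPolynomial.eval x P = 0) ∧
        (fun i => MvPolynomial.eval x (p i)) = z ∧ MvPolynomial.eval x Θ = t) →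
    PCov Y (fun x i => MvPolynomial.eval x (p i)) δ f.natDegree

/-- generic lines through a point outside the hypersurface -/
def S_ROOT : Prop := ∀ (k : ℕ) (δ : MvPolynomial (Fin k) ℂ),
  MvPolynomial.eval (0 : Fin k → ℂ) δ ≠ 0 → ∃ D : MvPolynomial (Fin k) ℂ, D ≠ 0 ∧
    ∀ v₁, MvPolynomial.eval v₁ D ≠ 0 → RootCont δ v₁

/-- the map `Yo → {δ ≠ 0}` is a covering map -/
def S_COV : Prop := ∀ (m k : ℕ) (Y : Set (Fin m → ℂ)) (pr : (Fin m → ℂ) → (Fin k → ℂ))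
  (δ : MvPolynomial (Fin k) ℂ) (e : ℕ), PCov Y pr δ e → IsCoveringMap (qY Y pr δ)

/-- the part of `Y` over a line -/
def S_RD : Prop := ∀ (m k : ℕ) (Y : Set (Fin m → ℂ)) (pr : (Fin m → ℂ) → (Fin k → ℂ))
  (δ : MvPolynomial (Fin k) ℂ) (e : ℕ), PCov Y pr δ e → MvPolynomial.eval (0 : Fin k → ℂ) δ ≠ 0 →
  ∀ v : Fin k → ℂ, (∃ b : Polynomial ℂ, (∀ t, b.eval t = MvPolynomial.eval (t • v) δ) ∧
    RD (lp Y pr δ v) b) ∧
    ∀ g : (Fin m → ℂ) → ℂ, HolOn Y g → Hl (lp Y pr δ v) (fun w => g w.1.2)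

/-- the first cohomology group of a curve has finite rank -/
def S_FG : Prop := ∀ (Γ : Type) [TopologicalSpace Γ] [T2Space Γ] (pr : Γ → ℂ)
  (b : Polynomial ℂ), RD pr b → ∃ r : ℕ, FiniteRank (univ : Set Γ) r

/-- transport of logarithms from one line through `0` to all lines through `0` -/
def S_TRANS : Prop := ∀ (m k : ℕ) (Y : Set (Fin m → ℂ)) (pr : (Fin m → ℂ) → (Fin k → ℂ))
  (δ : MvPolynomial (Fin k) ℂ), Differentiable ℂ pr → IsCoveringMap (qY Y pr δ) →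
  MvPolynomial.eval (0 : Fin k → ℂ) δ ≠ 0 → ∀ D : MvPolynomial (Fin k) ℂ,
  (∀ v₁, MvPolynomial.eval v₁ D ≠ 0 → RootCont δ v₁) → ∀ v₀ : Fin k → ℂ,
  MvPolynomial.eval v₀ D ≠ 0 → ∀ u : (Fin m → ℂ) → ℂ, ContinuousOn u Y → (∀ y ∈ Y, u y ≠ 0) →
  HasLog (univ : Set (Lc Y pr δ v₀)) (fun w => u w.1.2) →
  HasLog {y | y ∈ Y ∧ MvPolynomial.eval (pr y) (δ * D) ≠ 0} u

/-- big Picard theorem: polynomial growth -/
def S_GROW : Prop := ∀ (Γ : Type) [TopologicalSpace Γ] [T2Space Γ] (pr : Γ → ℂ)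
  (b : Polynomial ℂ), RD pr b → ∀ F : Γ → ℂ, Hl pr F → (∀ x, F x ≠ 0) → (∀ x, F x ≠ 1) →
  Gr pr b F

/-- a holomorphic unit of polynomial growth without periods is constant -/
def S_CONST : Prop := ∀ (Γ : Type) [TopologicalSpace Γ] [T2Space Γ] (pr : Γ → ℂ)
  (b : Polynomial ℂ), RD pr b → ∀ u : C(Γ, Cx), Hl pr (fun x => (u x).1) →
  Gr pr b (fun x => (u x).1) → Gr pr b (fun x => (u x).1⁻¹) → ∀ y₀ : Γ,
  (∀ q : PH y₀ y₀, dl u q = 0) → ∀ t, Joined y₀ t → (u t).1 = (u y₀).1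

/-- the number of solutions of the unit equation `g + (1 - g) = 1` -/
def S_COUNT : Prop := ∀ (Γ : Type) [TopologicalSpace Γ] [T2Space Γ] (pr : Γ → ℂ),
  IsLocalHomeomorph pr → ∀ (y₀ : Γ) (M r : ℕ) (g : Fin M → Γ → ℂ), (∀ i, Hl pr (g i)) →
  (∀ i x, g i x ≠ 0) → (∀ i x, g i x ≠ 1) → (∀ i j, i ≠ j → g i y₀ ≠ g j y₀) →
  (∀ i, ∃ t, Joined y₀ t ∧ g i t ≠ g i y₀) →
  (∀ (a c : Fin M → ℤ) (u : C(Γ, Cx)), (∀ x, (u x).1 = ∏ i, (g i x ^ a i * (1 - g i x) ^ c i)) →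
    (∀ q : PH y₀ y₀, dl u q = 0) → ∀ t, Joined y₀ t → (u t).1 = (u y₀).1) →
  (∀ U : Fin (r + 1) → Γ → ℂ, (∀ l, ∃ i, U l = g i ∨ U l = fun x => 1 - g i x) →
    ∃ a : Fin (r + 1) → ℤ, a ≠ 0 ∧ ∀ t, Joined y₀ t → ∏ l, U l t ^ a l = ∏ l, U l y₀ ^ a l) →
  M ≤ 64 ^ r

end Pool.Agent.Y225.Gor
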