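import Pool.Agent.Y225.Gor.Basic
import Pool.Agent.W327.F4.InHConst

/-!
# Proof of `S_CONST`
-/

set_option autoImplicit false

open Metric Set Topology

namespace Pool.Agent.Y225.Gor

open H113G Pool.Agent.W481 Pool.Agent.W327.F4

/-- `Hl` functions are holomorphic along continuous sections -/
theorem Hl.diffOn_sec {Γ : Type} [TopologicalSpace Γ] {pr : Γ → ℂ} {F : Γ → ℂ} (hF : Hl pr F)
    {Δ : Set ℂ} (hΔ : IsOpen Δ) {σ : ℂ → Γ} (hσ : ContinuousOn σ Δ)
    (hs : ∀ s ∈ Δ, pr (σ s) = s) : DifferentiableOn ℂ (fun s => F (σ s)) Δ := by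
  intro s hs'
  obtain ⟨g, hg, hev⟩ := hF (σ s)
  rw [hs s hs'] at hg
  have hσs : ContinuousAt σ s := hσ.continuousAt (hΔ.mem_nhds hs')
  have h1 : ∀ᶠ s' in 𝓝 s, F (σ s') = g s' := by
    filter_upwards [hσs.eventually hev, hΔ.mem_nhds hs'] with s' h2 h3
    rw [h2, hs s' h3]
  exact (hg.differentiableAt.congr_of_eventuallyEq h1).differentiableWithinAt

theorem CONST : S_CONST := by
  classical
  intro Γ _ _ pr b hrd u hu hg hg' y₀ hper t ht
  have hInH : InH pr b (⊤ : Subgroup (LG y₀)) (fun (t : Γ) (q : PH y₀ t) => dl u q) := by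
    refine ⟨?_, ?_, ?_, ?_⟩
    · intro Δ σ hσ s₀ hs₀ q
      have hcontr : ContractibleSpace Δ := hσ.convex.contractibleSpace ⟨_, hs₀⟩
      have hlpc : LocallyPathConnectedSpace Δ := hσ.isOpen.locallyPathConnectedSpace
      have hσc : Continuous (fun s : Δ => σ s) := by
        have := hσ.cont
        rwa [continuousOn_iff_continuous_domRestrict] at this
      obtain ⟨l, ⟨hl0, hl⟩, -⟩ := Complex.isCoveringMap_exp.existsUnique_continuousMap_lifts
        (A := Δ) (u.comp ⟨fun s : Δ => σ s, hσc⟩) ⟨s₀, hs₀⟩ (Complex.log (u (σ s₀)).1) (by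
          refine Subtype.ext ?_
          simp only [ContinuousMap.comp_apply]
          exact Complex.exp_log (u (σ s₀)).2)
      have hl' : ∀ s : Δ, Complex.exp (l s) = (u (σ s)).1 := fun s =>
        congrArg Subtype.val (congrFun hl s)
      let lo : ℂ → ℂ := fun s => if hs : s ∈ Δ then l ⟨s, hs⟩ else 0
      have hlos : ∀ s (hs : s ∈ Δ), lo s = l ⟨s, hs⟩ := fun s hs => by simp [lo, hs]
      have hloc : ContinuousOn lo Δ := by
        rw [continuousOn_iff_continuous_domRestrict]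
        have : Δ.domRestrict lo = fun s : Δ => l s := by
          funext s
          exact hlos s.1 s.2
        rw [this]
        fun_prop
      have hFd : DifferentiableOn ℂ (fun s => (u (σ s)).1) Δ :=
        hu.diffOn_sec hσ.isOpen hσ.cont hσ.sec
      have hlod : DifferentiableOn ℂ lo Δ := by
        refine log_holo hσ.isOpen _ lo hFd hloc fun s hs => ?_
        rw [hlos s hs]
        exact hl' _
      refine ⟨fun s => dl u q + lo s - lo s₀, (hlod.const_add _).sub_const _, ?_⟩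
      intro s hs γ hγ
      have hγΔ : ∀ τ, pr (γ τ) ∈ Δ := by
        intro τ
        obtain ⟨s', hs', h1⟩ := hγ τ
        rw [← h1, hσ.sec s' hs']
        exact hs'
      have hγσ : ∀ τ, σ (pr (γ τ)) = γ τ := by
        intro τ
        obtain ⟨s', hs', h1⟩ := hγ τ
        rw [← h1, hσ.sec s' hs']
      let δ : C(unitInterval, Δ) := ⟨fun τ => ⟨pr (γ τ), hγΔ τ⟩,
        (hrd.lh.continuous.comp γ.continuous).subtype_mk _⟩
      have hδ0 : δ 0 = ⟨s₀, hs₀⟩ := by
        refine Subtype.ext ?_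
        show pr (γ 0) = s₀
        rw [γ.source, hσ.sec s₀ hs₀]
      have hδ1 : δ 1 = ⟨s, hs⟩ := by
        refine Subtype.ext ?_
        show pr (γ 1) = s
        rw [γ.target, hσ.sec s hs]
      show dl u (q.trans (.mk γ)) = _
      rw [dl_trans, dl_mk u γ (l.comp δ) (fun τ => by
        show Complex.exp (l (δ τ)) = _
        rw [hl' (δ τ)]
        show (u (σ (pr (γ τ)))).1 = _
        rw [hγσ])]
      simp only [ContinuousMap.comp_apply]
      rw [hδ0, hδ1, ← hlos s hs, ← hlos s₀ hs₀]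
      ring
    · obtain ⟨C, K, K', h⟩ := hg
      refine ⟨C / ‖(u y₀).1‖, K, K', fun t q _ => ?_⟩
      have h3 : 0 < ‖(u y₀).1‖ := norm_pos_iff.2 (u y₀).2
      show ‖Complex.exp (dl u q)‖ * _ ≤ _
      rw [exp_dl, norm_div, div_mul_eq_mul_div, div_mul_eq_mul_div]
      exact div_le_div_of_nonneg_right (h t) h3.le
    · obtain ⟨C, K, K', h⟩ := hg'
      refine ⟨C * ‖(u y₀).1‖, K, K', fun t q _ => ?_⟩
      have h4 : Complex.exp (-(dl u q)) = (u t).1⁻¹ * (u y₀).1 := by
        rw [Complex.exp_neg, exp_dl, inv_div, div_eq_mul_inv, mul_comm]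
      show ‖Complex.exp (-(dl u q))‖ * _ ≤ _
      rw [h4, norm_mul]
      calc ‖(u t).1⁻¹‖ * ‖(u y₀).1‖ * ‖b.eval (pr t)‖ ^ K
          = (‖(u t).1⁻¹‖ * ‖b.eval (pr t)‖ ^ K) * ‖(u y₀).1‖ := by ring
        _ ≤ (C * (1 + ‖pr t‖) ^ K') * ‖(u y₀).1‖ :=
            mul_le_mul_of_nonneg_right (h t) (norm_nonneg _)
        _ = _ := by ring
    · intro g _ t q
      show Complex.exp (dl u (g • q)) = Complex.exp (dl u q)
      rw [exp_dl, exp_dl]
  obtain ⟨γ⟩ := ht
  have h1 := InH_const pr hrd.lh b hrd.ne hrd.cov hrd.fin (⊤ : Subgroup (LG y₀)) _ hInH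
    (fun g _ t q => by
      show dl u (g • q) = dl u q
      rw [LG_smul_def, dl_trans]
      have := hper g
      change dl u _ = 0 at this
      rw [this, zero_add]) t (.mk γ)
  change dl u (.mk γ) = dl u (.refl y₀) at h1
  rw [dl_refl] at h1
  have h2 := exp_dl u (.mk γ)
  rw [h1, Complex.exp_zero] at h2
  exact ((div_eq_one_iff_eq (u y₀).2).1 h2.symm)

end Pool.Agent.Y225.Gor
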