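import Pool.Agent.Y225.Gor.Count

/-!
# Proof of `S_COUNT`
-/

set_option autoImplicit false

open Metric Set Topology

namespace Pool.Agent.Y225.Gor

open H113G Pool.Agent.W481 Pool.Agent.W327.F4 Pool.Agent.TH813

section poly

variable {κ : Type} [Fintype κ]

/-- the first half of a vector against `w` -/
noncomputable def L1 (w : κ → ℂ) : (κ ⊕ κ → ℂ) →ₗ[ℂ] ℂ :=
  ∑ k, w k • LinearMap.proj (Sum.inl k)

/-- the second half of a vector against `w` -/
noncomputable def L2 (w : κ → ℂ) : (κ ⊕ κ → ℂ) →ₗ[ℂ] ℂ :=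
  ∑ k, w k • LinearMap.proj (Sum.inr k)

theorem L1_apply (w : κ → ℂ) (x : κ ⊕ κ → ℂ) : L1 w x = ∑ k, x (Sum.inl k) * w k := by
  simp only [L1, LinearMap.sum_apply, LinearMap.smul_apply, LinearMap.proj_apply, smul_eq_mul]
  exact Finset.sum_congr rfl fun k _ => mul_comm _ _

theorem L2_apply (w : κ → ℂ) (x : κ ⊕ κ → ℂ) : L2 w x = ∑ k, x (Sum.inr k) * w k := by
  simp only [L2, LinearMap.sum_apply, LinearMap.smul_apply, LinearMap.proj_apply, smul_eq_mul]
  exact Finset.sum_congr rfl fun k _ => mul_comm _ _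

/-- the divided difference of the cubic form -/
noncomputable def HH (w w' : κ → ℂ) (y x : κ ⊕ κ → ℂ) : (κ ⊕ κ → ℂ) →ₗ[ℂ] ℂ :=
  (L1 w' x) • L2 w + (L2 w y) • L1 w' - (L2 w' x) • L1 w - (L1 w y) • L2 w' -
    (L2 w x ^ 2) • L1 w - (L1 w y * (L2 w x + L2 w y)) • L2 w +
    ((L1 w x + L1 w y) * L2 w x) • L1 w + (L1 w y ^ 2) • L2 w

theorem HH_apply (w w' : κ → ℂ) (y x z : κ ⊕ κ → ℂ) : HH w w' y x z =
    L1 w' x * L2 w z + L2 w y * L1 w' z - L2 w' x * L1 w z - L1 w y * L2 w' z -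
    L2 w x ^ 2 * L1 w z - L1 w y * (L2 w x + L2 w y) * L2 w z +
    (L1 w x + L1 w y) * L2 w x * L1 w z + L1 w y ^ 2 * L2 w z := by
  simp only [HH, LinearMap.add_apply, LinearMap.sub_apply, LinearMap.smul_apply, smul_eq_mul]

/-- the cubic form -/
noncomputable def EE (w w' : κ → ℂ) (x : κ ⊕ κ → ℂ) : ℂ :=
  L2 w x * L1 w' x - L1 w x * L2 w' x - L1 w x * L2 w x * (L2 w x - L1 w x)

theorem HH_sub (w w' : κ → ℂ) (y x : κ ⊕ κ → ℂ) : HH w w' y x (x - y) = EE w w' x - EE w w' y := by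
  rw [HH_apply]
  simp only [map_sub, EE]
  ring

/-- the functions of degree at most two -/
noncomputable abbrev P2 (κ : Type) [Fintype κ] : Submodule ℂ ((κ ⊕ κ → ℂ) → ℂ) :=
  CountF.PF ℂ ℂ (κ ⊕ κ) 2

theorem P2_add {p q : (κ ⊕ κ → ℂ) → ℂ} (hp : p ∈ P2 κ) (hq : q ∈ P2 κ) :
    (fun x => p x + q x) ∈ P2 κ := Submodule.add_mem (P2 κ) hp hq

theorem P2_sub {p q : (κ ⊕ κ → ℂ) → ℂ} (hp : p ∈ P2 κ) (hq : q ∈ P2 κ) :
    (fun x => p x - q x) ∈ P2 κ := Submodule.sub_mem (P2 κ) hp hq

theorem P2_smul (c : ℂ) {p : (κ ⊕ κ → ℂ) → ℂ} (hp : p ∈ P2 κ) :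
    (fun x => c * p x) ∈ P2 κ := Submodule.smul_mem (P2 κ) c hp

theorem P2_const (c : ℂ) : (fun _ => c) ∈ P2 κ := CountF.PF_const 2 c

theorem P2_lin (f : (κ ⊕ κ → ℂ) →ₗ[ℂ] ℂ) : (fun x => f x) ∈ P2 κ :=
  CountF.PF_mono (by norm_num) (CountF.PF_lin f)

theorem P2_mul (f g : (κ ⊕ κ → ℂ) →ₗ[ℂ] ℂ) : (fun x => f x * g x) ∈ P2 κ := by
  have h : (fun x => f x) * (fun x => g x) ∈ CountF.PF ℂ ℂ (κ ⊕ κ) (1 + 1) :=
    CountF.PF_mul (a := 1) (b := 1) (CountF.PF_lin f) (CountF.PF_lin g)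
  have e : (fun x => f x * g x) = (fun x => f x) * (fun x => g x) := rfl
  rw [e]
  exact h

theorem HH_poly (w w' : κ → ℂ) (y z : κ ⊕ κ → ℂ) :
    (fun x => HH w w' y x z) ∈ CountF.PF ℂ ℂ (κ ⊕ κ) 2 := by
  have e : (fun x => HH w w' y x z) = fun x =>
      ((((((((L2 w z * L1 w' x + L2 w y * L1 w' z) - L1 w z * L2 w' x) -
      L1 w y * L2 w' z) - L1 w z * (L2 w x * L2 w x)) -
      (L1 w y * L2 w z) * L2 w x) - L1 w y * L2 w y * L2 w z) +
      L1 w z * (L1 w x * L2 w x)) +
      (L1 w y * L1 w z) * L2 w x) + L1 w y ^ 2 * L2 w z := by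
    funext x
    rw [HH_apply]
    ring
  rw [e]
  have h1 := P2_smul (L2 w z) (P2_lin (L1 w'))
  have h2 := P2_add h1 (P2_const (L2 w y * L1 w' z))
  have h3 := P2_sub h2 (P2_smul (L1 w z) (P2_lin (L2 w')))
  have h4 := P2_sub h3 (P2_const (L1 w y * L2 w' z))
  have h5 := P2_sub h4 (P2_smul (L1 w z) (P2_mul (L2 w) (L2 w)))
  have h6 := P2_sub h5 (P2_smul (L1 w y * L2 w z) (P2_lin (L2 w)))
  have h7 := P2_sub h6 (P2_const (L1 w y * L2 w y * L2 w z))
  have h8 := P2_add h7 (P2_smul (L1 w z) (P2_mul (L1 w) (L2 w)))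
  have h9 := P2_add h8 (P2_smul (L1 w y * L1 w z) (P2_lin (L2 w)))
  exact P2_add h9 (P2_const (L1 w y ^ 2 * L2 w z))

end poly

theorem COUNT : S_COUNT := by
  classical
  intro Γ _ _ pr hpr y₀ M r g hg h0 h1 hd hn hc hr
  have h1' : ∀ i x, 1 - g i x ≠ 0 := fun i x => sub_ne_zero.2 (Ne.symm (h1 i x))
  -- the units
  set Un : Fin M ⊕ Fin M → Γ → ℂ := Sum.elim g (fun i x => 1 - g i x) with hUn
  have hUnH : ∀ j, Hl pr (Un j) := by
    rintro (i | i)
    · exact hg i
    · exact (Hl.const 1).sub (hg i)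
  have hUn0 : ∀ j x, Un j x ≠ 0 := by
    rintro (i | i) x
    · exact h0 i x
    · exact h1' i x
  have hwH : ∀ j, Hl pr (LD pr (Un j)) := fun j => LD_Hl hpr (hUnH j) (hUn0 j)
  let P : Type := {x : Γ // Joined y₀ x}
  let v : Fin M ⊕ Fin M → (P → ℂ) := fun j x => LD pr (Un j) x.1
  obtain ⟨κ, a, ha, hspan, hli⟩ := exists_linearIndependent' ℚ v
  have hκ : Finite κ := Finite.of_injective a ha
  have := Fintype.ofFinite κ
  -- a relation between units gives a relation between logarithmic derivatives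
  have hconstrel : ∀ {ι : Type} [Fintype ι] (j : ι → Fin M ⊕ Fin M) (A : ι → ℤ),
      (∀ t, Joined y₀ t → ∏ l, Un (j l) t ^ A l = ∏ l, Un (j l) y₀ ^ A l) →
      ∀ x, Joined y₀ x → ∑ l, (A l : ℂ) * LD pr (Un (j l)) x = 0 := by
    intro ι _ j A hA x hx
    have h2 := LD_of_const hpr (F := fun t => ∏ l, Un (j l) t ^ A l)
      (Hl.prod _ fun l _ => (hUnH (j l)).zpow (hUn0 (j l)) (A l)) hA hx
    rw [LD_prod hpr Finset.univ (fun l => hUnH (j l)) (fun l => hUn0 (j l))] at h2
    exact h2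
  have hρ : Fintype.card κ ≤ r := by
    by_contra hlt
    push Not at hlt
    have h2 : Fintype.card (Fin (r + 1)) ≤ Fintype.card κ := by
      rw [Fintype.card_fin]; exact hlt
    obtain ⟨ι⟩ := Function.Embedding.nonempty_of_card_le h2
    obtain ⟨A, hA, hA'⟩ := hr (fun l => Un (a (ι l))) (by
      intro l
      rcases h3 : a (ι l) with i | i
      · exact ⟨i, Or.inl (by simp [hUn])⟩
      · exact ⟨i, Or.inr (by simp [hUn])⟩)
    have h3 := hconstrel (fun l => a (ι l)) A hA'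
    have h4 : LinearIndependent ℚ (v ∘ a ∘ ι) := hli.comp ι ι.injective
    rw [Fintype.linearIndependent_iff] at h4
    apply hA
    funext l
    have h5 := h4 (fun l => (A l : ℚ)) (by
      funext x
      rw [Finset.sum_apply]
      simp only [Pi.smul_apply, Function.comp_apply, Pi.zero_apply]
      rw [← h3 x.1 x.2]
      refine Finset.sum_congr rfl fun l _ => ?_
      rw [Rat.smul_def]
      simp [v]) l
    exact_mod_cast h5
  -- coordinates
  have hcoord : ∀ j, ∃ c : κ → ℚ, ∀ x, Joined y₀ x →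
      LD pr (Un j) x = ∑ k, (c k : ℂ) * LD pr (Un (a k)) x := by
    intro j
    have h2 : v j ∈ Submodule.span ℚ (Set.range (v ∘ a)) := by
      rw [hspan]; exact Submodule.subset_span ⟨j, rfl⟩
    obtain ⟨c, hc⟩ := (Submodule.mem_span_range_iff_exists_fun ℚ).1 h2
    refine ⟨c, fun x hx => ?_⟩
    have h3 := congrFun hc ⟨x, hx⟩
    rw [Finset.sum_apply] at h3
    change _ = LD pr (Un j) x at h3
    rw [← h3]
    refine Finset.sum_congr rfl fun k _ => ?_
    simp only [Pi.smul_apply, Function.comp_apply]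
    rw [Rat.smul_def]
  choose c hc' using hcoord
  have hder : ∀ j x, Joined y₀ x →
      der pr (LD pr (Un j)) x = ∑ k, (c j k : ℂ) * der pr (LD pr (Un (a k))) x := by
    intro j x hx
    obtain ⟨a1, a2⟩ := der_sum hpr Finset.univ (F := fun k x => (c j k : ℂ) * LD pr (Un (a k)) x)
      (fun k _ => (Hl.const _).mul (hwH _)) x
    have h2 : der pr (LD pr (Un j)) x = der pr (fun x => ∑ k, (c j k : ℂ) * LD pr (Un (a k)) x) x := by
      refine der_congr hpr (hwH j) ?_
      filter_upwards [eventually_joined hpr x] with y hy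
      exact hc' j y (hx.trans hy)
    rw [h2, a1]
    refine Finset.sum_congr rfl fun k _ => ?_
    rw [der_mul hpr (Hl.const _) (hwH _), der_const hpr, zero_mul, zero_add]
  -- independence of periods
  set E : κ → C(Γ, Cx) := fun k => toCx hpr (Un (a k)) (hUnH (a k)) (hUn0 (a k)) with hE
  have hind : ∀ A : κ → ℤ, (∀ q : PH y₀ y₀, ∑ k, A k * dl (E k) q = 0) → A = 0 := by
    intro A hA
    let u : C(Γ, Cx) := toCx hpr (fun x => ∏ k, Un (a k) x ^ A k)
      (Hl.prod _ fun k _ => (hUnH _).zpow (hUn0 _) _)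
      (fun x => Finset.prod_ne_zero_iff.2 fun k _ => zpow_ne_zero _ (hUn0 _ _))
    let B : Fin M ⊕ Fin M → ℤ := Function.extend a A 0
    have hB : ∀ x, ∏ k, Un (a k) x ^ A k = ∏ j, Un j x ^ B j := by
      intro x
      refine Fintype.prod_of_injective a ha _ _ ?_ ?_
      · intro j hj
        have : B j = 0 := Function.extend_apply' _ _ _ fun ⟨k, hk⟩ => hj ⟨k, hk⟩
        rw [this, zpow_zero]
      · intro k
        have : B (a k) = A k := ha.extend_apply _ _ _
        rw [this]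
    have h2 := hc (fun i => B (Sum.inl i)) (fun i => B (Sum.inr i)) u (by
      intro x
      change ∏ k, Un (a k) x ^ A k = _
      rw [hB x, Fintype.prod_sum_type, ← Finset.prod_mul_distrib]
      rfl) (fun q => by
        rw [dl_prod_zpow E A u (fun x => rfl) q]
        exact hA q)
    have h3 := hconstrel a A (fun t ht => h2 t ht)
    rw [Fintype.linearIndependent_iff] at hli
    funext k
    have h5 := hli (fun l => (A l : ℚ)) (by
      funext x
      rw [Finset.sum_apply]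
      simp only [Pi.smul_apply, Function.comp_apply, Pi.zero_apply]
      rw [← h3 x.1 x.2]
      refine Finset.sum_congr rfl fun l _ => ?_
      rw [Rat.smul_def]
      simp [v]) k
    exact_mod_cast h5
  -- the solutions
  let w : P → κ → ℂ := fun x k => LD pr (Un (a k)) x.1
  let w' : P → κ → ℂ := fun x k => der pr (LD pr (Un (a k))) x.1
  let sol : Fin M → (κ ⊕ κ → ℂ) := fun i =>
    Sum.elim (fun k => (c (Sum.inl i) k : ℂ)) (fun k => (c (Sum.inr i) k : ℂ))
  have hX : ∀ i (x : P), L1 (w x) (sol i) = LD pr (g i) x.1 := by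
    intro i x
    rw [L1_apply]
    exact (hc' (Sum.inl i) x.1 x.2).symm
  have hX' : ∀ i (x : P), L1 (w' x) (sol i) = der pr (LD pr (g i)) x.1 := by
    intro i x
    rw [L1_apply]
    exact (hder (Sum.inl i) x.1 x.2).symm
  have hY : ∀ i (x : P), L2 (w x) (sol i) = LD pr (fun y => 1 - g i y) x.1 := by
    intro i x
    rw [L2_apply]
    exact (hc' (Sum.inr i) x.1 x.2).symm
  have hY' : ∀ i (x : P), L2 (w' x) (sol i) = der pr (LD pr fun y => 1 - g i y) x.1 := by
    intro i x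
    rw [L2_apply]
    exact (hder (Sum.inr i) x.1 x.2).symm
  have hsolE : ∀ i (x : P), EE (w x) (w' x) (sol i) = 0 := by
    intro i x
    rw [EE, hX, hX', hY, hY']
    exact (rel_E hpr (hg i) (h0 i) (h1' i) x.1).2
  have hsolinj : Function.Injective sol := by
    intro i j hij
    by_contra hne
    -- a point where `g i` has nonzero derivative
    obtain ⟨t₀, ht₀, hgt⟩ := hn i
    obtain ⟨y₁, hy₁, hgy⟩ : ∃ y₁, Joined y₀ y₁ ∧ der pr (g i) y₁ ≠ 0 := by
      by_contra hcon
      push Not at hcon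
      exact hgt (const_of_der hpr (hg i) hcon ht₀)
    have hXX : ∀ x, Joined y₀ x → LD pr (g i) x = LD pr (g j) x := by
      intro x hx
      rw [← hX i ⟨x, hx⟩, ← hX j ⟨x, hx⟩, hij]
    have hYY : LD pr (fun y => 1 - g i y) y₁ = LD pr (fun y => 1 - g j y) y₁ := by
      rw [← hY i ⟨y₁, hy₁⟩, ← hY j ⟨y₁, hy₁⟩, hij]
    have r1 := (rel_E hpr (hg i) (h0 i) (h1' i) y₁).1
    have r2 := (rel_E hpr (hg j) (h0 j) (h1' j) y₁).1
    rw [← hXX y₁ hy₁, ← hYY] at r2
    have hgi : g i y₁ = g j y₁ := by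
      have hXne : LD pr (g i) y₁ ≠ 0 := div_ne_zero hgy (h0 i y₁)
      have h2 : (LD pr (fun y => 1 - g i y) y₁ - LD pr (g i) y₁) * (g i y₁ - g j y₁) = 0 := by
        linear_combination r2 - r1
      rcases mul_eq_zero.1 h2 with h3 | h3
      · exfalso
        have h4 : LD pr (fun y => 1 - g i y) y₁ = LD pr (g i) y₁ := sub_eq_zero.1 h3
        rw [h4] at r1
        apply hXne
        linear_combination r1
      · exact sub_eq_zero.1 h3
    -- the quotient is constant
    have hqH : Hl pr (fun x => g i x * (g j x)⁻¹) := (hg i).mul ((hg j).inv (h0 j))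
    have hq0 : ∀ x, Joined y₀ x → der pr (fun x => g i x * (g j x)⁻¹) x = 0 := by
      intro x hx
      have h2 := LD_mul hpr (hg i) ((hg j).inv (h0 j)) (h0 i) (fun x => inv_ne_zero (h0 j x)) x
      rw [LD_inv hpr (hg j) (h0 j), hXX x hx, add_neg_cancel] at h2
      have h3 : g i x * (g j x)⁻¹ ≠ 0 := mul_ne_zero (h0 i x) (inv_ne_zero (h0 j x))
      exact (div_eq_zero_iff.1 h2).resolve_right h3
    have h2 := const_of_der hpr hqH hq0 hy₁
    rw [hgi, mul_inv_cancel₀ (h0 j y₁)] at h2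
    apply hd i j hne
    field_simp [h0 j y₀] at h2
    exact h2.symm
  -- counting
  have hcount := CountF.count (K := ℂ) (A := ℂ) (ι := κ ⊕ κ) (d := 2) (J := P)
    (fun x y z => HH (w x) (w' x) y z) (fun x y z => HH_poly (w x) (w' x) y z)
    (Finset.univ.image sol)
    (by
      intro x y hy z hz
      obtain ⟨i, -, rfl⟩ := Finset.mem_image.1 hy
      obtain ⟨j, -, rfl⟩ := Finset.mem_image.1 hz
      rw [HH_sub, hsolE, hsolE, sub_zero])
    (by
      intro y hy z hz
      obtain ⟨i, -, rfl⟩ := Finset.mem_image.1 hy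
      have hz' : ∀ x : P, HH (w x) (w' x) (sol i) (sol i) z = 0 := hz
      simp only [HH_apply, hX, hX', hY, hY'] at hz'
      obtain ⟨t₀, ht₀, hgt⟩ := hn i
      set μ : κ → ℂ := fun k => z (Sum.inl k) with hμ
      set ν : κ → ℂ := fun k => z (Sum.inr k) with hν
      have m1 : μ = 0 := by
        refine mu_zero hpr (hg i) (h0 i) (h1' i) ht₀ hgt (fun k => Un (a k)) (fun k => hUnH _)
          (fun k => hUn0 _) hind μ ν fun x hx => ?_
        have h2 := hz' ⟨x, hx⟩
        rw [L1_apply, L1_apply, L2_apply, L2_apply] at h2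
        simp only [w, w'] at h2
        rw [← h2]
        ring
      have m2 : ν = 0 := by
        have hgs : Hl pr (fun x => 1 - g i x) := (Hl.const 1).sub (hg i)
        have hss : (fun y => 1 - (1 - g i y)) = g i := funext fun y => by ring
        refine mu_zero hpr hgs (h1' i) (fun x => by
          have := h0 i x
          intro h
          apply this
          linear_combination h) ht₀ (fun h => hgt (by linear_combination -h))
          (fun k => Un (a k)) (fun k => hUnH _)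
          (fun k => hUn0 _) hind ν μ fun x hx => ?_
        have h2 := hz' ⟨x, hx⟩
        rw [L1_apply, L1_apply, L2_apply, L2_apply] at h2
        simp only [w, w'] at h2
        rw [hss, ← neg_eq_zero, ← h2]
        ring
      funext s
      rcases s with k | k
      · exact congrFun m1 k
      · exact congrFun m2 k)
  rw [Finset.card_image_of_injective _ hsolinj, Finset.card_univ, Fintype.card_fin,
    Fintype.card_sum] at hcount
  refine hcount.trans ((Nat.choose_le_two_pow _ _).trans ?_)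
  have h2 : (Fintype.card κ + Fintype.card κ) + (Fintype.card κ + Fintype.card κ) * 2 =
      6 * Fintype.card κ := by ring
  rw [h2, pow_mul]
  exact Nat.pow_le_pow_right (by norm_num) hρ

end Pool.Agent.Y225.Gor
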