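import Pool.Agent.Y225.Gor.Trans

/-!
# Proof of `S_COV` and `S_RD`
-/

set_option autoImplicit false

open Metric Set Topology

namespace Pool.Agent.Y225.Gor

open H113G Pool.Agent.W481

theorem continuous_of_closed_fibers {A : Type*} [TopologicalSpace A] {e : ℕ} (f : A → Fin e)
    (h : ∀ i, IsClosed (f ⁻¹' {i})) : Continuous f := by
  rw [continuous_iff_isClosed]
  intro s _
  have : f ⁻¹' s = ⋃ i ∈ s, f ⁻¹' {i} := by
    ext a
    simp
  rw [this]
  exact (Set.toFinite s).isClosed_biUnion fun i _ => h i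

/-- an open set over which finitely many sections fill the fibres is evenly covered -/
theorem even_of_sections {W T : Type*} [TopologicalSpace W] [T2Space W] [TopologicalSpace T]
    (q : W → T) (hq : Continuous q) (U : Set T) (hU : IsOpen U) {e : ℕ} (s : Fin e → U → W)
    (hs : ∀ i, Continuous (s i)) (hinj : ∀ t : U, Function.Injective (fun i => s i t))
    (hr : ∀ (t : U) (w : W), q w = t ↔ ∃ i, s i t = w) (t : T) (ht : t ∈ U) :
    IsEvenlyCovered q t (Fin e) := by
  classical
  have hex : ∀ w : q ⁻¹' U, ∃ i, s i ⟨q w, w.2⟩ = w := fun w => (hr ⟨q w, w.2⟩ w).1 rfl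
  choose idx hidx using hex
  have hqs : ∀ (t : U) i, q (s i t) = t := fun t i => (hr t _).2 ⟨i, rfl⟩
  have hcq : Continuous (fun w : q ⁻¹' U => (⟨q w, w.2⟩ : U)) :=
    (hq.comp continuous_subtype_val).subtype_mk _
  have hidxc : Continuous idx := by
    refine continuous_of_closed_fibers idx fun i => ?_
    have : idx ⁻¹' {i} = {w : q ⁻¹' U | s i ⟨q w, w.2⟩ = w} := by
      ext w
      constructor
      · intro h
        have h' : idx w = i := h
        rw [mem_ofPred_eq, ← h']
        exact hidx w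
      · intro h
        exact hinj ⟨q w, w.2⟩ ((hidx w).trans (Eq.symm h))
    rw [this]
    exact isClosed_eq ((hs i).comp hcq) continuous_subtype_val
  refine ⟨inferInstance, U, ht, hU, hU.preimage hq, ?_⟩
  refine ⟨{
    toFun := fun w => (⟨q w, w.2⟩, idx w)
    invFun := fun x => ⟨s x.2 x.1, by
      change q (s x.2 x.1) ∈ U
      rw [hqs]
      exact x.1.2⟩
    left_inv := fun w => Subtype.ext (hidx w)
    right_inv := ?_
    continuous_toFun := hcq.prodMk hidxc
    continuous_invFun := ?_ }, fun w => rfl⟩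
  · rintro ⟨t, i⟩
    have h1 : q (s i t) ∈ U := by rw [hqs]; exact t.2
    have h2 : (⟨q (s i t), h1⟩ : U) = t := Subtype.ext (hqs t i)
    refine Prod.ext h2 ?_
    have h3 := hidx ⟨s i t, h1⟩
    change s (idx ⟨s i t, h1⟩) ⟨q (s i t), h1⟩ = s i t at h3
    rw [h2] at h3
    exact hinj t h3
  · refine Continuous.subtype_mk ?_ _
    rw [continuous_iff_continuousAt]
    rintro ⟨t, i⟩
    have h1 : ContinuousAt (fun x : U × Fin e => s i x.1) (t, i) :=
      ((hs i).comp continuous_fst).continuousAt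
    refine h1.congr ?_
    have h2 : {x : U × Fin e | x.2 = i} ∈ 𝓝 (t, i) := by
      have : IsOpen {x : U × Fin e | x.2 = i} := (isOpen_discrete {i}).preimage continuous_snd
      exact this.mem_nhds rfl
    filter_upwards [h2] with x hx
    rw [show x.2 = i from hx]

theorem COV : S_COV := by
  intro m k Y pr δ e h z
  obtain ⟨r, hr, s, hs, hs'⟩ := h.sections z.1 z.2
  have hq : Continuous (qY Y pr δ) :=
    (h.diff.continuous.comp continuous_subtype_val).subtype_mk _
  set U : Set (H113G.Sp δ) := Subtype.val ⁻¹' ball z.1 r with hU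
  have hmem : ∀ (t : U) i, s i t.1.1 ∈ Y ∧ pr (s i t.1.1) = t.1.1 := by
    intro t i
    have h1 := (hs' t.1.1 t.2).2.2
    have h2 : s i t.1.1 ∈ {y | y ∈ Y ∧ pr y = t.1.1} := by rw [h1]; exact ⟨i, rfl⟩
    exact h2
  refine IsEvenlyCovered.to_isEvenlyCovered_preimage (I := Fin e) ?_
  refine even_of_sections (qY Y pr δ) hq U (isOpen_ball.preimage continuous_subtype_val)
    (fun i t => ⟨s i t.1.1, (hmem t i).1, by rw [(hmem t i).2]; exact t.1.2⟩) ?_ ?_ ?_ z
    (mem_ball_self hr)
  · intro i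
    refine Continuous.subtype_mk ?_ _
    exact (hs i).continuousOn.comp_continuous
      (continuous_subtype_val.comp continuous_subtype_val) fun t => t.2
  · intro t i j hij
    exact (hs' t.1.1 t.2).2.1 (congrArg Subtype.val hij)
  · intro t w
    constructor
    · intro hw
      have h1 := (hs' t.1.1 t.2).2.2
      have h2 : w.1 ∈ {y | y ∈ Y ∧ pr y = t.1.1} := ⟨w.2.1, congrArg Subtype.val hw⟩
      rw [h1] at h2
      obtain ⟨i, hi⟩ := h2
      exact ⟨i, Subtype.ext hi⟩
    · rintro ⟨i, rfl⟩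
      exact Subtype.ext (hmem t i).2

/-- a small neighbourhood of a point of the covering consists of values of one section -/
theorem sheet_nhd_diff {m k : ℕ} {Y : Set (Fin m → ℂ)} {pr : (Fin m → ℂ) → (Fin k → ℂ)}
    {δ : MvPolynomial (Fin k) ℂ} {e : ℕ} (h : PCov Y pr δ e) {p : Fin m → ℂ} (hp : p ∈ Y)
    (hpz : MvPolynomial.eval (pr p) δ ≠ 0) :
    ∃ (r : ℝ) (s : (Fin k → ℂ) → (Fin m → ℂ)), 0 < r ∧
      DifferentiableOn ℂ s (ball (pr p) r) ∧ s (pr p) = p ∧
      ∀ᶠ y in 𝓝 p, y ∈ Y → pr y ∈ ball (pr p) r ∧ s (pr y) = y := by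
  obtain ⟨r, hr, s, hs, hs'⟩ := h.sections (pr p) hpz
  have hcz : pr p ∈ ball (pr p) r := mem_ball_self hr
  obtain ⟨-, hinj, hrange⟩ := hs' (pr p) hcz
  have hp1 : p ∈ Set.range (fun i => s i (pr p)) := by
    rw [← hrange]; exact ⟨hp, rfl⟩
  obtain ⟨i₀, hi₀⟩ := hp1
  have hev : ∀ᶠ y in 𝓝 p, pr y ∈ ball (pr p) r ∧ ∀ j, j ≠ i₀ → s j (pr y) ≠ y := by
    refine Filter.Eventually.and ?_ ?_
    · exact h.diff.continuous.continuousAt (isOpen_ball.mem_nhds hcz)
    · rw [Filter.eventually_all]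
      intro j
      by_cases hj : j = i₀
      · exact Filter.Eventually.of_forall fun y hy => absurd hj hy
      · have h1 : ContinuousAt (fun y => s j (pr y) - y) p := by
          refine ContinuousAt.sub ?_ continuousAt_id
          exact ContinuousAt.comp (f := pr) (g := s j)
            ((hs j).continuousOn.continuousAt (isOpen_ball.mem_nhds hcz))
            h.diff.continuous.continuousAt
        have h2 : s j (pr p) - p ≠ 0 := by
          intro h3
          apply hj
          apply hinj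
          change s j (pr p) = s i₀ (pr p)
          rw [sub_eq_zero.1 h3]
          exact hi₀.symm
        filter_upwards [h1.eventually_ne h2] with y hy _ hy'
        exact hy (by rw [hy', sub_self])
  refine ⟨r, s i₀, hr, hs i₀, hi₀, ?_⟩
  filter_upwards [hev] with y hy hyY
  obtain ⟨h1, h2⟩ := hy
  refine ⟨h1, ?_⟩
  obtain ⟨-, -, h3⟩ := hs' (pr y) h1
  have h4 : y ∈ Set.range (fun i => s i (pr y)) := by
    rw [← h3]; exact ⟨hyY, rfl⟩
  obtain ⟨j, hj⟩ := h4
  by_cases hji : j = i₀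
  · rw [← hji]; exact hj
  · exact absurd hj (h2 j hji)

theorem RDT : S_RD := by
  intro m k Y pr δ e h hδ v
  obtain ⟨b, hb'⟩ := exists_linePoly 0 v δ
  have hb : ∀ s : ℂ, b.eval s = MvPolynomial.eval (s • v) δ := fun s => by
    rw [hb', zero_add]
  have hlpc : Continuous (lp Y pr δ v) := continuous_fst.comp continuous_subtype_val
  have heven : ∀ t ∈ {s : ℂ | b.eval s ≠ 0}, IsEvenlyCovered (lp Y pr δ v) t (Fin e) := by
    intro t₀ ht₀
    have ht₀' : MvPolynomial.eval (t₀ • v) δ ≠ 0 := by rw [← hb]; exact ht₀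
    obtain ⟨r, hr, s, hs, hs'⟩ := h.sections (t₀ • v) ht₀'
    have hcv : Continuous (fun t : ℂ => t • v) := continuous_id.smul continuous_const
    set U : Set ℂ := (fun t : ℂ => t • v) ⁻¹' ball (t₀ • v) r with hU
    have hmem : ∀ (t : U) i, s i (t.1 • v) ∈ Y ∧ pr (s i (t.1 • v)) = t.1 • v := by
      intro t i
      have h1 := (hs' (t.1 • v) t.2).2.2
      have h2 : s i (t.1 • v) ∈ {y | y ∈ Y ∧ pr y = t.1 • v} := by rw [h1]; exact ⟨i, rfl⟩
      exact h2
    refine even_of_sections (lp Y pr δ v) hlpc U (isOpen_ball.preimage hcv)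
      (fun i t => ⟨(t.1, s i (t.1 • v)), (hmem t i).1, (hmem t i).2, (hs' (t.1 • v) t.2).1⟩)
      ?_ ?_ ?_ t₀ (mem_ball_self hr)
    · intro i
      refine Continuous.subtype_mk ?_ _
      exact continuous_subtype_val.prodMk ((hs i).continuousOn.comp_continuous
        (hcv.comp continuous_subtype_val) fun t => t.2)
    · intro t i j hij
      exact (hs' (t.1 • v) t.2).2.1 (congrArg (fun w : Lc Y pr δ v => w.1.2) hij)
    · intro t w
      constructor
      · intro hw
        have hw' : w.1.1 = t.1 := hw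
        have h1 := (hs' (t.1 • v) t.2).2.2
        have h2 : w.1.2 ∈ {y | y ∈ Y ∧ pr y = t.1 • v} := ⟨w.2.1, by rw [← hw']; exact w.2.2.1⟩
        rw [h1] at h2
        obtain ⟨i, hi⟩ := h2
        exact ⟨i, Subtype.ext (Prod.ext hw'.symm hi)⟩
      · rintro ⟨i, rfl⟩
        rfl
  have hrng : ∀ x, b.eval (lp Y pr δ v x) ≠ 0 := fun x => by
    rw [hb]; exact x.2.2.2
  have hcov : IsCoveringMapOn (lp Y pr δ v) {s | b.eval s ≠ 0} := fun t ht =>
    (heven t ht).to_isEvenlyCovered_preimage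
  refine ⟨⟨b, hb, ?_, ?_, hcov, ?_, hrng⟩, ?_⟩
  · rintro rfl
    have := hb 0
    rw [Polynomial.eval_zero, zero_smul] at this
    exact hδ this.symm
  · rw [isLocalHomeomorph_iff_isLocalHomeomorphOn_univ]
    have h1 := hcov.isLocalHomeomorphOn
    have h2 : (lp Y pr δ v) ⁻¹' {s | b.eval s ≠ 0} = univ := eq_univ_of_forall hrng
    rwa [h2] at h1
  · intro t
    by_cases ht : b.eval t = 0
    · have : (lp Y pr δ v) ⁻¹' {t} = ∅ := by
        rw [Set.eq_empty_iff_forall_notMem]
        intro x hx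
        have hx' : lp Y pr δ v x = t := hx
        exact hrng x (by rw [hx']; exact ht)
      rw [this]
      exact Set.finite_empty
    · have h1 := (heven t ht).fiberHomeomorph
      exact Finite.of_equiv _ h1.toEquiv
  · intro g hg x
    have hx1 : pr x.1.2 = x.1.1 • v := x.2.2.1
    obtain ⟨r, s, hr, hs, hsp, hev⟩ := sheet_nhd_diff h x.2.1 (by rw [hx1]; exact x.2.2.2)
    rw [hx1] at hs hsp hev
    obtain ⟨Ug, hUg, hxU, f, hf, hfg⟩ := hg x.1.2 x.2.1
    have hcv : Continuous (fun t : ℂ => t • v) := continuous_id.smul continuous_const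
    have hdv : Differentiable ℂ (fun t : ℂ => t • v) := differentiable_id.smul_const v
    have hsv : DifferentiableOn ℂ (fun t : ℂ => s (t • v))
        ((fun t : ℂ => t • v) ⁻¹' ball (x.1.1 • v) r) :=
      hs.comp hdv.differentiableOn fun t ht => ht
    have hO : IsOpen ((fun t : ℂ => t • v) ⁻¹' ball (x.1.1 • v) r) := isOpen_ball.preimage hcv
    have hO' : IsOpen (((fun t : ℂ => t • v) ⁻¹' ball (x.1.1 • v) r) ∩
        (fun t : ℂ => s (t • v)) ⁻¹' Ug) := hsv.continuousOn.isOpen_inter_preimage hO hUg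
    have hx : x.1.1 ∈ ((fun t : ℂ => t • v) ⁻¹' ball (x.1.1 • v) r) ∩
        (fun t : ℂ => s (t • v)) ⁻¹' Ug := by
      refine ⟨mem_ball_self hr, ?_⟩
      change s (x.1.1 • v) ∈ Ug
      rw [hsp]; exact hxU
    refine ⟨fun t => f (s (t • v)), ?_, ?_⟩
    · have h1 : DifferentiableOn ℂ (fun t => f (s (t • v)))
          (((fun t : ℂ => t • v) ⁻¹' ball (x.1.1 • v) r) ∩ (fun t : ℂ => s (t • v)) ⁻¹' Ug) :=
        hf.comp (hsv.mono inter_subset_left) fun t ht => ht.2
      exact h1.analyticAt (hO'.mem_nhds hx)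
    · have hc2 : Continuous (fun w : Lc Y pr δ v => w.1.2) :=
        continuous_snd.comp continuous_subtype_val
      have h1 : ∀ᶠ w : Lc Y pr δ v in 𝓝 x, w.1.2 ∈ Y → pr w.1.2 ∈ ball (x.1.1 • v) r ∧
          s (pr w.1.2) = w.1.2 := hc2.continuousAt.eventually hev
      have h2 : ∀ᶠ w : Lc Y pr δ v in 𝓝 x, w.1.2 ∈ Ug :=
        hc2.continuousAt (hUg.mem_nhds hxU)
      filter_upwards [h1, h2] with w hw1 hw2
      obtain ⟨h3, h4⟩ := hw1 w.2.1
      change g w.1.2 = f (s (w.1.1 • v))
      rw [← w.2.2.1, h4, hfg w.1.2 w.2.1 hw2]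

end Pool.Agent.Y225.Gor
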