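import Pool.Agent.Y225.Gor.Grow

/-!
# Proof of `S_GROW`
-/

set_option autoImplicit false

open Metric Set Topology

namespace Pool.Agent.Y225.Gor

open H113G Pool.Agent.W481 Pool.Agent.W327.F4

/-- growth over a part of the plane -/
def GrOn {Γ : Type} (pr : Γ → ℂ) (b : Polynomial ℂ) (F : Γ → ℂ) (U : Set ℂ) : Prop :=
  ∃ (C : ℝ) (K K' : ℕ), ∀ x, pr x ∈ U → ‖F x‖ * ‖b.eval (pr x)‖ ^ K ≤ C * (1 + ‖pr x‖) ^ K'

theorem GrOn.mono {Γ : Type} {pr : Γ → ℂ} {b : Polynomial ℂ} {F : Γ → ℂ} {U V : Set ℂ}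
    (h : GrOn pr b F V) (hUV : U ⊆ V) : GrOn pr b F U := by
  obtain ⟨C, K, K', h⟩ := h
  exact ⟨C, K, K', fun x hx => h x (hUV hx)⟩

theorem GrOn.union {Γ : Type} {pr : Γ → ℂ} {b : Polynomial ℂ} {F : Γ → ℂ} {U V : Set ℂ}
    (h : GrOn pr b F U) (h' : GrOn pr b F V) : GrOn pr b F (U ∪ V) := by
  obtain ⟨C₁, K₁, K₁', h₁⟩ := h
  obtain ⟨C₂, K₂, K₂', h₂⟩ := h'
  obtain ⟨Cb, hCb, hb⟩ := eval_bound b
  set d := b.natDegree
  -- a common form of both estimates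
  have key : ∀ (C : ℝ) (K K' L L' : ℕ) (x : Γ), d * L ≤ L' →
      ‖F x‖ * ‖b.eval (pr x)‖ ^ K ≤ C * (1 + ‖pr x‖) ^ K' →
      ‖F x‖ * ‖b.eval (pr x)‖ ^ (K + L) ≤ (|C| * Cb ^ L) * (1 + ‖pr x‖) ^ (K' + L') := by
    intro C K K' L L' x hL hx
    have h1 : (1 : ℝ) ≤ 1 + ‖pr x‖ := by linarith [norm_nonneg (pr x)]
    calc ‖F x‖ * ‖b.eval (pr x)‖ ^ (K + L)
        = (‖F x‖ * ‖b.eval (pr x)‖ ^ K) * ‖b.eval (pr x)‖ ^ L := by rw [pow_add]; ring
      _ ≤ (|C| * (1 + ‖pr x‖) ^ K') * (Cb * (1 + ‖pr x‖) ^ d) ^ L := by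
          refine mul_le_mul (hx.trans ?_) (pow_le_pow_left₀ (norm_nonneg _) (hb _) L)
            (by positivity) (by positivity)
          exact mul_le_mul_of_nonneg_right (le_abs_self C) (by positivity)
      _ = (|C| * Cb ^ L) * ((1 + ‖pr x‖) ^ K' * (1 + ‖pr x‖) ^ (d * L)) := by
          rw [mul_pow, ← pow_mul]; ring
      _ ≤ (|C| * Cb ^ L) * ((1 + ‖pr x‖) ^ K' * (1 + ‖pr x‖) ^ L') := by
          refine mul_le_mul_of_nonneg_left ?_ (by positivity)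
          exact mul_le_mul_of_nonneg_left (pow_le_pow_right₀ h1 hL) (by positivity)
      _ = _ := by rw [← pow_add]
  refine ⟨|C₁| * Cb ^ K₂ + |C₂| * Cb ^ K₁, K₁ + K₂, (K₁' + d * K₂) + (K₂' + d * K₁),
    fun x hx => ?_⟩
  have h1 : (1 : ℝ) ≤ 1 + ‖pr x‖ := by linarith [norm_nonneg (pr x)]
  have hn1 : 0 ≤ |C₁| * Cb ^ K₂ := by positivity
  have hn2 : 0 ≤ |C₂| * Cb ^ K₁ := by positivity
  rcases hx with hx | hx
  · refine (key C₁ K₁ K₁' K₂ (d * K₂) x le_rfl (h₁ x hx)).trans ?_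
    refine mul_le_mul (by linarith) (pow_le_pow_right₀ h1 (by omega)) (by positivity)
      (by linarith)
  · have h2 := key C₂ K₂ K₂' K₁ (d * K₁) x le_rfl (h₂ x hx)
    rw [add_comm K₂ K₁] at h2
    refine h2.trans ?_
    refine mul_le_mul (by linarith) (pow_le_pow_right₀ h1 (by omega)) (by positivity)
      (by linarith)

theorem grow_regular {Γ : Type} [TopologicalSpace Γ] [T2Space Γ] {pr : Γ → ℂ} {b : Polynomial ℂ}
    (hrd : RD pr b) {F : Γ → ℂ} (hF : Hl pr F) (s : ℂ) (hs : b.eval s ≠ 0) :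
    ∃ ε : ℝ, 0 < ε ∧ GrOn pr b F (ball s ε) := by
  have hopen : IsOpen {s : ℂ | b.eval s ≠ 0} := isOpen_ne_fun b.continuous continuous_const
  obtain ⟨ε, hε, hball⟩ := Metric.isOpen_iff.1 hopen s hs
  obtain ⟨𝒮, h𝒮, hgood, hall⟩ := cov_sections pr hrd.lh _ hrd.cov hrd.fin (ball s ε) isOpen_ball
    (convex_ball _ _) hball
  have hFc : Continuous F := hF.continuous hrd.lh.continuous
  have hbd : ∀ σ ∈ 𝒮, ∃ B : ℝ, ∀ z ∈ closedBall s (ε / 2), ‖F (σ z)‖ ≤ B := by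
    intro σ hσ
    have hsub : closedBall s (ε / 2) ⊆ ball s ε := closedBall_subset_ball (by linarith)
    have hc : ContinuousOn (fun z => ‖F (σ z)‖) (closedBall s (ε / 2)) :=
      (hFc.comp_continuousOn ((hgood σ hσ).ct.mono hsub)).norm
    obtain ⟨B, hB⟩ := (isCompact_closedBall s (ε / 2)).bddAbove_image hc
    exact ⟨B, fun z hz => hB ⟨z, hz, rfl⟩⟩
  choose! B hB using hbd
  obtain ⟨B₁, hB₁⟩ := (h𝒮.image B).bddAbove
  refine ⟨ε / 2, by positivity, B₁, 0, 0, fun x hx => ?_⟩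
  have hx' : pr x ∈ ball s ε := ball_subset_ball (by linarith) hx
  obtain ⟨σ, hσ, hxσ⟩ := hall x hx'
  have h1 := hB σ hσ (pr x) (ball_subset_closedBall hx)
  rw [hxσ.2] at h1
  rw [pow_zero, pow_zero, mul_one, mul_one]
  exact h1.trans (hB₁ ⟨σ, hσ, rfl⟩)

theorem grow_root {Γ : Type} [TopologicalSpace Γ] [T2Space Γ] {pr : Γ → ℂ} {b : Polynomial ℂ}
    (hrd : RD pr b) {F : Γ → ℂ} (hF : Hl pr F) (h0 : ∀ x, F x ≠ 0) (h1 : ∀ x, F x ≠ 1)
    (s : ℂ) (hs : b.eval s = 0) : ∃ ε : ℝ, 0 < ε ∧ GrOn pr b F (ball s ε) := by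
  classical
  -- no other root near `s`
  obtain ⟨ε, hε, hε1, hroot⟩ : ∃ ε : ℝ, 0 < ε ∧ ε < 1 ∧ ∀ z, z ≠ s → ‖z - s‖ < ε → b.eval z ≠ 0 := by
    have hfin : (((b.roots.toFinset.erase s : Finset ℂ) : Set ℂ)ᶜ) ∈ 𝓝 s :=
      ((Finset.finite_toSet _).isClosed).isOpen_compl.mem_nhds (by simp)
    obtain ⟨ε, hε, hb⟩ := Metric.mem_nhds_iff.1 hfin
    refine ⟨min ε (1 / 2), by positivity, (min_le_right _ _).trans_lt (by norm_num),
      fun z hz hzs hbz => ?_⟩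
    have h2 : z ∈ ball s ε := by
      rw [mem_ball, dist_eq_norm]
      exact hzs.trans_le (min_le_left _ _)
    apply hb h2
    simp only [Finset.coe_erase, Set.mem_sdiff, Finset.mem_coe, Multiset.mem_toFinset,
      Polynomial.mem_roots hrd.ne, Polynomial.IsRoot]
    exact ⟨hbz, hz⟩
  have hcmd : Differentiable ℂ (fun ζ : ℂ => s + Complex.exp (-ζ)) :=
    (differentiable_const s).add (Complex.differentiable_exp.comp differentiable_neg)
  obtain ⟨A, C, c', hA, hC, hc', hc'', hgr⟩ := grow_end hrd hF h0 h1 (-Real.log ε)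
    (fun ζ => s + Complex.exp (-ζ)) hcmd
    (fun ζ => by
      have : -(ζ + 2 * Real.pi * Complex.I) = -ζ - 2 * Real.pi * Complex.I := by ring
      simp only [this, Complex.exp_sub, Complex.exp_two_pi_mul_I, div_one])
    (fun ζ hζ => by
      refine hroot _ ?_ ?_
      · intro h
        exact Complex.exp_ne_zero (-ζ) (by linear_combination h)
      · rw [add_sub_cancel_left, Complex.norm_exp, Complex.neg_re, ← Real.lt_log_iff_exp_lt hε]
        linarith)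
  -- the factor `z - s` of `b`
  obtain ⟨q, hq⟩ := Polynomial.dvd_iff_isRoot.2 hs
  have hqc : ContinuousOn (fun z => ‖q.eval z‖) (closedBall s 1) := q.continuous.norm.continuousOn
  obtain ⟨M, hM⟩ := (isCompact_closedBall s 1).bddAbove_image hqc
  have hM0 : 0 ≤ M := (norm_nonneg (q.eval s)).trans (hM ⟨s, mem_closedBall_self zero_le_one, rfl⟩)
  obtain ⟨N, hN⟩ := exists_nat_ge A
  refine ⟨min (Real.exp (-c')) (1 / 2), by positivity, C * M ^ N, N, 0, fun x hx => ?_⟩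
  have hx1 : ‖pr x - s‖ < Real.exp (-c') := by
    rw [mem_ball, dist_eq_norm] at hx
    exact hx.trans_le (min_le_left _ _)
  have hx2 : ‖pr x - s‖ < 1 := by
    rw [mem_ball, dist_eq_norm] at hx
    exact hx.trans_le ((min_le_right _ _).trans (by norm_num))
  have hx3 : pr x ≠ s := by
    intro h
    exact hrd.rng x (by rw [h]; exact hs)
  have hx4 : 0 < ‖pr x - s‖ := norm_pos_iff.2 (sub_ne_zero.2 hx3)
  have hx5 : pr x - s ≠ 0 := sub_ne_zero.2 hx3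
  have h2 := hgr x (-Complex.log (pr x - s)) (by
      rw [Complex.neg_re, Complex.log_re]
      have := (Real.log_lt_iff_lt_exp hx4).2 hx1
      linarith) (by
      rw [neg_neg, Complex.exp_log hx5]
      ring)
  rw [Complex.neg_re, Complex.log_re] at h2
  have h3 : ‖b.eval (pr x)‖ ≤ M * ‖pr x - s‖ := by
    rw [hq, Polynomial.eval_mul, norm_mul, mul_comm]
    simp only [Polynomial.eval_sub, Polynomial.eval_X, Polynomial.eval_C]
    refine mul_le_mul_of_nonneg_right (hM ⟨pr x, ?_, rfl⟩) hx4.le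
    rw [mem_closedBall, dist_eq_norm]
    exact hx2.le
  have hlog : Real.log ‖pr x - s‖ ≤ 0 := Real.log_nonpos hx4.le hx2.le
  have h4 : Real.exp (A * -Real.log ‖pr x - s‖) * ‖pr x - s‖ ^ N ≤ 1 := by
    rw [← Real.exp_log hx4, ← Real.exp_nat_mul, ← Real.exp_add, Real.exp_log hx4,
      Real.exp_le_one_iff]
    nlinarith
  rw [pow_zero, mul_one]
  calc ‖F x‖ * ‖b.eval (pr x)‖ ^ N
      ≤ (C * Real.exp (A * -Real.log ‖pr x - s‖)) * (M * ‖pr x - s‖) ^ N :=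
        mul_le_mul h2 (pow_le_pow_left₀ (norm_nonneg _) h3 N) (by positivity) (by positivity)
    _ = C * M ^ N * (Real.exp (A * -Real.log ‖pr x - s‖) * ‖pr x - s‖ ^ N) := by
        rw [mul_pow]; ring
    _ ≤ C * M ^ N * 1 := mul_le_mul_of_nonneg_left h4 (by positivity)
    _ = _ := mul_one _

theorem grow_infty {Γ : Type} [TopologicalSpace Γ] [T2Space Γ] {pr : Γ → ℂ} {b : Polynomial ℂ}
    (hrd : RD pr b) {F : Γ → ℂ} (hF : Hl pr F) (h0 : ∀ x, F x ≠ 0) (h1 : ∀ x, F x ≠ 1) :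
    ∃ R : ℝ, GrOn pr b F {s | R < ‖s‖} := by
  classical
  obtain ⟨R₀, hR₀⟩ : ∃ R₀ : ℝ, ∀ z : ℂ, b.eval z = 0 → ‖z‖ ≤ R₀ := by
    obtain ⟨R₀, h⟩ := ((b.roots.toFinset.finite_toSet).image norm).bddAbove
    refine ⟨R₀, fun z hz => h ⟨z, ?_, rfl⟩⟩
    simp only [Finset.mem_coe, Multiset.mem_toFinset, Polynomial.mem_roots hrd.ne,
      Polynomial.IsRoot]
    exact hz
  obtain ⟨A, C, c', hA, hC, hc', hc'', hgr⟩ := grow_end hrd hF h0 h1 R₀
    Complex.exp Complex.differentiable_exp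
    (fun ζ => by rw [Complex.exp_add, Complex.exp_two_pi_mul_I, mul_one])
    (fun ζ hζ hbz => by
      have h2 := hR₀ _ hbz
      rw [Complex.norm_exp] at h2
      have h3 := Real.add_one_le_exp ζ.re
      linarith)
  obtain ⟨N, hN⟩ := exists_nat_ge A
  refine ⟨Real.exp c', C, 0, N, fun x hx => ?_⟩
  have hx' : Real.exp c' < ‖pr x‖ := hx
  have hx4 : 0 < ‖pr x‖ := (Real.exp_pos c').trans hx'
  have hx5 : pr x ≠ 0 := norm_pos_iff.1 hx4
  have hx6 : 1 ≤ ‖pr x‖ := by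
    have := Real.one_le_exp hc'
    linarith
  have h2 := hgr x (Complex.log (pr x)) (by
      rw [Complex.log_re]
      exact (Real.lt_log_iff_exp_lt hx4).2 hx') (by rw [Complex.exp_log hx5])
  rw [Complex.log_re] at h2
  have h3 : Real.exp (A * Real.log ‖pr x‖) ≤ ‖pr x‖ ^ N := by
    rw [← Real.exp_log hx4, ← Real.exp_nat_mul, Real.exp_log hx4]
    exact Real.exp_le_exp.2 (mul_le_mul_of_nonneg_right hN (Real.log_nonneg hx6))
  rw [pow_zero, mul_one]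
  calc ‖F x‖ ≤ C * Real.exp (A * Real.log ‖pr x‖) := h2
    _ ≤ C * ‖pr x‖ ^ N := mul_le_mul_of_nonneg_left h3 hC
    _ ≤ C * (1 + ‖pr x‖) ^ N :=
        mul_le_mul_of_nonneg_left (pow_le_pow_left₀ hx4.le (by linarith) N) hC

theorem GROW : S_GROW := by
  intro Γ _ _ pr b hrd F hF h0 h1
  obtain ⟨R, hR⟩ := grow_infty hrd hF h0 h1
  have hc : GrOn pr b F (closedBall 0 R) := by
    refine IsCompact.induction_on (isCompact_closedBall (0 : ℂ) R)
      (p := fun U => GrOn pr b F U) ?_ (fun U V hUV hV => hV.mono hUV)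
      (fun U V hU hV => hU.union hV) ?_
    · exact ⟨0, 0, 0, fun x hx => absurd hx (Set.notMem_empty _)⟩
    · intro s _
      by_cases hs : b.eval s = 0
      · obtain ⟨ε, hε, h⟩ := grow_root hrd hF h0 h1 s hs
        exact ⟨ball s ε, mem_nhdsWithin_of_mem_nhds (ball_mem_nhds s hε), h⟩
      · obtain ⟨ε, hε, h⟩ := grow_regular hrd hF s hs
        exact ⟨ball s ε, mem_nhdsWithin_of_mem_nhds (ball_mem_nhds s hε), h⟩
  obtain ⟨C, K, K', h⟩ := hc.union hR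
  refine ⟨C, K, K', fun x => h x ?_⟩
  by_cases hx : ‖pr x‖ ≤ R
  · left
    rw [mem_closedBall, dist_zero_right]
    exact hx
  · right
    exact not_le.1 hx

end Pool.Agent.Y225.Gor
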