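import Pool.Agent.Y225.Gor.Trans

/-!
# Proof of `S_TRANS`
-/

set_option autoImplicit false

open Metric Set Topology unitInterval

namespace Pool.Agent.Y225.Gor

open H113G Pool.Agent.W481

theorem TRANS : S_TRANS := by
  classical
  intro m k Y pr δ hdiff hq hδ D hD v₀ hv₀ u hu hu0 hlog
  obtain ⟨ℓ₀, hℓ₀c, hℓ₀e⟩ := hlog
  rw [continuousOn_univ] at hℓ₀c
  have hmk : ∀ (v : Fin k → ℂ) (y : Fin m → ℂ), y ∈ Y ∧ pr y = 0 →
      y ∈ Y ∧ pr y = (0 : ℂ) • v ∧ MvPolynomial.eval ((0 : ℂ) • v) δ ≠ 0 := fun v y hy =>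
    ⟨hy.1, by rw [zero_smul]; exact hy.2, by rw [zero_smul]; exact hδ⟩
  let c : (Fin m → ℂ) → ℂ := fun y =>
    if h : y ∈ Y ∧ pr y = 0 then ℓ₀ ⟨(0, y), hmk v₀ y h⟩ else 0
  have h₀ : LogAt u c v₀ ℓ₀ := by
    refine ⟨hℓ₀c, fun w => hℓ₀e w (mem_univ _), fun w hw => ?_⟩
    have h1 : w.1.2 ∈ Y ∧ pr w.1.2 = 0 := ⟨w.2.1, by rw [w.2.2.1, hw, zero_smul]⟩
    have h2 : c w.1.2 = ℓ₀ ⟨(0, w.1.2), hmk v₀ _ h1⟩ := by simp only [c, h1, dif_pos, and_self]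
    rw [h2]
    congr 1
    apply Subtype.ext
    exact Prod.ext hw rfl
  -- from the total space to the fibres
  have hres : ∀ (vs : Fin k → ℂ) (ε : ℝ) (ℓ : Tot Y pr δ (ball vs ε) → ℂ), Continuous ℓ →
      (∀ w, Complex.exp (ℓ w) = u w.1.2.2) → (∀ w, w.1.2.1 = 0 → ℓ w = c w.1.2.2) →
      ∀ v (hv : v ∈ ball vs ε), LogAt u c v
        (fun w : Lc Y pr δ v => ℓ ⟨(v, w.1.1, w.1.2), hv, w.2.1, w.2.2.1, w.2.2.2⟩) := by
    intro vs ε ℓ h1 h2 h3 v hv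
    refine ⟨h1.comp ?_, fun w => h2 _, fun w hw => h3 _ hw⟩
    refine Continuous.subtype_mk ?_ _
    exact continuous_const.prodMk ((continuous_fst.comp continuous_subtype_val).prodMk
      (continuous_snd.comp continuous_subtype_val))
  -- all good vectors have a logarithm
  set G : Set (Fin k → ℂ) := {v | MvPolynomial.eval v D ≠ 0} with hG
  have hall : ∀ v ∈ G, ∃ ℓ : Lc Y pr δ v → ℂ, LogAt u c v ℓ := by
    have hpre : IsPreconnected G := compl_hyp_preconnected D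
    have hsub : ∀ v ∈ G, ∃ ε : ℝ, 0 < ε ∧ ∀ v₁ ∈ ball v ε, ∀ v₂ ∈ ball v ε,
        (∃ ℓ : Lc Y pr δ v₁ → ℂ, LogAt u c v₁ ℓ) → ∃ ℓ : Lc Y pr δ v₂ → ℂ, LogAt u c v₂ ℓ := by
      intro v hv
      obtain ⟨ε, hε, hloc⟩ := local_transport (c := c) hq hδ hu hu0 (hD v hv)
      refine ⟨ε, hε, fun v₁ hv₁ v₂ hv₂ ⟨ℓ₁, hℓ₁⟩ => ?_⟩
      obtain ⟨ℓ, h1, h2, h3⟩ := hloc v₁ hv₁ ℓ₁ hℓ₁
      exact ⟨_, hres v ε ℓ h1 h2 h3 v₂ hv₂⟩
    choose ε hε hloc using hsub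
    set U₁ : Set (Fin k → ℂ) := ⋃ (v : Fin k → ℂ) (hv : v ∈ G)
      (_ : ∃ ℓ : Lc Y pr δ v → ℂ, LogAt u c v ℓ), ball v (ε v hv) with hU₁
    set U₂ : Set (Fin k → ℂ) := ⋃ (v : Fin k → ℂ) (hv : v ∈ G)
      (_ : ¬ ∃ ℓ : Lc Y pr δ v → ℂ, LogAt u c v ℓ), ball v (ε v hv) with hU₂
    have ho₁ : IsOpen U₁ := isOpen_iUnion fun v => isOpen_iUnion fun hv =>
      isOpen_iUnion fun _ => isOpen_ball
    have ho₂ : IsOpen U₂ := isOpen_iUnion fun v => isOpen_iUnion fun hv =>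
      isOpen_iUnion fun _ => isOpen_ball
    have hm₁ : ∀ v ∈ U₁, ∃ ℓ : Lc Y pr δ v → ℂ, LogAt u c v ℓ := by
      intro v hv
      simp only [hU₁, mem_iUnion] at hv
      obtain ⟨v', hv', hℓ, hvb⟩ := hv
      exact hloc v' hv' v' (mem_ball_self (hε _ _)) v hvb hℓ
    have hm₂ : ∀ v ∈ U₂, ¬ ∃ ℓ : Lc Y pr δ v → ℂ, LogAt u c v ℓ := by
      intro v hv h
      simp only [hU₂, mem_iUnion] at hv
      obtain ⟨v', hv', hℓ, hvb⟩ := hv
      exact hℓ (hloc v' hv' v hvb v' (mem_ball_self (hε _ _)) h)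
    have hcov : G ⊆ U₁ ∪ U₂ := by
      intro v hv
      by_cases h : ∃ ℓ : Lc Y pr δ v → ℂ, LogAt u c v ℓ
      · left
        simp only [hU₁, mem_iUnion]
        exact ⟨v, hv, h, mem_ball_self (hε _ _)⟩
      · right
        simp only [hU₂, mem_iUnion]
        exact ⟨v, hv, h, mem_ball_self (hε _ _)⟩
    intro v hv
    by_contra h
    have hv₂ : v ∈ U₂ := by
      rcases hcov hv with h1 | h1
      · exact absurd (hm₁ v h1) h
      · exact h1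
    have hv₁ : v₀ ∈ U₁ := by
      rcases hcov (show v₀ ∈ G from hv₀) with h1 | h1
      · exact h1
      · exact absurd ⟨ℓ₀, h₀⟩ (hm₂ v₀ h1)
    obtain ⟨w, hwG, hw₁, hw₂⟩ := hpre U₁ U₂ ho₁ ho₂ hcov ⟨v₀, hv₀, hv₁⟩ ⟨v, hv, hv₂⟩
    exact hm₂ w hw₂ (hm₁ w hw₁)
  choose! ℓ hℓ using hall
  -- the global logarithm
  have hone : ∀ y, y ∈ Y ∧ MvPolynomial.eval (pr y) (δ * D) ≠ 0 →
      y ∈ Y ∧ pr y = (1 : ℂ) • pr y ∧ MvPolynomial.eval ((1 : ℂ) • pr y) δ ≠ 0 := by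
    intro y hy
    rw [map_mul] at hy
    exact ⟨hy.1, (one_smul _ _).symm, by rw [one_smul]; exact left_ne_zero_of_mul hy.2⟩
  have hDy : ∀ y, y ∈ Y ∧ MvPolynomial.eval (pr y) (δ * D) ≠ 0 → pr y ∈ G := by
    intro y hy
    rw [map_mul] at hy
    exact right_ne_zero_of_mul hy.2
  set A : Set (Fin m → ℂ) := {y | y ∈ Y ∧ MvPolynomial.eval (pr y) (δ * D) ≠ 0} with hA
  let Lg : (Fin m → ℂ) → ℂ := fun y =>
    if h : y ∈ Y ∧ MvPolynomial.eval (pr y) (δ * D) ≠ 0 then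
      ℓ (pr y) ⟨(1, y), hone y h⟩ else 0
  have hLg : ∀ y (h : y ∈ Y ∧ MvPolynomial.eval (pr y) (δ * D) ≠ 0),
      Lg y = ℓ (pr y) ⟨(1, y), hone y h⟩ := fun y h => by simp only [Lg, h, dif_pos, and_self, ne_eq, not_false_eq_true]
  refine ⟨Lg, ?_, fun y hy => ?_⟩
  · intro y hy
    have hy' : pr y ∈ G := hDy y hy
    obtain ⟨ε, hε, hloc⟩ := local_transport (c := c) hq hδ hu hu0 (hD _ hy')
    obtain ⟨l, h1, h2, h3⟩ := hloc (pr y) (mem_ball_self hε) _ (hℓ (pr y) hy')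
    set W : Set (Fin m → ℂ) := pr ⁻¹' ball (pr y) ε with hW
    have hWo : IsOpen W := isOpen_ball.preimage hdiff.continuous
    have hyW : y ∈ W := mem_ball_self hε
    have hcont : ContinuousOn Lg (A ∩ W) := by
      rw [continuousOn_iff_continuous_domRestrict]
      let e : ↥(A ∩ W) → Tot Y pr δ (ball (pr y) ε) := fun x =>
        ⟨(pr x.1, 1, x.1), x.2.2, hone x.1 x.2.1⟩
      have he : Continuous e := by
        refine Continuous.subtype_mk ?_ _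
        exact (hdiff.continuous.comp continuous_subtype_val).prodMk
          (continuous_const.prodMk continuous_subtype_val)
      have heq : (A ∩ W).domRestrict Lg = l ∘ e := by
        funext x
        change Lg x.1 = l (e x)
        rw [hLg x.1 x.2.1]
        exact (hℓ (pr x.1) (hDy x.1 x.2.1)).unique hq hδ
          (hres (pr y) ε l h1 h2 h3 (pr x.1) x.2.2) ⟨(1, x.1), hone x.1 x.2.1⟩
      rw [heq]
      exact h1.comp he
    have h4 : ContinuousWithinAt Lg (A ∩ W) y := hcont y ⟨hy, hyW⟩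
    exact h4.mono_of_mem_nhdsWithin (inter_mem_nhdsWithin A (hWo.mem_nhds hyW))
  · rw [hLg y hy]
    exact (hℓ (pr y) (hDy y hy)).exp _

end Pool.Agent.Y225.Gor
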