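import Pool.Agent.Y225.Gor.Asm

/-!
# The frozen statement from the statements of `Defs.lean`
-/

set_option autoImplicit false

open Metric Set Topology

namespace Pool.Agent.Y225.Gor

open H113G Pool.Agent.W481

theorem final (hC : S_CHART) (hI : S_IDENT) (hE : S_EXT) (hA : S_ALG) (hP : S_PCOV)
    (hR : S_ROOT) (hCov : S_COV) (hRD : S_RD) (hF : S_FG) (hT : S_TRANS) (hG : S_GROW)
    (hCo : S_CONST) (hN : S_COUNT) :
  ∀ (n : ℕ) (X : Set (Fin n → ℂ)),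
    (∃ S : Set (MvPolynomial (Fin n) ℂ), X = {x | ∀ P ∈ S, MvPolynomial.eval x P = 0}) →
    (∀ p ∈ X, ∃ U : Set (Fin n → ℂ), IsOpen U ∧ p ∈ U ∧
      ∃ (k : ℕ) (F : (Fin n → ℂ) → (Fin k → ℂ)), DifferentiableOn ℂ F U ∧
        (∀ x ∈ U, Function.Surjective ⇑(fderiv ℂ F x)) ∧ X ∩ U = U ∩ F ⁻¹' {0}) →
    IsConnected X →
    ∃ B : ℕ, ∀ (m : ℕ) (Y : Set (Fin m → ℂ)),
      (∃ S : Set (MvPolynomial (Fin m) ℂ), Y = {y | ∀ P ∈ S, MvPolynomial.eval y P = 0}) →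
      (∀ p ∈ Y, ∃ U : Set (Fin m → ℂ), IsOpen U ∧ p ∈ U ∧
        ∃ (k : ℕ) (F : (Fin m → ℂ) → (Fin k → ℂ)), DifferentiableOn ℂ F U ∧
          (∀ x ∈ U, Function.Surjective ⇑(fderiv ℂ F x)) ∧ Y ∩ U = U ∩ F ⁻¹' {0}) →
      IsConnected Y →
      Nonempty (↥X ≃ₜ ↥Y) →
      {g : ↥Y → ℂ | (∀ y, g y ≠ 0 ∧ g y ≠ 1) ∧ (∃ a b, g a ≠ g b) ∧
        ∀ p : ↥Y, ∃ U : Set (Fin m → ℂ), IsOpen U ∧ (p : Fin m → ℂ) ∈ U ∧
          ∃ h : (Fin m → ℂ) → ℂ, DifferentiableOn ℂ h U ∧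
            ∀ y : ↥Y, (y : Fin m → ℂ) ∈ U → h y = g y}.encard ≤ (B : ℕ∞) := by
  classical
  intro n X hX hXs hXc
  obtain ⟨r, hr⟩ := finiteRank_of_alg hC hI hE hA hP hR hCov hRD hF hT hX hXs hXc
  refine ⟨64 ^ r, fun m Y hY hYs hYc hΦ => ?_⟩
  obtain ⟨Φ⟩ := hΦ
  have hYr := finiteRank_homeo hr Φ
  refine encard_le_of_forall _ _ fun M f hf hfS => ?_
  let G : Fin M → (Fin m → ℂ) → ℂ := fun i x => if hx : x ∈ Y then f i ⟨x, hx⟩ else 0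
  have hG' : ∀ i (y : Y), G i y = f i y := fun i y => by simp only [G, y.2, dif_pos]
  have hG'' : ∀ i y (hy : y ∈ Y), G i y = f i ⟨y, hy⟩ := fun i y hy => hG' i ⟨y, hy⟩
  refine count_main hI hA hP hRD hG hCo hN hY (hC m Y hYs) hYc hYr M G ?_ ?_ ?_ ?_ ?_
  · intro i p hp
    obtain ⟨U, hU, hpU, h, hh, hh'⟩ := (hfS i).2.2 ⟨p, hp⟩
    exact ⟨U, hU, hpU, h, hh, fun y hy hyU => by rw [hG'' i y hy]; exact hh' ⟨y, hy⟩ hyU⟩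
  · intro i y hy
    rw [hG'' i y hy]
    exact ((hfS i).1 ⟨y, hy⟩).1
  · intro i y hy
    rw [hG'' i y hy]
    exact ((hfS i).1 ⟨y, hy⟩).2
  · intro i
    obtain ⟨a, b, hab⟩ := (hfS i).2.1
    exact ⟨a, a.2, b, b.2, by rw [hG' i a, hG' i b]; exact hab⟩
  · intro i j hij
    by_contra h
    push Not at h
    apply hij
    apply hf
    funext y
    rw [← hG' i y, ← hG' j y]
    exact h y y.2

end Pool.Agent.Y225.Gor
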