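import Pool.Agent.Y225.Gor.Fin

/-!
# Assembly of the proof from the statements of `Defs.lean`
-/

set_option autoImplicit false

open Metric Set Topology

namespace Pool.Agent.Y225.Gor

open H113G Pool.Agent.W481

/-- at most `B` elements if there are no `B + 1` different ones -/
theorem encard_le_of_forall {α : Type*} (S : Set α) (B : ℕ)
    (h : ∀ (M : ℕ) (f : Fin M → α), Function.Injective f → (∀ i, f i ∈ S) → M ≤ B) :
    S.encard ≤ B := by
  by_contra hlt
  push Not at hlt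
  have h1 : ((B + 1 : ℕ) : ℕ∞) ≤ S.encard := by
    rw [Nat.cast_add, Nat.cast_one]
    exact Order.add_one_le_of_lt hlt
  obtain ⟨T, hTS, hT⟩ := Set.exists_subset_encard_eq h1
  have hTf : T.Finite := Set.finite_of_encard_eq_coe hT
  have hc : hTf.toFinset.card = B + 1 := by
    rw [hTf.encard_eq_coe_toFinset_card] at hT
    exact_mod_cast hT
  let e := (hTf.toFinset.equivFinOfCardEq hc).symm
  have h2 := h (B + 1) (fun i => (e i).1) (fun i j hij => e.injective (Subtype.ext hij))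
    (fun i => hTS (hTf.mem_toFinset.1 (e i).2))
  omega

/-- a small neighbourhood of a point of the covering consists of values of one section -/
theorem sheet_nhd {m k : ℕ} {Y : Set (Fin m → ℂ)} {pr : (Fin m → ℂ) → (Fin k → ℂ)}
    {δ : MvPolynomial (Fin k) ℂ} {e : ℕ} (h : PCov Y pr δ e) {p : Fin m → ℂ} (hp : p ∈ Y)
    (hpz : MvPolynomial.eval (pr p) δ ≠ 0) :
    ∃ (r : ℝ) (s : (Fin k → ℂ) → (Fin m → ℂ)) (V : Set (Fin m → ℂ)), 0 < r ∧
      ContinuousOn s (ball (pr p) r) ∧ s (pr p) = p ∧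
      (∀ z ∈ ball (pr p) r, MvPolynomial.eval z δ ≠ 0 ∧ s z ∈ Y ∧ pr (s z) = z) ∧
      IsOpen V ∧ p ∈ V ∧ ∀ y ∈ Y ∩ V, pr y ∈ ball (pr p) r ∧ s (pr y) = y := by
  obtain ⟨r, hr, s, hs, hs'⟩ := h.sections (pr p) hpz
  have hcz : pr p ∈ ball (pr p) r := mem_ball_self hr
  obtain ⟨-, hinj, hrange⟩ := hs' (pr p) hcz
  have hp1 : p ∈ Set.range (fun i => s i (pr p)) := by
    rw [← hrange]; exact ⟨hp, rfl⟩
  obtain ⟨i₀, hi₀⟩ := hp1
  have hev : ∀ᶠ y in 𝓝 p, pr y ∈ ball (pr p) r ∧ ∀ j, j ≠ i₀ → s j (pr y) ≠ y := by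
    refine Filter.Eventually.and ?_ ?_
    · exact h.diff.continuous.continuousAt (isOpen_ball.mem_nhds hcz)
    · rw [Filter.eventually_all]
      intro j
      by_cases hj : j = i₀
      · exact Filter.Eventually.of_forall fun y hy => absurd hj hy
      · have h1 : ContinuousAt (fun y => s j (pr y) - y) p := by
          refine ContinuousAt.sub ?_ continuousAt_id
          exact ContinuousAt.comp (f := pr) (g := s j)
            ((hs j).continuousOn.continuousAt (isOpen_ball.mem_nhds hcz))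
            h.diff.continuous.continuousAt
        have h2 : s j (pr p) - p ≠ 0 := by
          intro h3
          apply hj
          apply hinj
          change s j (pr p) = s i₀ (pr p)
          rw [sub_eq_zero.1 h3]
          exact hi₀.symm
        filter_upwards [h1.eventually_ne h2] with y hy _ hy'
        exact hy (by rw [hy', sub_self])
  obtain ⟨V, hV, hVo, hpV⟩ := _root_.eventually_nhds_iff.1 hev
  refine ⟨r, s i₀, V, hr, (hs i₀).continuousOn, hi₀, fun z hz => ?_, hVo, hpV, fun y hy => ?_⟩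
  · obtain ⟨h1, -, h3⟩ := hs' z hz
    have h4 : s i₀ z ∈ {y | y ∈ Y ∧ pr y = z} := by
      rw [h3]; exact ⟨i₀, rfl⟩
    exact ⟨h1, h4.1, h4.2⟩
  · obtain ⟨h1, h2⟩ := hV y hy.2
    refine ⟨h1, ?_⟩
    obtain ⟨-, -, h3⟩ := hs' (pr y) h1
    have h4 : y ∈ Set.range (fun i => s i (pr y)) := by
      rw [← h3]; exact ⟨hy.1, rfl⟩
    obtain ⟨j, hj⟩ := h4
    by_cases hji : j = i₀
    · rw [← hji]; exact hj
    · exact absurd hj (h2 j hji)

/-- the path over the segment from `0` to `v` -/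
theorem joined_segment {m k : ℕ} {Y : Set (Fin m → ℂ)} {pr : (Fin m → ℂ) → (Fin k → ℂ)}
    {δ : MvPolynomial (Fin k) ℂ} {r : ℝ} {s : (Fin k → ℂ) → (Fin m → ℂ)}
    (hs : ContinuousOn s (ball 0 r))
    (hs' : ∀ z ∈ ball (0 : Fin k → ℂ) r, MvPolynomial.eval z δ ≠ 0 ∧ s z ∈ Y ∧ pr (s z) = z)
    {v : Fin k → ℂ} (hv : v ∈ ball (0 : Fin k → ℂ) r) (w₀ w₁ : Lc Y pr δ v)
    (h0 : w₀.1 = (0, s 0)) (h1 : w₁.1 = (1, s v)) : Joined w₀ w₁ := by
  have hmem : ∀ t : unitInterval, (((t : ℝ) : ℂ)) • v ∈ ball (0 : Fin k → ℂ) r := by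
    intro t
    rw [mem_ball_zero_iff] at hv ⊢
    rw [norm_smul, Complex.norm_real, Real.norm_eq_abs, abs_of_nonneg t.2.1]
    calc (t : ℝ) * ‖v‖ ≤ 1 * ‖v‖ := mul_le_mul_of_nonneg_right t.2.2 (norm_nonneg _)
      _ < r := by rw [one_mul]; exact hv
  let f : unitInterval → Lc Y pr δ v := fun t =>
    ⟨((((t : ℝ) : ℂ)), s ((((t : ℝ) : ℂ)) • v)), (hs' _ (hmem t)).2.1, (hs' _ (hmem t)).2.2,
      (hs' _ (hmem t)).1⟩
  have hf : Continuous f := by
    refine Continuous.subtype_mk ?_ _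
    have h2 : Continuous (fun t : unitInterval => (((t : ℝ) : ℂ))) :=
      Complex.continuous_ofReal.comp continuous_subtype_val
    refine h2.prodMk ?_
    exact hs.comp_continuous (h2.smul continuous_const) hmem
  refine ⟨⟨⟨f, hf⟩, ?_, ?_⟩⟩
  · apply Subtype.ext
    change ((((0 : unitInterval) : ℝ) : ℂ), s ((((0 : unitInterval) : ℝ) : ℂ) • v)) = _
    rw [h0]
    simp
  · apply Subtype.ext
    change ((((1 : unitInterval) : ℝ) : ℂ), s ((((1 : unitInterval) : ℝ) : ℂ) • v)) = _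
    rw [h1]
    simp

theorem one_sub_ne {z : ℂ} (h : z ≠ 1) : 1 - z ≠ 0 := sub_ne_zero.2 (Ne.symm h)

/-- the set of functions of the statement -/
theorem count_main (hI : S_IDENT) (hA : S_ALG) (hP : S_PCOV) (hRD : S_RD) (hG : S_GROW)
    (hCo : S_CONST) (hN : S_COUNT) {m r : ℕ} {Y : Set (Fin m → ℂ)} (hY : IsAlg Y)
    (hc : HasCharts Y) (hYc : IsConnected Y) (hr : FiniteRank Y r) (M : ℕ)
    (G : Fin M → (Fin m → ℂ) → ℂ) (hGh : ∀ i, HolOn Y (G i)) (hG0 : ∀ i, ∀ y ∈ Y, G i y ≠ 0)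
    (hG1 : ∀ i, ∀ y ∈ Y, G i y ≠ 1) (hGn : ∀ i, ∃ a ∈ Y, ∃ b ∈ Y, G i a ≠ G i b)
    (hGd : ∀ i j, i ≠ j → ∃ y ∈ Y, G i y ≠ G j y) : M ≤ 64 ^ r := by
  classical
  obtain ⟨k, pr₀, δ₀, e, h₀⟩ := exists_pcov hA hP hI hY hc hYc
  -- the base point
  obtain ⟨p, ⟨hp, -⟩, hpφ⟩ := exists_all_ne hI hc hYc.isPreconnected
    (Finset.univ : Finset (Option (Fin M × Fin M)))
    (fun o x => match o with
      | none => MvPolynomial.eval (pr₀ x) δ₀
      | some ij => if ij.1 = ij.2 then 1 else G ij.1 x - G ij.2 x)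
    (by
      rintro (_ | ⟨i, j⟩) -
      · exact HolOn.of_diff ((diff_eval δ₀).comp h₀.diff)
      · by_cases hij : i = j
        · simp only [hij, if_true]
          exact HolOn.of_diff (differentiable_const _)
        · simp only [hij, if_false]
          exact HolOn.sub (hGh i) (hGh j))
    (by
      rintro (_ | ⟨i, j⟩) -
      · exact h₀.dominant δ₀ h₀.ne
      · by_cases hij : i = j
        · obtain ⟨y, hy⟩ := hYc.nonempty
          exact ⟨y, hy, by simp [hij]⟩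
        · obtain ⟨y, hy, hy'⟩ := hGd i j hij
          refine ⟨y, hy, ?_⟩
          simp only [hij, if_false]
          exact sub_ne_zero.2 hy')
    univ isOpen_univ (by simpa using hYc.nonempty)
  have hpδ : MvPolynomial.eval (pr₀ p) δ₀ ≠ 0 := hpφ none (Finset.mem_univ _)
  have hpd : ∀ i j, i ≠ j → G i p ≠ G j p := by
    intro i j hij
    have h1 := hpφ (some (i, j)) (Finset.mem_univ _)
    simp only [hij, if_false] at h1
    exact sub_ne_zero.1 h1
  have h := h₀.translate (pr₀ p)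
  set pr : (Fin m → ℂ) → (Fin k → ℂ) := fun x => pr₀ x - pr₀ p with hpr
  set δ := shift (pr₀ p) δ₀ with hδ
  have hprp : pr p = 0 := by simp [hpr]
  have hδ0 : MvPolynomial.eval (0 : Fin k → ℂ) δ ≠ 0 := by
    rw [hδ, eval_shift, zero_add]
    exact hpδ
  obtain ⟨ρ, s, V, hρ, hs, hsp, hs', hVo, hpV, hV⟩ := sheet_nhd h hp (by rw [hprp]; exact hδ0)
  rw [hprp] at hs hsp hs' hV
  -- the second point
  obtain ⟨q, ⟨hq, hqV⟩, hqφ⟩ := exists_all_ne hI hc hYc.isPreconnected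
    (Finset.univ : Finset (Fin M)) (fun j x => G j x - G j p)
    (fun j _ => HolOn.sub (hGh j) (HolOn.of_diff (differentiable_const _)))
    (by
      intro j _
      obtain ⟨a, ha, b, hb, hab⟩ := hGn j
      by_cases h1 : G j a = G j p
      · refine ⟨b, hb, sub_ne_zero.2 fun h2 => hab ?_⟩
        rw [h1, h2]
      · exact ⟨a, ha, sub_ne_zero.2 h1⟩) V hVo ⟨p, hp, hpV⟩
  obtain ⟨hqb, hqs⟩ := hV q ⟨hq, hqV⟩
  set v := pr q with hv
  obtain ⟨⟨b, hb, hrd⟩, hhol⟩ := hRD m k Y pr δ e h hδ0 v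
  have hp0 : MvPolynomial.eval ((0 : ℂ) • v) δ ≠ 0 := by rw [zero_smul]; exact hδ0
  let y₀ : Lc Y pr δ v := ⟨(0, p), hp, by rw [zero_smul]; exact hprp, hp0⟩
  let y₁ : Lc Y pr δ v := ⟨(1, q), hq, by rw [one_smul], by
    rw [one_smul]; exact (hs' v hqb).1⟩
  have hj : Joined y₀ y₁ := joined_segment hs hs' hqb y₀ y₁
    (by change ((0 : ℂ), p) = _; rw [hsp]) (by change ((1 : ℂ), q) = _; rw [hqs])
  have hprc : Continuous (lp Y pr δ v) := continuous_fst.comp continuous_subtype_val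
  set g : Fin M → Lc Y pr δ v → ℂ := fun i w => G i w.1.2 with hg
  have hgH : ∀ i, Hl (lp Y pr δ v) (g i) := fun i => hhol (G i) (hGh i)
  have hg0 : ∀ i x, g i x ≠ 0 := fun i x => hG0 i _ x.2.1
  have hg1 : ∀ i x, g i x ≠ 1 := fun i x => hG1 i _ x.2.1
  have hg1' : ∀ i x, 1 - g i x ≠ 0 := fun i x => one_sub_ne (hg1 i x)
  have hgS : ∀ i, Hl (lp Y pr δ v) (fun x => 1 - g i x) := fun i => (Hl.const 1).sub (hgH i)
  -- growth
  have gr1 : ∀ i, Gr (lp Y pr δ v) b (g i) := fun i => hG _ _ b hrd _ (hgH i) (hg0 i) (hg1 i)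
  have gr2 : ∀ i, Gr (lp Y pr δ v) b (fun x => (g i x)⁻¹) := fun i =>
    hG _ _ b hrd _ ((hgH i).inv (hg0 i)) (fun x => inv_ne_zero (hg0 i x)) (fun x hx =>
      hg1 i x (by rw [← inv_inv (g i x), hx, inv_one]))
  have gr3 : ∀ i, Gr (lp Y pr δ v) b (fun x => 1 - g i x) := fun i =>
    hG _ _ b hrd _ (hgS i) (hg1' i) (fun x hx => hg0 i x (by linear_combination -hx))
  have gr4 : ∀ i, Gr (lp Y pr δ v) b (fun x => (1 - g i x)⁻¹) := fun i =>
    hG _ _ b hrd _ ((hgS i).inv (hg1' i)) (fun x => inv_ne_zero (hg1' i x)) (fun x hx =>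
      hg0 i x (by
        have h1 : 1 - g i x = 1 := by rw [← inv_inv (1 - g i x), hx, inv_one]
        linear_combination -h1))
  refine hN _ (lp Y pr δ v) hrd.lh y₀ M r g hgH hg0 hg1 hpd ?_ ?_ ?_
  · intro i
    exact ⟨y₁, hj, sub_ne_zero.1 (hqφ i (Finset.mem_univ _))⟩
  · intro a c u hu hper t ht
    have e1 : (fun x => (u x).1) = fun x => ∏ i, (g i x ^ a i * (1 - g i x) ^ c i) := funext hu
    have e2 : (fun x => (u x).1⁻¹) = fun x => ∏ i, (g i x ^ (-a i) * (1 - g i x) ^ (-c i)) := by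
      funext x
      rw [hu, ← Finset.prod_inv_distrib]
      refine Finset.prod_congr rfl fun i _ => ?_
      rw [mul_inv, zpow_neg, zpow_neg]
    refine hCo _ (lp Y pr δ v) b hrd u ?_ ?_ ?_ y₀ hper t ht
    · rw [e1]
      exact Hl.prod _ fun i _ => ((hgH i).zpow (hg0 i) _).mul ((hgS i).zpow (hg1' i) _)
    · rw [e1]
      exact Gr.prod _ fun i _ => ((gr1 i).zpow (gr2 i) _).mul ((gr3 i).zpow (gr4 i) _)
    · rw [e2]
      exact Gr.prod _ fun i _ => ((gr1 i).zpow (gr2 i) _).mul ((gr3 i).zpow (gr4 i) _)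
  · intro U hU
    -- the functions on `Y`
    have hW : ∀ l, ∃ (W : (Fin m → ℂ) → ℂ), ContinuousOn W Y ∧ (∀ y ∈ Y, W y ≠ 0) ∧
        (∀ x, U l x = W x.1.2) ∧ Hl (lp Y pr δ v) (U l) ∧ Gr (lp Y pr δ v) b (U l) ∧
        Gr (lp Y pr δ v) b (fun x => (U l x)⁻¹) := by
      intro l
      obtain ⟨i, hi | hi⟩ := hU l
      · exact ⟨G i, (HolOn.continuousOn (hGh i)), hG0 i, fun x => by rw [hi], by rw [hi]; exact hgH i,
          by rw [hi]; exact gr1 i, by rw [hi]; exact gr2 i⟩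
      · exact ⟨fun y => 1 - G i y, continuousOn_const.sub (HolOn.continuousOn (hGh i)),
          fun y hy => one_sub_ne (hG1 i y hy), fun x => by rw [hi], by rw [hi]; exact hgS i,
          by rw [hi]; exact gr3 i, by rw [hi]; exact gr4 i⟩
    choose W hW1 hW2 hW3 hW4 hW5 hW6 using hW
    obtain ⟨a, ha, L, hL, hexp⟩ := hr W hW1 hW2
    refine ⟨a, ha, ?_⟩
    have hU0 : ∀ l x, U l x ≠ 0 := fun l x => by rw [hW3]; exact hW2 l _ x.2.1
    have hcont : Continuous (fun x => ∏ l, U l x ^ a l) := by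
      refine continuous_finsetProd _ fun l _ => ?_
      exact ((hW4 l).continuous hprc).zpow₀ _ fun x => Or.inl (hU0 l x)
    let u : C(Lc Y pr δ v, Cx) := ⟨fun x => ⟨∏ l, U l x ^ a l,
      Finset.prod_ne_zero_iff.2 fun l _ => zpow_ne_zero _ (hU0 l x)⟩, hcont.subtype_mk _⟩
    have e2 : (fun x => (u x).1⁻¹) = fun x => ∏ l, U l x ^ (-a l) := by
      funext x
      change (∏ l, U l x ^ a l)⁻¹ = _
      rw [← Finset.prod_inv_distrib]
      refine Finset.prod_congr rfl fun i _ => ?_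
      rw [zpow_neg]
    intro t ht
    refine hCo _ (lp Y pr δ v) b hrd u ?_ ?_ ?_ y₀ ?_ t ht
    · exact Hl.prod Finset.univ fun l _ => (hW4 l).zpow (hU0 l) (a l)
    · exact Gr.prod Finset.univ fun l _ => (hW5 l).zpow (hW6 l) (a l)
    · rw [e2]
      exact Gr.prod _ fun l _ => (hW5 l).zpow (hW6 l) _
    · intro q
      rw [dl_of_log u (fun x => L x.1.2) (cont_snd hL) (fun x => ?_) q, sub_self]
      rw [hexp _ x.2.1]
      change _ = ∏ l, U l x ^ a l
      exact Finset.prod_congr rfl fun l _ => by rw [hW3]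

end Pool.Agent.Y225.Gor
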