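import Pool.Agent.Y225.Gor.Defs

/-!
# Closure properties of `Hl` and `Gr`, translations, logarithms
-/

set_option autoImplicit false

open Metric Set Topology

namespace Pool.Agent.Y225.Gor

open H113G Pool.Agent.W481

section Hl

variable {Γ : Type} [TopologicalSpace Γ] {pr : Γ → ℂ}

theorem Hl.const (c : ℂ) : Hl pr (fun _ => c) := fun _ =>
  ⟨fun _ => c, analyticAt_const, Filter.Eventually.of_forall fun _ => rfl⟩

theorem Hl.add {F G : Γ → ℂ} (hF : Hl pr F) (hG : Hl pr G) : Hl pr (fun x => F x + G x) := by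
  intro x
  obtain ⟨f, hf, h1⟩ := hF x
  obtain ⟨g, hg, h2⟩ := hG x
  refine ⟨fun s => f s + g s, hf.add hg, ?_⟩
  filter_upwards [h1, h2] with y hy1 hy2
  rw [hy1, hy2]

theorem Hl.sub {F G : Γ → ℂ} (hF : Hl pr F) (hG : Hl pr G) : Hl pr (fun x => F x - G x) := by
  intro x
  obtain ⟨f, hf, h1⟩ := hF x
  obtain ⟨g, hg, h2⟩ := hG x
  refine ⟨fun s => f s - g s, hf.sub hg, ?_⟩
  filter_upwards [h1, h2] with y hy1 hy2
  rw [hy1, hy2]

theorem Hl.mul {F G : Γ → ℂ} (hF : Hl pr F) (hG : Hl pr G) : Hl pr (fun x => F x * G x) := by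
  intro x
  obtain ⟨f, hf, h1⟩ := hF x
  obtain ⟨g, hg, h2⟩ := hG x
  refine ⟨fun s => f s * g s, hf.mul hg, ?_⟩
  filter_upwards [h1, h2] with y hy1 hy2
  rw [hy1, hy2]

theorem Hl.inv {F : Γ → ℂ} (hF : Hl pr F) (h0 : ∀ x, F x ≠ 0) : Hl pr (fun x => (F x)⁻¹) := by
  intro x
  obtain ⟨f, hf, h1⟩ := hF x
  refine ⟨fun s => (f s)⁻¹, hf.inv ?_, ?_⟩
  · rw [← h1.self_of_nhds]
    exact h0 x
  · filter_upwards [h1] with y hy
    rw [hy]

theorem Hl.pow {F : Γ → ℂ} (hF : Hl pr F) (n : ℕ) : Hl pr (fun x => F x ^ n) := by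
  intro x
  obtain ⟨f, hf, h1⟩ := hF x
  refine ⟨fun s => f s ^ n, hf.pow n, ?_⟩
  filter_upwards [h1] with y hy
  rw [hy]

theorem Hl.zpow {F : Γ → ℂ} (hF : Hl pr F) (h0 : ∀ x, F x ≠ 0) (n : ℤ) :
    Hl pr (fun x => F x ^ n) := by
  cases n with
  | ofNat n => simpa using hF.pow n
  | negSucc n =>
    simp only [zpow_negSucc]
    exact (hF.pow (n + 1)).inv fun x => pow_ne_zero _ (h0 x)

theorem Hl.prod {ι : Type*} (s : Finset ι) {F : ι → Γ → ℂ} (hF : ∀ i ∈ s, Hl pr (F i)) :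
    Hl pr (fun x => ∏ i ∈ s, F i x) := by
  classical
  induction s using Finset.induction_on with
  | empty => simpa using Hl.const (pr := pr) 1
  | insert a s ha ih =>
    simp only [Finset.prod_insert ha]
    exact (hF a (Finset.mem_insert_self _ _)).mul
      (ih fun i hi => hF i (Finset.mem_insert_of_mem hi))

theorem Hl.continuous {F : Γ → ℂ} (hF : Hl pr F) (hpr : Continuous pr) : Continuous F := by
  rw [continuous_iff_continuousAt]
  intro x
  obtain ⟨f, hf, h1⟩ := hF x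
  have h2 : ContinuousAt (fun y => f (pr y)) x := hf.continuousAt.comp hpr.continuousAt
  exact h2.congr (h1.mono fun y hy => hy.symm)

end Hl

section Gr

variable {Γ : Type} {pr : Γ → ℂ} {b : Polynomial ℂ}

theorem Gr.mul {F G : Γ → ℂ} (hF : Gr pr b F) (hG : Gr pr b G) : Gr pr b (fun x => F x * G x) := by
  obtain ⟨C, K, K', h⟩ := hF
  obtain ⟨C₂, K₂, K₂', h₂⟩ := hG
  refine ⟨C * C₂, K + K₂, K' + K₂', fun x => ?_⟩
  have e1 : ‖F x * G x‖ * ‖b.eval (pr x)‖ ^ (K + K₂) =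
      (‖F x‖ * ‖b.eval (pr x)‖ ^ K) * (‖G x‖ * ‖b.eval (pr x)‖ ^ K₂) := by
    rw [norm_mul, pow_add]; ring
  have e2 : C * C₂ * (1 + ‖pr x‖) ^ (K' + K₂') =
      (C * (1 + ‖pr x‖) ^ K') * (C₂ * (1 + ‖pr x‖) ^ K₂') := by
    rw [pow_add]; ring
  rw [e1, e2]
  exact mul_le_mul (h x) (h₂ x) (by positivity) (le_trans (by positivity) (h x))

theorem Gr.one : Gr pr b (fun _ => 1) := ⟨1, 0, 0, fun x => by simp⟩

theorem Gr.pow {F : Γ → ℂ} (hF : Gr pr b F) (n : ℕ) : Gr pr b (fun x => F x ^ n) := by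
  induction n with
  | zero => simpa using Gr.one
  | succ n ih =>
    simp only [pow_succ]
    exact ih.mul hF

theorem Gr.zpow {F : Γ → ℂ} (hF : Gr pr b F) (hF' : Gr pr b (fun x => (F x)⁻¹)) (n : ℤ) :
    Gr pr b (fun x => F x ^ n) := by
  cases n with
  | ofNat n => simpa using hF.pow n
  | negSucc n =>
    have := hF'.pow (n + 1)
    simpa only [zpow_negSucc, inv_pow] using this

theorem Gr.prod {ι : Type*} (s : Finset ι) {F : ι → Γ → ℂ} (hF : ∀ i ∈ s, Gr pr b (F i)) :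
    Gr pr b (fun x => ∏ i ∈ s, F i x) := by
  classical
  induction s using Finset.induction_on with
  | empty => simpa using Gr.one (pr := pr) (b := b)
  | insert a s ha ih =>
    simp only [Finset.prod_insert ha]
    exact (hF a (Finset.mem_insert_self _ _)).mul
      (ih fun i hi => hF i (Finset.mem_insert_of_mem hi))

end Gr

section shift

variable {k : ℕ}

/-- the polynomial `z ↦ D (z + a)` -/
noncomputable def shift (a : Fin k → ℂ) (D : MvPolynomial (Fin k) ℂ) : MvPolynomial (Fin k) ℂ :=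
  MvPolynomial.aeval (fun i => MvPolynomial.X i + MvPolynomial.C (a i)) D

theorem eval_shift (a z : Fin k → ℂ) (D : MvPolynomial (Fin k) ℂ) :
    MvPolynomial.eval z (shift a D) = MvPolynomial.eval (z + a) D := by
  rw [shift, MvPolynomial.aeval_def, MvPolynomial.eval₂_eq_eval_map]
  rw [← MvPolynomial.eval₂_eq_eval_map]
  induction D using MvPolynomial.induction_on with
  | C c => simp
  | add p q hp hq => simp only [MvPolynomial.eval₂_add, map_add, hp, hq]
  | mul_X p i hp =>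
    simp only [MvPolynomial.eval₂_mul, map_mul, hp, MvPolynomial.eval₂_X, map_add,
      MvPolynomial.eval_X, MvPolynomial.eval_C, Pi.add_apply]

theorem exists_eval_ne_zero {D : MvPolynomial (Fin k) ℂ} (hD : D ≠ 0) :
    ∃ z, MvPolynomial.eval z D ≠ 0 := by
  by_contra h
  push Not at h
  exact hD (MvPolynomial.funext fun x => by rw [h x, map_zero])

theorem shift_ne_zero {a : Fin k → ℂ} {D : MvPolynomial (Fin k) ℂ} (hD : D ≠ 0) :
    shift a D ≠ 0 := by
  obtain ⟨z, hz⟩ := exists_eval_ne_zero hD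
  intro h
  have h1 := eval_shift a (z - a) D
  rw [h, map_zero, sub_add_cancel] at h1
  exact hz h1.symm

theorem PCov.translate {m : ℕ} {Y : Set (Fin m → ℂ)} {pr : (Fin m → ℂ) → (Fin k → ℂ)}
    {δ : MvPolynomial (Fin k) ℂ} {e : ℕ} (h : PCov Y pr δ e) (a : Fin k → ℂ) :
    PCov Y (fun y => pr y - a) (shift a δ) e := by
  refine ⟨h.diff.sub_const a, shift_ne_zero h.ne, ?_, ?_⟩
  · intro D hD
    obtain ⟨y, hy, hy'⟩ := h.dominant (shift (-a) D) (shift_ne_zero hD)
    rw [eval_shift] at hy'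
    exact ⟨y, hy, by simpa [sub_eq_add_neg] using hy'⟩
  · intro z hz
    rw [eval_shift] at hz
    obtain ⟨r, hr, s, hs, hs'⟩ := h.sections (z + a) hz
    have hmem : ∀ z' ∈ ball z r, z' + a ∈ ball (z + a) r := by
      intro z' hz'
      rw [mem_ball, dist_add_right]
      exact hz'
    refine ⟨r, hr, fun i z' => s i (z' + a), fun i => ?_, fun z' hz' => ?_⟩
    · exact (hs i).comp (differentiableOn_id.add_const a) hmem
    · obtain ⟨h1, h2, h3⟩ := hs' (z' + a) (hmem z' hz')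
      refine ⟨by rw [eval_shift]; exact h1, h2, ?_⟩
      rw [← h3]
      ext y
      simp only [mem_ofPred_eq, sub_eq_iff_eq_add]

end shift

/-- the increments of a function with a global logarithm -/
theorem dl_of_log {T : Type} [TopologicalSpace T] (u : C(T, Cx)) (L : T → ℂ) (hL : Continuous L)
    (h : ∀ t, Complex.exp (L t) = (u t).1) {x y : T} (q : PH x y) : dl u q = L y - L x := by
  induction q using Path.Homotopic.Quotient.ind with | mk γ
  rw [dl_mk u γ ⟨fun t => L (γ t), by fun_prop⟩ (fun t => h _)]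
  simp

theorem HolOn.continuousOn {m : ℕ} {Y : Set (Fin m → ℂ)} {u : (Fin m → ℂ) → ℂ} (h : HolOn Y u) :
    ContinuousOn u Y := by
  intro p hp
  obtain ⟨U, hU, hpU, f, hf, hfu⟩ := h p hp
  have h1 : ContinuousWithinAt f Y p := ((hf p hpU).differentiableAt
    (hU.mem_nhds hpU)).continuousAt.continuousWithinAt
  refine h1.congr_of_eventuallyEq ?_ (hfu p hp hpU).symm
  filter_upwards [self_mem_nhdsWithin, nhdsWithin_le_nhds (hU.mem_nhds hpU)] with y hy hyU
  exact (hfu y hy hyU).symm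

theorem HolOn.sub {m : ℕ} {Y : Set (Fin m → ℂ)} {u v : (Fin m → ℂ) → ℂ} (hu : HolOn Y u)
    (hv : HolOn Y v) : HolOn Y (fun y => u y - v y) := by
  intro p hp
  obtain ⟨U, hU, hpU, f, hf, hfu⟩ := hu p hp
  obtain ⟨V, hV, hpV, g, hg, hgv⟩ := hv p hp
  refine ⟨U ∩ V, hU.inter hV, ⟨hpU, hpV⟩, fun y => f y - g y,
    (hf.mono inter_subset_left).sub (hg.mono inter_subset_right), fun y hy hyU => ?_⟩
  change f y - g y = _
  rw [hfu y hy hyU.1, hgv y hy hyU.2]

theorem HolOn.of_diff {m : ℕ} {Y : Set (Fin m → ℂ)} {u : (Fin m → ℂ) → ℂ}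
    (hu : Differentiable ℂ u) : HolOn Y u := fun p _ =>
  ⟨univ, isOpen_univ, mem_univ p, u, hu.differentiableOn, fun _ _ _ => rfl⟩

theorem diff_eval {k : ℕ} (P : MvPolynomial (Fin k) ℂ) :
    Differentiable ℂ (fun x : Fin k → ℂ => MvPolynomial.eval x P) := fun x =>
  ((AnalyticOnNhd.eval_mvPolynomial P) x (mem_univ _)).differentiableAt

/-- finitely many holomorphic functions, none of them identically zero, have a common point
where they are different from zero -/
theorem exists_all_ne (hI : S_IDENT) {m : ℕ} {Y : Set (Fin m → ℂ)} (hc : HasCharts Y)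
    (hY : IsPreconnected Y) {ι : Type*} (s : Finset ι) (φ : ι → (Fin m → ℂ) → ℂ)
    (hφ : ∀ i ∈ s, HolOn Y (φ i)) (hne : ∀ i ∈ s, ∃ y ∈ Y, φ i y ≠ 0) :
    ∀ V : Set (Fin m → ℂ), IsOpen V → (Y ∩ V).Nonempty → ∃ y ∈ Y ∩ V, ∀ i ∈ s, φ i y ≠ 0 := by
  classical
  induction s using Finset.induction_on with
  | empty =>
    intro V _ ⟨y, hy⟩
    exact ⟨y, hy, fun i hi => absurd hi (Finset.notMem_empty i)⟩
  | insert a s ha ih =>
    intro V hV hVn
    have h1 : ∃ y ∈ Y ∩ V, φ a y ≠ 0 := by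
      by_contra h
      push Not at h
      obtain ⟨y, hy, hy'⟩ := hne a (Finset.mem_insert_self _ _)
      exact hy' (hI m Y hc hY (φ a) (hφ a (Finset.mem_insert_self _ _)) V hV hVn h y hy)
    obtain ⟨y, hy, hya⟩ := h1
    have h2 : ∀ᶠ y' in 𝓝[Y] y, φ a y' ≠ 0 :=
      ((HolOn.continuousOn (hφ a (Finset.mem_insert_self _ _))) y hy.1).eventually_ne hya
    rw [eventually_nhdsWithin_iff] at h2
    obtain ⟨W, hW, hWo, hyW⟩ := _root_.eventually_nhds_iff.1 h2
    obtain ⟨y', hy', h3⟩ := ih (fun i hi => hφ i (Finset.mem_insert_of_mem hi))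
      (fun i hi => hne i (Finset.mem_insert_of_mem hi)) (V ∩ W) (hV.inter hWo)
      ⟨y, hy.1, hy.2, hyW⟩
    refine ⟨y', ⟨hy'.1, hy'.2.1⟩, fun i hi => ?_⟩
    rcases Finset.mem_insert.1 hi with rfl | hi
    · exact hW y' hy'.2.2 hy'.1
    · exact h3 i hi

end Pool.Agent.Y225.Gor
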