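import Pool.Agent.Y225.Gor.Tang
import Pool.Agent.TH813.CountF

/-!
# Proof of `S_COUNT`
-/

set_option autoImplicit false

open Metric Set Topology

namespace Pool.Agent.Y225.Gor

open H113G Pool.Agent.W481 Pool.Agent.W327.F4

variable {Γ : Type} [TopologicalSpace Γ] {pr : Γ → ℂ}

/-- a holomorphic unit as a continuous map to `ℂ^*` -/
noncomputable def toCx (hpr : IsLocalHomeomorph pr) (F : Γ → ℂ) (hF : Hl pr F)
    (h0 : ∀ x, F x ≠ 0) : C(Γ, Cx) :=
  ⟨fun x => ⟨F x, h0 x⟩, (hF.continuous hpr.continuous).subtype_mk _⟩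

theorem dl_prod_zpow {κ : Type} [Fintype κ] (E : κ → C(Γ, Cx)) (A : κ → ℤ) (u : C(Γ, Cx))
    (hu : ∀ x, (u x).1 = ∏ k, (E k x).1 ^ A k) {x y : Γ} (q : PH x y) :
    dl u q = ∑ k, A k * dl (E k) q := by
  induction q using Path.Homotopic.Quotient.ind with | mk γ
  have hL := fun k => exists_log (E k) γ
  choose L hL using hL
  have h1 : ∀ k, dl (E k) (.mk γ) = L k 1 - L k 0 := fun k => dl_mk (E k) γ (L k) (hL k)
  rw [dl_mk u γ ⟨fun t => ∑ k, (A k : ℂ) * L k t, by fun_prop⟩ (fun t => by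
    simp only [ContinuousMap.coe_mk]
    rw [Complex.exp_sum, hu]
    refine Finset.prod_congr rfl fun k _ => ?_
    rw [Complex.exp_int_mul, hL])]
  simp only [ContinuousMap.coe_mk, h1, mul_sub, Finset.sum_sub_distrib]

/-- the identity between the logarithmic derivatives of `g` and `1 - g` -/
theorem rel_E (hpr : IsLocalHomeomorph pr) {g : Γ → ℂ} (hg : Hl pr g) (h0 : ∀ x, g x ≠ 0)
    (h1 : ∀ x, 1 - g x ≠ 0) (x : Γ) :
    LD pr (fun y => 1 - g y) x * (1 - g x) = -(LD pr g x * g x) ∧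
    LD pr (fun y => 1 - g y) x * der pr (LD pr g) x -
      LD pr g x * der pr (LD pr fun y => 1 - g y) x -
      LD pr g x * LD pr (fun y => 1 - g y) x * (LD pr (fun y => 1 - g y) x - LD pr g x) = 0 := by
  set h : Γ → ℂ := fun y => 1 - g y with hh
  have hhH : Hl pr h := (Hl.const 1).sub hg
  have e1 : ∀ y, der pr g y = LD pr g y * g y := fun y => (div_mul_cancel₀ _ (h0 y)).symm
  have e2 : ∀ y, der pr h y = LD pr h y * h y := fun y => (div_mul_cancel₀ _ (h1 y)).symm
  have e3 : ∀ y, der pr h y = -der pr g y := by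
    intro y
    rw [hh, der_sub hpr (Hl.const 1) hg, der_const hpr, zero_sub]
  have hX : Hl pr (LD pr g) := LD_Hl hpr hg h0
  have hY : Hl pr (LD pr h) := LD_Hl hpr hhH h1
  have f1 : LD pr h x * (1 - g x) = -(LD pr g x * g x) := by
    rw [← e1, ← e3, e2]
  have e4 : der pr (der pr g) x = der pr (LD pr g) x * g x + LD pr g x * der pr g x := by
    have : der pr g = fun y => LD pr g y * g y := funext e1
    conv_lhs => rw [this]
    exact der_mul hpr hX hg x
  have e5 : der pr (der pr h) x = der pr (LD pr h) x * h x + LD pr h x * der pr h x := by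
    have : der pr h = fun y => LD pr h y * h y := funext e2
    conv_lhs => rw [this]
    exact der_mul hpr hY hhH x
  have e6 : der pr (der pr h) x = -der pr (der pr g) x := by
    have : der pr h = fun y => 0 - der pr g y := funext fun y => by rw [e3]; ring
    conv_lhs => rw [this]
    rw [der_sub hpr (Hl.const 0) (hg.der hpr), der_const hpr, zero_sub]
  have hhx : h x = 1 - g x := rfl
  have f2 : (der pr (LD pr h) x + LD pr h x ^ 2) * (1 - g x) =
      -((der pr (LD pr g) x + LD pr g x ^ 2) * g x) := by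
    rw [e4, e5, e1, e2, hhx] at e6
    linear_combination e6
  refine ⟨f1, ?_⟩
  generalize LD pr h x = Y at *
  generalize LD pr g x = X at *
  generalize der pr (LD pr h) x = Y' at *
  generalize der pr (LD pr g) x = X' at *
  generalize g x = t at *
  linear_combination (X' + X ^ 2 - (Y' + Y ^ 2)) * (-1 : ℂ) * (-1 : ℂ) * f1 + (Y - X) * f2

/-- a tangent vector of the cubic system at a solution vanishes in the first coordinates -/
theorem mu_zero (hpr : IsLocalHomeomorph pr) {y₀ : Γ} {g : Γ → ℂ} (hg : Hl pr g)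
    (h0 : ∀ x, g x ≠ 0) (h1 : ∀ x, 1 - g x ≠ 0) {t₀ : Γ} (ht₀ : Joined y₀ t₀) (hgt : g t₀ ≠ g y₀)
    {κ : Type} [Fintype κ] (e : κ → Γ → ℂ) (he : ∀ k, Hl pr (e k)) (he0 : ∀ k x, e k x ≠ 0)
    (hind : ∀ A : κ → ℤ, (∀ q : PH y₀ y₀, ∑ k, A k * dl (toCx hpr (e k) (he k) (he0 k)) q = 0) →
      A = 0) (μ ν : κ → ℂ)
    (hdE : ∀ x, Joined y₀ x →
      (∑ k, ν k * LD pr (e k) x) * der pr (LD pr g) x +
      LD pr (fun y => 1 - g y) x * (∑ k, μ k * der pr (LD pr (e k)) x) -
      (∑ k, μ k * LD pr (e k) x) * der pr (LD pr fun y => 1 - g y) x -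
      LD pr g x * (∑ k, ν k * der pr (LD pr (e k)) x) -
      (∑ k, μ k * LD pr (e k) x) * LD pr (fun y => 1 - g y) x ^ 2 +
      2 * (∑ k, μ k * LD pr (e k) x) * LD pr g x * LD pr (fun y => 1 - g y) x -
      2 * LD pr g x * LD pr (fun y => 1 - g y) x * (∑ k, ν k * LD pr (e k) x) +
      LD pr g x ^ 2 * (∑ k, ν k * LD pr (e k) x) = 0) : μ = 0 := by
  classical
  set h : Γ → ℂ := fun y => 1 - g y with hh
  have hhH : Hl pr h := (Hl.const 1).sub hg
  have hX : Hl pr (LD pr g) := LD_Hl hpr hg h0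
  have hY : Hl pr (LD pr h) := LD_Hl hpr hhH h1
  have hw : ∀ k, Hl pr (LD pr (e k)) := fun k => LD_Hl hpr (he k) (he0 k)
  set ξ : Γ → ℂ := fun x => ∑ k, μ k * LD pr (e k) x with hξ
  set η : Γ → ℂ := fun x => ∑ k, ν k * LD pr (e k) x with hη
  have hlin : ∀ (c : κ → ℂ) x, der pr (fun x => ∑ k, c k * LD pr (e k) x) x =
      ∑ k, c k * der pr (LD pr (e k)) x ∧ Hl pr (fun x => ∑ k, c k * LD pr (e k) x) := by
    intro c x
    obtain ⟨a1, a2⟩ := der_sum hpr Finset.univ (F := fun k x => c k * LD pr (e k) x)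
      (fun k _ => (Hl.const (c k)).mul (hw k)) x
    refine ⟨a1.trans (Finset.sum_congr rfl fun k _ => ?_), a2⟩
    rw [der_mul hpr (Hl.const (c k)) (hw k), der_const hpr, zero_mul, zero_add]
  have hξH : Hl pr ξ := (hlin μ y₀).2
  have hηH : Hl pr η := (hlin ν y₀).2
  set N : Γ → ℂ := fun x => ξ x * LD pr h x - η x * LD pr g x with hN
  set D : Γ → ℂ := fun x => LD pr h x * (LD pr h x - LD pr g x) with hD
  have hNH : Hl pr N := (hξH.mul hY).sub (hηH.mul hX)
  have hDH : Hl pr D := hY.mul (hY.sub hX)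
  -- a point where `D` is not zero
  obtain ⟨y₁, hy₁, hgy⟩ : ∃ y₁, Joined y₀ y₁ ∧ der pr g y₁ ≠ 0 := by
    by_contra hcon
    push Not at hcon
    exact hgt (const_of_der hpr hg hcon ht₀)
  have hgy0 := h0 y₁
  have hgy1 := h1 y₁
  have eX : LD pr g y₁ = der pr g y₁ / g y₁ := rfl
  have eY : LD pr h y₁ = -(der pr g y₁) / (1 - g y₁) := by
    rw [LD, hh, der_sub hpr (Hl.const 1) hg, der_const hpr, zero_sub]
  have hD1 : D y₁ ≠ 0 := by
    simp only [hD]
    rw [eX, eY]
    have : -(der pr g y₁) / (1 - g y₁) * (-(der pr g y₁) / (1 - g y₁) - der pr g y₁ / g y₁) =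
        der pr g y₁ ^ 2 / (g y₁ * (1 - g y₁) ^ 2) := by
      field_simp
      ring
    rw [this]
    exact div_ne_zero (pow_ne_zero 2 hgy) (mul_ne_zero hgy0 (pow_ne_zero 2 hgy1))
  have hrel : ∀ x, Joined y₁ x → der pr N x * D x - N x * der pr D x =
      (∑ k, μ k * LD pr (fun x => (toCx hpr (e k) (he k) (he0 k) x).1) x) * D x ^ 2 := by
    intro x hx
    have hx0 : Joined y₀ x := hy₁.trans hx
    have d1 : der pr N x = (∑ k, μ k * der pr (LD pr (e k)) x) * LD pr h x +
        ξ x * der pr (LD pr h) x - ((∑ k, ν k * der pr (LD pr (e k)) x) * LD pr g x +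
        η x * der pr (LD pr g) x) := by
      rw [hN, der_sub hpr (hξH.mul hY) (hηH.mul hX), der_mul hpr hξH hY, der_mul hpr hηH hX,
        (hlin μ x).1, (hlin ν x).1]
    have d2 : der pr D x = der pr (LD pr h) x * (LD pr h x - LD pr g x) +
        LD pr h x * (der pr (LD pr h) x - der pr (LD pr g) x) := by
      rw [hD, der_mul hpr hY (hY.sub hX), der_sub hpr hY hX]
    have hE := (rel_E hpr hg h0 h1 x).2
    have hd := hdE x hx0
    have hsum : (∑ k, μ k * LD pr (fun x => (toCx hpr (e k) (he k) (he0 k) x).1) x) = ξ x := rfl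
    rw [d1, d2, hsum]
    simp only [hN, hD]
    change η x * der pr (LD pr g) x +
      LD pr h x * (∑ k, μ k * der pr (LD pr (e k)) x) -
      ξ x * der pr (LD pr h) x -
      LD pr g x * (∑ k, ν k * der pr (LD pr (e k)) x) -
      ξ x * LD pr h x ^ 2 + 2 * ξ x * LD pr g x * LD pr h x -
      2 * LD pr g x * LD pr h x * η x + LD pr g x ^ 2 * η x = 0 at hd
    generalize ξ x = a1 at *
    generalize η x = a2 at *
    generalize (∑ k, μ k * der pr (LD pr (e k)) x) = a3 at *
    generalize (∑ k, ν k * der pr (LD pr (e k)) x) = a4 at *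
    change LD pr h x * der pr (LD pr g) x - LD pr g x * der pr (LD pr h) x -
      LD pr g x * LD pr h x * (LD pr h x - LD pr g x) = 0 at hE
    generalize LD pr h x = Y at *
    generalize LD pr g x = X at *
    generalize der pr (LD pr h) x = Y' at *
    generalize der pr (LD pr g) x = X' at *
    linear_combination (Y * (Y - X)) * hd + (a1 * Y - 2 * a2 * Y + a2 * X) * hE
  -- the periods
  have hper1 : ∀ q : PH y₁ y₁, ∑ k, μ k * dl (toCx hpr (e k) (he k) (he0 k)) q = 0 :=
    tang hpr (fun k => toCx hpr (e k) (he k) (he0 k)) he hNH hDH hD1 μ hrel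
  have hper : ∀ q : PH y₀ y₀, ∑ k, μ k * dl (toCx hpr (e k) (he k) (he0 k)) q = 0 := by
    intro q
    obtain ⟨γ⟩ := hy₁
    have h2 := hper1 ((Path.Homotopic.Quotient.mk γ).symm.trans (q.trans (.mk γ)))
    rw [← h2]
    refine Finset.sum_congr rfl fun k _ => ?_
    rw [dl_trans, dl_trans, dl_symm]
    ring
  have hint : ∀ k (q : PH y₀ y₀), ∃ n : ℤ,
      dl (toCx hpr (e k) (he k) (he0 k)) q = n * (2 * Real.pi * Complex.I) := by
    intro k q
    have h2 := exp_dl (toCx hpr (e k) (he k) (he0 k)) q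
    rw [div_self (toCx hpr (e k) (he k) (he0 k) y₀).2] at h2
    exact Complex.exp_eq_one_iff.1 h2
  choose n hn using hint
  have hper' : ∀ q : PH y₀ y₀, ∑ k, μ k * (n k q : ℂ) = 0 := by
    intro q
    have h2 := hper q
    simp only [hn] at h2
    have h3 : (∑ k, μ k * (n k q : ℂ)) * (2 * Real.pi * Complex.I) = 0 := by
      rw [Finset.sum_mul, ← h2]
      exact Finset.sum_congr rfl fun k _ => by ring
    exact (mul_eq_zero.1 h3).resolve_right Complex.two_pi_I_ne_zero
  by_contra hμ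
  obtain ⟨k₀, hk₀⟩ : ∃ k₀, μ k₀ ≠ 0 := by
    by_contra hcon
    push Not at hcon
    exact hμ (funext hcon)
  obtain ⟨f, hf⟩ := Module.Projective.exists_dual_ne_zero ℚ hk₀
  set c : κ → ℚ := fun k => f (μ k) with hc
  have hcper : ∀ q : PH y₀ y₀, ∑ k, c k * (n k q : ℚ) = 0 := by
    intro q
    have h2 : f (∑ k, μ k * (n k q : ℂ)) = 0 := by rw [hper' q, map_zero]
    rw [map_sum] at h2
    rw [← h2]
    refine Finset.sum_congr rfl fun k _ => ?_
    have : μ k * (n k q : ℂ) = (n k q) • μ k := by rw [zsmul_eq_mul, mul_comm]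
    rw [this, map_zsmul, zsmul_eq_mul, mul_comm]
  set Q : ℕ := ∏ k, (c k).den with hQ
  have hQ0 : (Q : ℚ) ≠ 0 := by
    rw [hQ, Nat.cast_ne_zero]
    exact Finset.prod_ne_zero_iff.2 fun k _ => (c k).den_ne_zero
  have hA : ∀ k, ∃ A : ℤ, (A : ℚ) = Q * c k := by
    intro k
    refine ⟨(c k).num * ∏ j ∈ Finset.univ.erase k, ((c j).den : ℤ), ?_⟩
    have h2 : (Q : ℚ) = (c k).den * ∏ j ∈ Finset.univ.erase k, ((c j).den : ℚ) := by
      rw [hQ, Nat.cast_prod]
      exact (Finset.mul_prod_erase Finset.univ (fun j => ((c j).den : ℚ)) (Finset.mem_univ k)).symm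
    have h3 : ((c k).den : ℚ) * c k = (c k).num := by
      rw [mul_comm]; exact Rat.mul_den_eq_num (c k)
    rw [h2]
    push_cast
    rw [← h3]
    ring
  choose A hA using hA
  have hA0 := hind A (fun q => by
    have h2 : ∑ k, (A k : ℚ) * (n k q : ℚ) = 0 := by
      have h3 := hcper q
      have : ∑ k, (A k : ℚ) * (n k q : ℚ) = Q * ∑ k, c k * (n k q : ℚ) := by
        rw [Finset.mul_sum]
        exact Finset.sum_congr rfl fun k _ => by rw [hA]; ring
      rw [this, h3, mul_zero]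
    have h3 : ∑ k, A k * n k q = 0 := by exact_mod_cast h2
    have h4 : ∑ k, (A k : ℂ) * (n k q : ℂ) = 0 := by exact_mod_cast h3
    simp only [hn]
    have : ∑ k, (A k : ℂ) * ((n k q : ℂ) * (2 * Real.pi * Complex.I)) =
        (∑ k, (A k : ℂ) * (n k q : ℂ)) * (2 * Real.pi * Complex.I) := by
      rw [Finset.sum_mul]
      exact Finset.sum_congr rfl fun k _ => by ring
    rw [this, h4, zero_mul])
  have h2 := hA k₀
  rw [hA0] at h2
  simp only [Pi.zero_apply, Int.cast_zero] at h2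
  rcases mul_eq_zero.1 h2.symm with h3 | h3
  · exact hQ0 h3
  · exact hf h3

end Pool.Agent.Y225.Gor
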