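import Pool.Agent.Y225.Gor.Const

/-!
# Derivatives of holomorphic functions on a Riemann domain over the plane
-/

set_option autoImplicit false

open Metric Set Topology

namespace Pool.Agent.Y225.Gor

open H113G Pool.Agent.W481 Pool.Agent.W327.F4

variable {Γ : Type} [TopologicalSpace Γ] {pr : Γ → ℂ}

/-- `g` represents `F` near `x` -/
def Rep (pr : Γ → ℂ) (F : Γ → ℂ) (x : Γ) (g : ℂ → ℂ) : Prop :=
  AnalyticAt ℂ g (pr x) ∧ ∀ᶠ y in 𝓝 x, F y = g (pr y)

theorem Rep.val {F : Γ → ℂ} {x : Γ} {g : ℂ → ℂ} (h : Rep pr F x g) : F x = g (pr x) :=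
  h.2.self_of_nhds

theorem Rep.eventually {F : Γ → ℂ} {x : Γ} {g : ℂ → ℂ} (h : Rep pr F x g)
    (hpr : IsLocalHomeomorph pr) : ∀ᶠ y in 𝓝 x, Rep pr F y g := by
  have h1 : ∀ᶠ y in 𝓝 x, AnalyticAt ℂ g (pr y) :=
    hpr.continuous.continuousAt.eventually h.1.eventually_analyticAt
  filter_upwards [h1, h.2.eventually_nhds] with y hy1 hy2
  exact ⟨hy1, hy2⟩

/-- two representations agree near the point -/
theorem Rep.unique {F : Γ → ℂ} {x : Γ} {g g' : ℂ → ℂ} (h : Rep pr F x g) (h' : Rep pr F x g')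
    (hpr : IsLocalHomeomorph pr) : ∀ᶠ s in 𝓝 (pr x), g s = g' s := by
  have h1 : ∀ᶠ y in 𝓝 x, g (pr y) = g' (pr y) := by
    filter_upwards [h.2, h'.2] with y h1 h2
    rw [← h1, h2]
  have h2 : Filter.map pr (𝓝 x) = 𝓝 (pr x) := hpr.map_nhds_eq x
  rw [← h2, Filter.eventually_map]
  exact h1

/-- the derivative with respect to `s = pr x` -/
noncomputable def der (pr : Γ → ℂ) (F : Γ → ℂ) (x : Γ) : ℂ := by
  classical
  exact if h : ∃ g, Rep pr F x g then deriv h.choose (pr x) else 0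

theorem der_eq (hpr : IsLocalHomeomorph pr) {F : Γ → ℂ} {x : Γ} {g : ℂ → ℂ} (h : Rep pr F x g) :
    der pr F x = deriv g (pr x) := by
  have hex : ∃ g, Rep pr F x g := ⟨g, h⟩
  rw [der, dif_pos hex]
  exact Filter.EventuallyEq.deriv_eq (hex.choose_spec.unique h hpr)

theorem Rep.der (hpr : IsLocalHomeomorph pr) {F : Γ → ℂ} {x : Γ} {g : ℂ → ℂ}
    (h : Rep pr F x g) : Rep pr (der pr F) x (deriv g) := by
  refine ⟨h.1.deriv, ?_⟩
  filter_upwards [h.eventually hpr] with y hy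
  exact der_eq hpr hy

theorem Hl.der (hpr : IsLocalHomeomorph pr) {F : Γ → ℂ} (h : Hl pr F) : Hl pr (der pr F) := by
  intro x
  obtain ⟨g, hg⟩ := h x
  exact ⟨_, Rep.der hpr (F := F) hg⟩

theorem Rep.mul {F G : Γ → ℂ} {x : Γ} {f g : ℂ → ℂ} (hF : Rep pr F x f) (hG : Rep pr G x g) :
    Rep pr (fun y => F y * G y) x (fun s => f s * g s) := by
  refine ⟨hF.1.mul hG.1, ?_⟩
  filter_upwards [hF.2, hG.2] with y h1 h2
  rw [h1, h2]

theorem Rep.add {F G : Γ → ℂ} {x : Γ} {f g : ℂ → ℂ} (hF : Rep pr F x f) (hG : Rep pr G x g) :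
    Rep pr (fun y => F y + G y) x (fun s => f s + g s) := by
  refine ⟨hF.1.add hG.1, ?_⟩
  filter_upwards [hF.2, hG.2] with y h1 h2
  rw [h1, h2]

theorem Rep.sub {F G : Γ → ℂ} {x : Γ} {f g : ℂ → ℂ} (hF : Rep pr F x f) (hG : Rep pr G x g) :
    Rep pr (fun y => F y - G y) x (fun s => f s - g s) := by
  refine ⟨hF.1.sub hG.1, ?_⟩
  filter_upwards [hF.2, hG.2] with y h1 h2
  rw [h1, h2]

theorem der_mul (hpr : IsLocalHomeomorph pr) {F G : Γ → ℂ} (hF : Hl pr F) (hG : Hl pr G) (x : Γ) :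
    der pr (fun y => F y * G y) x = der pr F x * G x + F x * der pr G x := by
  obtain ⟨f, hf⟩ := hF x
  obtain ⟨g, hg⟩ := hG x
  have hf' : Rep pr F x f := hf
  have hg' : Rep pr G x g := hg
  rw [der_eq hpr (hf'.mul hg'), der_eq hpr hf', der_eq hpr hg', hf'.val, hg'.val]
  exact deriv_mul hf.1.differentiableAt hg.1.differentiableAt

theorem der_add (hpr : IsLocalHomeomorph pr) {F G : Γ → ℂ} (hF : Hl pr F) (hG : Hl pr G) (x : Γ) :
    der pr (fun y => F y + G y) x = der pr F x + der pr G x := by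
  obtain ⟨f, hf⟩ := hF x
  obtain ⟨g, hg⟩ := hG x
  have hf' : Rep pr F x f := hf
  have hg' : Rep pr G x g := hg
  rw [der_eq hpr (hf'.add hg'), der_eq hpr hf', der_eq hpr hg']
  exact deriv_add hf.1.differentiableAt hg.1.differentiableAt

theorem der_sub (hpr : IsLocalHomeomorph pr) {F G : Γ → ℂ} (hF : Hl pr F) (hG : Hl pr G) (x : Γ) :
    der pr (fun y => F y - G y) x = der pr F x - der pr G x := by
  obtain ⟨f, hf⟩ := hF x
  obtain ⟨g, hg⟩ := hG x
  have hf' : Rep pr F x f := hf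
  have hg' : Rep pr G x g := hg
  rw [der_eq hpr (hf'.sub hg'), der_eq hpr hf', der_eq hpr hg']
  exact deriv_sub hf.1.differentiableAt hg.1.differentiableAt

theorem der_const (hpr : IsLocalHomeomorph pr) (c : ℂ) (x : Γ) :
    der pr (fun _ => c) x = 0 := by
  rw [der_eq hpr (g := fun _ => c) ⟨analyticAt_const, Filter.Eventually.of_forall fun _ => rfl⟩]
  exact deriv_const _ _

theorem der_congr (hpr : IsLocalHomeomorph pr) {F G : Γ → ℂ} (hF : Hl pr F) {x : Γ}
    (h : ∀ᶠ y in 𝓝 x, F y = G y) : der pr F x = der pr G x := by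
  obtain ⟨f, hf⟩ := hF x
  have hf' : Rep pr F x f := hf
  have hg' : Rep pr G x f := ⟨hf.1, by
    filter_upwards [h, hf.2] with y h1 h2
    rw [← h1, h2]⟩
  rw [der_eq hpr hf', der_eq hpr hg']

theorem der_sum (hpr : IsLocalHomeomorph pr) {ι : Type*} (s : Finset ι) {F : ι → Γ → ℂ}
    (hF : ∀ i ∈ s, Hl pr (F i)) (x : Γ) :
    der pr (fun y => ∑ i ∈ s, F i y) x = ∑ i ∈ s, der pr (F i) x ∧
      Hl pr (fun y => ∑ i ∈ s, F i y) := by
  classical
  induction s using Finset.induction_on with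
  | empty => simpa using ⟨der_const hpr 0 x, Hl.const (pr := pr) 0⟩
  | insert a s ha ih =>
    obtain ⟨h1, h2⟩ := ih fun i hi => hF i (Finset.mem_insert_of_mem hi)
    simp only [Finset.sum_insert ha]
    refine ⟨?_, (hF a (Finset.mem_insert_self _ _)).add h2⟩
    rw [der_add hpr (hF a (Finset.mem_insert_self _ _)) h2, h1]

/-- the points near `x` can be joined to `x` -/
theorem eventually_joined (hpr : IsLocalHomeomorph pr) (x : Γ) : ∀ᶠ y in 𝓝 x, Joined x y := by
  obtain ⟨K, σ, hg, hx⟩ := local_section hpr x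
  filter_upwards [(img_open hpr hg).mem_nhds hx] with y hy
  obtain ⟨γ, -⟩ := hg.exists_path hx.1 hy.1
  rw [hx.2, hy.2] at γ
  exact ⟨γ⟩

/-- a holomorphic function with derivative zero is constant on path components -/
theorem const_of_der (hpr : IsLocalHomeomorph pr) {F : Γ → ℂ} (hF : Hl pr F) {y₀ : Γ}
    (h : ∀ x, Joined y₀ x → der pr F x = 0) {t : Γ} (ht : Joined y₀ t) : F t = F y₀ := by
  obtain ⟨γ⟩ := ht
  have hj : ∀ τ, Joined y₀ (γ τ) := fun τ => by
    have := JoinedIn.joined (F := Set.univ) (x := y₀) (y := γ τ)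
    exact ⟨(γ.truncateOfLE (t₀ := 0) (t₁ := τ) τ.2.1).cast (by simp) (by simp)⟩
  have hloc : IsLocallyConstant (fun τ => F (γ τ)) := by
    rw [IsLocallyConstant.iff_eventually_eq]
    intro τ
    obtain ⟨f, hf⟩ := hF (γ τ)
    have hf' : Rep pr F (γ τ) f := hf
    have h1 : ∀ᶠ y in 𝓝 (γ τ), deriv f (pr y) = 0 := by
      filter_upwards [hf'.eventually hpr, eventually_joined hpr (γ τ)] with y hy1 hy2
      rw [← der_eq hpr hy1]
      exact h y ((hj τ).trans hy2)
    have h2 : ∀ᶠ s in 𝓝 (pr (γ τ)), deriv f s = 0 := by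
      rw [← hpr.map_nhds_eq, Filter.eventually_map]
      exact h1
    have h3 : ∀ᶠ s in 𝓝 (pr (γ τ)), f s = f (pr (γ τ)) := by
      obtain ⟨ε, hε, hball⟩ := Metric.eventually_nhds_iff_ball.1
        (h2.and hf.1.eventually_analyticAt)
      filter_upwards [ball_mem_nhds _ hε] with s hs
      exact (convex_ball (pr (γ τ)) ε).is_const_of_fderivWithin_eq_zero (𝕜 := ℂ)
        (fun z hz => (hball z hz).2.differentiableAt.differentiableWithinAt)
        (fun z hz => by
          rw [fderivWithin_eq_fderiv (isOpen_ball.uniqueDiffWithinAt hz)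
            (hball z hz).2.differentiableAt]
          ext
          simpa using (hball z hz).1) hs (mem_ball_self hε)
    have h4 : ∀ᶠ y in 𝓝 (γ τ), F y = F (γ τ) := by
      filter_upwards [hf.2, hpr.continuous.continuousAt.eventually h3] with y hy1 hy2
      rw [hy1, hy2, hf'.val]
    exact γ.continuous.continuousAt.eventually h4
  have h5 := hloc.apply_eq_of_preconnectedSpace 1 0
  simpa using h5

/-- logarithmic derivative -/
noncomputable def LD (pr : Γ → ℂ) (F : Γ → ℂ) (x : Γ) : ℂ := der pr F x / F x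

theorem LD_Hl (hpr : IsLocalHomeomorph pr) {F : Γ → ℂ} (hF : Hl pr F) (h0 : ∀ x, F x ≠ 0) :
    Hl pr (LD pr F) := by
  have h1 := (hF.der hpr).mul (hF.inv h0)
  have h2 : LD pr F = fun x => der pr F x * (F x)⁻¹ := funext fun x => div_eq_mul_inv _ _
  rw [h2]
  exact h1

theorem LD_mul (hpr : IsLocalHomeomorph pr) {F G : Γ → ℂ} (hF : Hl pr F) (hG : Hl pr G)
    (h0 : ∀ x, F x ≠ 0) (h1 : ∀ x, G x ≠ 0) (x : Γ) :
    LD pr (fun y => F y * G y) x = LD pr F x + LD pr G x := by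
  unfold LD
  rw [der_mul hpr hF hG]
  have := h0 x
  have := h1 x
  field_simp

theorem LD_one (hpr : IsLocalHomeomorph pr) (x : Γ) : LD pr (fun _ => 1) x = 0 := by
  unfold LD
  rw [der_const hpr, zero_div]

theorem LD_inv (hpr : IsLocalHomeomorph pr) {F : Γ → ℂ} (hF : Hl pr F)
    (h0 : ∀ x, F x ≠ 0) (x : Γ) : LD pr (fun y => (F y)⁻¹) x = -LD pr F x := by
  have h1 := LD_mul hpr hF (hF.inv h0) h0 (fun x => inv_ne_zero (h0 x)) x
  have h2 : (fun y => F y * (F y)⁻¹) = fun _ => 1 := funext fun y => mul_inv_cancel₀ (h0 y)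
  rw [h2, LD_one hpr] at h1
  linear_combination -h1

theorem LD_pow (hpr : IsLocalHomeomorph pr) {F : Γ → ℂ} (hF : Hl pr F)
    (h0 : ∀ x, F x ≠ 0) (n : ℕ) (x : Γ) : LD pr (fun y => F y ^ n) x = n * LD pr F x := by
  induction n with
  | zero => simpa using LD_one hpr x
  | succ n ih =>
    simp only [pow_succ]
    rw [LD_mul hpr (hF.pow n) hF (fun x => pow_ne_zero _ (h0 x)) h0, ih]
    push_cast
    ring

theorem LD_zpow (hpr : IsLocalHomeomorph pr) {F : Γ → ℂ} (hF : Hl pr F)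
    (h0 : ∀ x, F x ≠ 0) (n : ℤ) (x : Γ) : LD pr (fun y => F y ^ n) x = n * LD pr F x := by
  cases n with
  | ofNat n => simpa using LD_pow hpr hF h0 n x
  | negSucc n =>
    simp only [zpow_negSucc]
    rw [LD_inv hpr (hF.pow (n + 1)) (fun x => pow_ne_zero _ (h0 x)), LD_pow hpr hF h0]
    push_cast
    ring

theorem LD_prod (hpr : IsLocalHomeomorph pr) {ι : Type*} (s : Finset ι) {F : ι → Γ → ℂ}
    (hF : ∀ i, Hl pr (F i)) (h0 : ∀ i x, F i x ≠ 0) (a : ι → ℤ) (x : Γ) :
    LD pr (fun y => ∏ i ∈ s, F i y ^ a i) x = ∑ i ∈ s, a i * LD pr (F i) x := by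
  classical
  induction s using Finset.induction_on with
  | empty => simpa using LD_one hpr x
  | insert b s hb ih =>
    simp only [Finset.prod_insert hb, Finset.sum_insert hb]
    rw [LD_mul hpr ((hF b).zpow (h0 b) _) (Hl.prod s fun i _ => (hF i).zpow (h0 i) _)
      (fun x => zpow_ne_zero _ (h0 b x))
      (fun x => Finset.prod_ne_zero_iff.2 fun i _ => zpow_ne_zero _ (h0 i x)),
      LD_zpow hpr (hF b) (h0 b), ih]

/-- a function that is constant on a path component has derivative zero there -/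
theorem LD_of_const (hpr : IsLocalHomeomorph pr) {F : Γ → ℂ} (hF : Hl pr F) {y₀ : Γ}
    (h : ∀ x, Joined y₀ x → F x = F y₀) {x : Γ} (hx : Joined y₀ x) : LD pr F x = 0 := by
  unfold LD
  rw [der_congr hpr (G := fun _ => F y₀) hF, der_const hpr, zero_div]
  filter_upwards [eventually_joined hpr x] with y hy
  exact h y (hx.trans hy)

end Pool.Agent.Y225.Gor
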