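import Pool.Agent.Y225.Gor.Basic

/-!
# Finiteness of the rank of the group of homotopy classes of maps to `ℂ^*`
-/

set_option autoImplicit false

open Metric Set Topology

namespace Pool.Agent.Y225.Gor

open H113G Pool.Agent.W481

/-- the vanishing ideal -/
def VI {m : ℕ} (Y : Set (Fin m → ℂ)) : Ideal (MvPolynomial (Fin m) ℂ) where
  carrier := {P | ∀ y ∈ Y, MvPolynomial.eval y P = 0}
  add_mem' := by
    intro a b ha hb y hy
    rw [map_add, ha y hy, hb y hy, add_zero]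
  zero_mem' := by
    intro y _
    exact map_zero _
  smul_mem' := by
    intro c a ha y hy
    rw [smul_eq_mul, map_mul, ha y hy, mul_zero]

theorem mem_VI {m : ℕ} {Y : Set (Fin m → ℂ)} {P : MvPolynomial (Fin m) ℂ} :
    P ∈ VI Y ↔ ∀ y ∈ Y, MvPolynomial.eval y P = 0 := Iff.rfl

theorem VI_prime (hI : S_IDENT) {m : ℕ} {Y : Set (Fin m → ℂ)} (hc : HasCharts Y)
    (hY : IsConnected Y) : (VI Y).IsPrime := by
  constructor
  · intro h
    obtain ⟨y, hy⟩ := hY.nonempty
    have h1 : (1 : MvPolynomial (Fin m) ℂ) ∈ VI Y := by rw [h]; trivial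
    have h2 := h1 y hy
    rw [map_one] at h2
    exact one_ne_zero h2
  · intro P Q hPQ
    by_contra h
    push Not at h
    obtain ⟨hP, hQ⟩ := h
    rw [mem_VI] at hP hQ
    push Not at hP hQ
    obtain ⟨y, hy, hy'⟩ := exists_all_ne hI hc hY.isPreconnected (Finset.univ : Finset Bool)
      (fun i x => bif i then MvPolynomial.eval x P else MvPolynomial.eval x Q)
      (by
        intro i _
        cases i
        · exact HolOn.of_diff (diff_eval Q)
        · exact HolOn.of_diff (diff_eval P))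
      (by
        intro i _
        cases i
        · exact hQ
        · exact hP) univ isOpen_univ (by simpa using hY.nonempty)
    have h1 := hPQ y hy.1
    rw [map_mul] at h1
    rcases mul_eq_zero.1 h1 with h2 | h2
    · exact hy' true (Finset.mem_univ _) h2
    · exact hy' false (Finset.mem_univ _) h2

theorem exists_pcov (hA : S_ALG) (hP : S_PCOV) (hI : S_IDENT) {m : ℕ} {Y : Set (Fin m → ℂ)}
    (hY : IsAlg Y) (hc : HasCharts Y) (hcn : IsConnected Y) :
    ∃ (k : ℕ) (pr : (Fin m → ℂ) → (Fin k → ℂ)) (δ : MvPolynomial (Fin k) ℂ) (e : ℕ),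
      PCov Y pr δ e := by
  obtain ⟨k, p, Θ, f, Q, δ, hf, hδ, h1, h2, h3⟩ := hA m (VI Y) (VI_prime hI hc hcn)
  refine ⟨k, _, δ, _, hP m Y (VI Y) (fun P => mem_VI) ?_ k p Θ f Q δ hf hδ h1 h2 h3⟩
  intro x
  obtain ⟨S, hS⟩ := hY
  constructor
  · intro hx P hPI
    exact hPI x hx
  · intro hx
    rw [hS]
    intro P hPS
    refine hx P fun y hy => ?_
    rw [hS] at hy
    exact hy P hPS

/-- the pulled back line -/
theorem cont_snd {m k : ℕ} {Y : Set (Fin m → ℂ)} {pr : (Fin m → ℂ) → (Fin k → ℂ)}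
    {δ : MvPolynomial (Fin k) ℂ} {v : Fin k → ℂ} {g : (Fin m → ℂ) → ℂ} (hg : ContinuousOn g Y) :
    Continuous (fun w : Lc Y pr δ v => g w.1.2) := by
  have h1 : Continuous (fun w : Lc Y pr δ v => (⟨w.1.2, w.2.1⟩ : Y)) :=
    (continuous_snd.comp continuous_subtype_val).subtype_mk _
  exact (continuousOn_iff_continuous_domRestrict.1 hg).comp h1

theorem finiteRank_of_alg (hC : S_CHART) (hI : S_IDENT) (hE : S_EXT) (hA : S_ALG) (hP : S_PCOV)
    (hR : S_ROOT) (hCov : S_COV) (hRD : S_RD) (hF : S_FG) (hT : S_TRANS) {n : ℕ}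
    {X : Set (Fin n → ℂ)} (hX : IsAlg X) (hXs : IsSmooth X) (hXc : IsConnected X) :
    ∃ r, FiniteRank X r := by
  have hc := hC n X hXs
  obtain ⟨k, pr₀, δ₀, e, h₀⟩ := exists_pcov hA hP hI hX hc hXc
  obtain ⟨y, hy, hy'⟩ := h₀.dominant δ₀ h₀.ne
  have h := h₀.translate (pr₀ y)
  set pr : (Fin n → ℂ) → (Fin k → ℂ) := fun x => pr₀ x - pr₀ y with hpr
  set δ := shift (pr₀ y) δ₀ with hδ
  have hδ0 : MvPolynomial.eval (0 : Fin k → ℂ) δ ≠ 0 := by
    rw [hδ, eval_shift, zero_add]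
    exact hy'
  obtain ⟨D, hD, hDr⟩ := hR k δ hδ0
  obtain ⟨v₀, hv₀⟩ := exists_eval_ne_zero hD
  obtain ⟨⟨b, hb, hrd⟩, -⟩ := hRD n k X pr δ e h hδ0 v₀
  obtain ⟨r, hr⟩ := hF _ _ b hrd
  refine ⟨r, fun g hg hg0 => ?_⟩
  obtain ⟨a, ha, hlog⟩ := hr (fun l w => g l w.1.2)
    (fun l => (cont_snd (hg l)).continuousOn) (fun l w _ => hg0 l _ w.2.1)
  refine ⟨a, ha, ?_⟩
  have hu : ContinuousOn (fun y => ∏ l, g l y ^ a l) X := by
    refine continuousOn_finset_prod _ fun l _ => ?_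
    exact (hg l).zpow₀ (a l) fun y hy => Or.inl (hg0 l y hy)
  have hu0 : ∀ y ∈ X, ∏ l, g l y ^ a l ≠ 0 := fun y hy =>
    Finset.prod_ne_zero_iff.2 fun l _ => zpow_ne_zero _ (hg0 l y hy)
  have h1 := hT n k X pr δ h.diff (hCov n k X pr δ e h) hδ0 D hDr v₀ hv₀ _ hu hu0 hlog
  refine hE n X hc hXc.isPreconnected (fun y => MvPolynomial.eval (pr y) (δ * D)) _ ?_ ?_ hu hu0 h1
  · exact HolOn.of_diff ((diff_eval (δ * D)).comp h.diff)
  · exact h.dominant (δ * D) (mul_ne_zero h.ne hD)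

theorem finiteRank_homeo {n m r : ℕ} {X : Set (Fin n → ℂ)} {Y : Set (Fin m → ℂ)}
    (h : FiniteRank X r) (Φ : X ≃ₜ Y) : FiniteRank Y r := by
  classical
  intro g hg hg0
  let g' : Fin (r + 1) → (Fin n → ℂ) → ℂ := fun l x =>
    if hx : x ∈ X then g l (Φ ⟨x, hx⟩) else 1
  have hg' : ∀ l (x : X), g' l x = g l (Φ x) := fun l x => by
    simp only [g', x.2, dif_pos]
  obtain ⟨a, ha, L, hL, hexp⟩ := h g' (fun l => by
      rw [continuousOn_iff_continuous_domRestrict]
      have : X.domRestrict (g' l) = fun x => Y.domRestrict (g l) (Φ x) := by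
        funext x
        exact hg' l x
      rw [this]
      exact (continuousOn_iff_continuous_domRestrict.1 (hg l)).comp Φ.continuous)
    (fun l x hx => by rw [show g' l x = g l (Φ ⟨x, hx⟩) from hg' l ⟨x, hx⟩]
                      exact hg0 l _ (Φ ⟨x, hx⟩).2)
  refine ⟨a, ha, fun y => if hy : y ∈ Y then L (Φ.symm ⟨y, hy⟩) else 0, ?_, ?_⟩
  · rw [continuousOn_iff_continuous_domRestrict]
    have : Y.domRestrict (fun y => if hy : y ∈ Y then L (Φ.symm ⟨y, hy⟩) else 0) =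
        fun y => X.domRestrict L (Φ.symm y) := by
      funext y
      simp only [domRestrict_apply, y.2, dif_pos]
    rw [this]
    exact (continuousOn_iff_continuous_domRestrict.1 hL).comp Φ.symm.continuous
  · intro y hy
    simp only [hy, dif_pos]
    rw [hexp _ (Φ.symm ⟨y, hy⟩).2]
    refine Finset.prod_congr rfl fun l _ => ?_
    rw [hg' l (Φ.symm ⟨y, hy⟩), Φ.apply_symm_apply]

end Pool.Agent.Y225.Gor
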