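import Pool.Agent.Y225.Gor.Basic
import Pool.Agent.W327.F4.InHConst
import Pool.Agent.W481.Analytic
import Pool.Agent.Helper113.Gorin.G_end_growth
import Pool.Agent.Helper113.Gorin.G_big_picard
import Pool.Agent.Helper113.Gorin.Schottky

/-!
# Proof of `S_GROW`
-/

set_option autoImplicit false

open Metric Set Topology

namespace Pool.Agent.Y225.Gor

open H113G Pool.Agent.W481 Pool.Agent.W327.F4

/-- growth near a puncture, in the coordinate `ζ` with `pr x = cm ζ` -/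
theorem grow_end {Γ : Type} [TopologicalSpace Γ] [T2Space Γ] {pr : Γ → ℂ} {b : Polynomial ℂ}
    (hrd : RD pr b) {F : Γ → ℂ} (hF : Hl pr F) (h0 : ∀ x, F x ≠ 0) (h1 : ∀ x, F x ≠ 1)
    (c₀ : ℝ) (cm : ℂ → ℂ) (hcm : Differentiable ℂ cm)
    (hper : ∀ ζ, cm (ζ + 2 * Real.pi * Complex.I) = cm ζ)
    (hb : ∀ ζ : ℂ, c₀ < ζ.re → b.eval (cm ζ) ≠ 0) :
    ∃ A C c' : ℝ, 0 ≤ A ∧ 0 ≤ C ∧ 0 ≤ c' ∧ c₀ ≤ c' ∧
      ∀ x (ζ : ℂ), c' < ζ.re → pr x = cm ζ → ‖F x‖ ≤ C * Real.exp (A * ζ.re) := by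
  classical
  set H : Set ℂ := {ζ : ℂ | c₀ < ζ.re} with hH
  have hHo : IsOpen H := isOpen_lt continuous_const Complex.continuous_re
  have hHc : Convex ℝ H := by
    have : H = Complex.reCLM ⁻¹' (Set.Ioi c₀) := rfl
    rw [this]
    exact (convex_Ioi c₀).is_linear_preimage Complex.reCLM.toLinearMap.isLinear
  set ζs : ℂ := ((c₀ + 1 : ℝ) : ℂ) with hζs
  have hζsH : ζs ∈ H := by
    change c₀ < (((c₀ + 1 : ℝ) : ℂ)).re
    rw [Complex.ofReal_re]; linarith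
  have hcontr : ContractibleSpace H := hHc.contractibleSpace ⟨_, hζsH⟩
  have hlpc : LocallyPathConnectedSpace H := hHo.locallyPathConnectedSpace
  let f : C(H, ℂ) := ⟨fun ζ => cm ζ, hcm.continuous.comp continuous_subtype_val⟩
  have hfb : ∀ ζ : H, f ζ ∈ {s | b.eval s ≠ 0} := fun ζ => hb ζ ζ.2
  -- lifts through a given point
  have hlift : ∀ (ζ : H) (x : Γ), pr x = cm ζ → ∃ L : C(H, Γ), L ζ = x ∧ ∀ ζ', pr (L ζ') = cm ζ' := by
    intro ζ x hx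
    obtain ⟨L, ⟨hL1, hL2⟩, -⟩ := hrd.cov.existsUnique_continuousMap_lifts f (a₀ := ζ) (e₀ := x) hx hfb
    exact ⟨L, hL1, fun ζ' => congrFun hL2 ζ'⟩
  have huniq : ∀ (L L' : C(H, Γ)), (∀ ζ', pr (L ζ') = cm ζ') → (∀ ζ', pr (L' ζ') = cm ζ') →
      ∀ ζ : H, L ζ = L' ζ → L = L' := by
    intro L L' hL hL' ζ h
    obtain ⟨L₀, -, hu⟩ := hrd.cov.existsUnique_continuousMap_lifts f (a₀ := ζ) (e₀ := L ζ)
      (hL ζ) hfb
    rw [hu L ⟨rfl, funext hL⟩, hu L' ⟨h.symm, funext hL'⟩]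
  -- the fibre
  set T : Set Γ := pr ⁻¹' {cm ζs} with hT
  have hTf : Finite T := hrd.fin _
  have hex : ∀ y : T, ∃ L : C(H, Γ), L ⟨ζs, hζsH⟩ = y ∧ ∀ ζ', pr (L ζ') = cm ζ' := fun y =>
    hlift ⟨ζs, hζsH⟩ y y.2
  choose Λ hΛ1 hΛ2 using hex
  have hΛall : ∀ (ζ : H) (x : Γ), pr x = cm ζ → ∃ y : T, Λ y ζ = x := by
    intro ζ x hx
    obtain ⟨L, hL1, hL2⟩ := hlift ζ x hx
    refine ⟨⟨L ⟨ζs, hζsH⟩, hL2 _⟩, ?_⟩
    rw [huniq (Λ _) L (hΛ2 _) hL2 ⟨ζs, hζsH⟩ (hΛ1 _)]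
    exact hL1
  -- the shift
  have hshm : ∀ ζ : H, (ζ : ℂ) + 2 * Real.pi * Complex.I ∈ H := by
    intro ζ
    have h2 := ζ.2
    change c₀ < ((ζ : ℂ) + 2 * Real.pi * Complex.I).re
    have : ((ζ : ℂ) + 2 * Real.pi * Complex.I).re = (ζ : ℂ).re := by simp
    rw [this]
    exact h2
  let sh : C(H, H) := ⟨fun ζ => ⟨(ζ : ℂ) + 2 * Real.pi * Complex.I, hshm ζ⟩,
    (continuous_subtype_val.add continuous_const).subtype_mk _⟩
  have hshc : ∀ ζ : H, cm (sh ζ) = cm ζ := fun ζ => hper ζ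
  let τ : T → T := fun y => ⟨Λ y (sh ⟨ζs, hζsH⟩), by
    change pr _ = cm ζs
    rw [hΛ2, hshc]⟩
  have hτ : ∀ y, (Λ y).comp sh = Λ (τ y) := by
    intro y
    refine huniq _ _ (fun ζ' => ?_) (hΛ2 _) ⟨ζs, hζsH⟩ ?_
    · change pr (Λ y (sh ζ')) = _
      rw [hΛ2, hshc]
    · rw [hΛ1 (τ y)]
      rfl
  have hτinj : Function.Injective τ := by
    intro y y' hyy
    have h2 : (Λ y).comp sh = (Λ y').comp sh := by rw [hτ, hτ, hyy]
    have h3 : (ζs - 2 * Real.pi * Complex.I) ∈ H := by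
      change c₀ < (ζs - 2 * Real.pi * Complex.I).re
      have : (ζs - 2 * Real.pi * Complex.I).re = ζs.re := by simp
      rw [this]
      exact hζsH
    have h4 := congrArg (fun L : C(H, Γ) => L ⟨_, h3⟩) h2
    have h5 : sh ⟨_, h3⟩ = ⟨ζs, hζsH⟩ := Subtype.ext (by
      change ζs - 2 * Real.pi * Complex.I + 2 * Real.pi * Complex.I = ζs
      ring)
    change Λ y (sh ⟨_, h3⟩) = Λ y' (sh ⟨_, h3⟩) at h4
    rw [h5, hΛ1, hΛ1] at h4
    exact Subtype.ext h4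
  let e : Equiv.Perm T := Equiv.ofBijective τ (Finite.injective_iff_bijective.1 hτinj)
  obtain ⟨κ, hκ, hκ'⟩ : ∃ κ : ℕ, 0 < κ ∧ e ^ κ = 1 :=
    ⟨orderOf e, orderOf_pos e, pow_orderOf_eq_one e⟩
  have hiter : ∀ (n : ℕ) (y : T) (ζ : H) (hζ : (ζ : ℂ) + 2 * Real.pi * n * Complex.I ∈ H),
      Λ y ⟨(ζ : ℂ) + 2 * Real.pi * n * Complex.I, hζ⟩ = Λ ((e ^ n) y) ζ := by
    intro n
    induction n with
    | zero =>
      intro y ζ hζ
      have : (⟨(ζ : ℂ) + 2 * Real.pi * ((0 : ℕ) : ℂ) * Complex.I, hζ⟩ : H) = ζ :=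
        Subtype.ext (by simp)
      rw [this, pow_zero]
      rfl
    | succ n ih =>
      intro y ζ hζ
      have h2 : (ζ : ℂ) + 2 * Real.pi * n * Complex.I ∈ H := by
        have h3 := ζ.2
        change c₀ < ((ζ : ℂ) + 2 * Real.pi * n * Complex.I).re
        have : ((ζ : ℂ) + 2 * Real.pi * n * Complex.I).re = (ζ : ℂ).re := by simp
        rw [this]
        exact h3
      have h3 : (⟨(ζ : ℂ) + 2 * Real.pi * ((n + 1 : ℕ) : ℂ) * Complex.I, hζ⟩ : H) =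
          sh ⟨(ζ : ℂ) + 2 * Real.pi * n * Complex.I, h2⟩ := Subtype.ext (by
        change (ζ : ℂ) + 2 * Real.pi * ((n + 1 : ℕ) : ℂ) * Complex.I =
          (ζ : ℂ) + 2 * Real.pi * n * Complex.I + 2 * Real.pi * Complex.I
        push_cast
        ring)
      rw [h3]
      have h4 := congrArg (fun L : C(H, Γ) => L ⟨(ζ : ℂ) + 2 * Real.pi * n * Complex.I, h2⟩) (hτ y)
      change Λ y (sh _) = Λ (τ y) _ at h4
      rw [h4, ih (τ y) ζ h2, pow_succ]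
      rfl
  -- the functions
  let φ : T → ℂ → ℂ := fun y ζ => if h : ζ ∈ H then F (Λ y ⟨ζ, h⟩) else 0
  have hφ : ∀ y ζ (h : ζ ∈ H), φ y ζ = F (Λ y ⟨ζ, h⟩) := fun y ζ h => by simp only [φ, h, dif_pos]
  have hφd : ∀ y, DifferentiableOn ℂ (φ y) H := by
    intro y ζ hζ
    obtain ⟨g, hg, hev⟩ := hF (Λ y ⟨ζ, hζ⟩)
    rw [hΛ2] at hg
    have h2 : ∀ᶠ z : H in 𝓝 ⟨ζ, hζ⟩, F (Λ y z) = g (cm z) := by
      have h3 := (Λ y).continuous.continuousAt (x := ⟨ζ, hζ⟩)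
      filter_upwards [h3.eventually hev] with z hz
      rw [hz, hΛ2]
    have h3 : ∀ᶠ z in 𝓝 ζ, φ y z = g (cm z) := by
      rw [nhds_subtype_eq_comap, Filter.eventually_comap] at h2
      filter_upwards [h2, hHo.mem_nhds hζ] with z hz hzH
      rw [hφ y z hzH]
      exact hz ⟨z, hzH⟩ rfl
    have h4 : DifferentiableAt ℂ (fun z => g (cm z)) ζ :=
      DifferentiableAt.comp (g := g) ζ hg.differentiableAt (hcm ζ)
    exact (h4.congr_of_eventuallyEq h3).differentiableWithinAt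
  have hgr : ∀ y, ∃ A C c' : ℝ, ∀ s : ℂ, c' < s.re → ‖φ y s‖ ≤ C * Real.exp (A * s.re) := by
    intro y
    refine H113G.end_growth (fun {f} {r} hr hf hf0 hf1 => H113G.big_picard H113G.schottky_all hr hf hf0 hf1)
      hκ (hφd y) ?_ ?_ ?_
    · intro s hs
      have hs2 : s + 2 * Real.pi * κ * Complex.I ∈ H := by
        change c₀ < (s + 2 * Real.pi * κ * Complex.I).re
        have : (s + 2 * Real.pi * κ * Complex.I).re = s.re := by simp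
        rw [this]
        exact hs
      rw [hφ y _ hs2, hφ y s hs, hiter κ y ⟨s, hs⟩ hs2, hκ']
      rfl
    · intro s hs
      rw [hφ y s hs]
      exact h0 _
    · intro s hs
      rw [hφ y s hs]
      exact h1 _
  choose A C c' hgr using hgr
  have hbd : ∀ f : T → ℝ, ∃ B : ℝ, 0 ≤ B ∧ ∀ y, f y ≤ B := by
    intro f
    obtain ⟨B, hB⟩ := (Set.finite_range f).bddAbove
    exact ⟨max B 0, le_max_right _ _, fun y => (hB ⟨y, rfl⟩).trans (le_max_left _ _)⟩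
  obtain ⟨A₁, hA₁, hA⟩ := hbd A
  obtain ⟨C₁, hC₁, hC⟩ := hbd C
  obtain ⟨c₁, hc₁, hc⟩ := hbd c'
  refine ⟨A₁, C₁, max c₁ c₀, hA₁, hC₁, hc₁.trans (le_max_left _ _), le_max_right _ _,
    fun x ζ hζ hx => ?_⟩
  have hζ0 : c₀ < ζ.re := (le_max_right _ _).trans_lt hζ
  have hζ1 : c₁ < ζ.re := (le_max_left _ _).trans_lt hζ
  obtain ⟨y, hy⟩ := hΛall ⟨ζ, hζ0⟩ x hx
  have h2 := hgr y ζ ((hc y).trans_lt hζ1)
  rw [hφ y ζ hζ0, hy] at h2
  refine h2.trans ?_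
  have h3 : Real.exp (A y * ζ.re) ≤ Real.exp (A₁ * ζ.re) :=
    Real.exp_le_exp.2 (mul_le_mul_of_nonneg_right (hA y) (hc₁.trans hζ1.le))
  exact mul_le_mul (hC y) h3 (Real.exp_pos _).le hC₁

end Pool.Agent.Y225.Gor
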