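import Pool.Agent.Y225.Gor.Basic

/-!
# An isotopy of the plane that follows finitely many moving points
-/

set_option autoImplicit false

open Metric Set Topology

namespace Pool.Agent.Y225.Gor

/-- a cut-off function -/
noncomputable def chi (s : ℝ) : ℝ := max 0 (min 1 (2 - s))

theorem chi_cont : Continuous chi := by
  unfold chi
  fun_prop

theorem chi_one {s : ℝ} (h : s ≤ 1) : chi s = 1 := by
  rw [chi, min_eq_left (by linarith), max_eq_right zero_le_one]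

theorem chi_zero {s : ℝ} (h : 2 ≤ s) : chi s = 0 := by
  rw [chi, max_eq_left]
  exact (min_le_right _ _).trans (by linarith)

theorem chi_nonneg (s : ℝ) : 0 ≤ chi s := le_max_left _ _

theorem chi_le (s : ℝ) : chi s ≤ 1 := max_le zero_le_one (min_le_left _ _)

/-- a map of the plane that takes the points `b j v` to `b j v'` -/
noncomputable def Psi {V : Type*} {N : ℕ} (b : Fin N → V → ℂ) (ρ : ℝ) (v v' : V) (t : ℂ) : ℂ :=
  t + ∑ j, ((chi (‖t - b j v‖ / ρ) : ℝ) : ℂ) * (b j v' - b j v)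

theorem Psi_self {V : Type*} {N : ℕ} (b : Fin N → V → ℂ) (ρ : ℝ) (v : V) (t : ℂ) :
    Psi b ρ v v t = t := by simp [Psi]

theorem Psi_zero {V : Type*} {N : ℕ} (b : Fin N → V → ℂ) {ρ : ℝ} (hρ : 0 < ρ) (v v' : V)
    (h : ∀ j, 2 * ρ ≤ ‖b j v‖) : Psi b ρ v v' 0 = 0 := by
  rw [Psi, zero_add]
  refine Finset.sum_eq_zero fun j _ => ?_
  rw [chi_zero, Complex.ofReal_zero, zero_mul]
  rw [zero_sub, norm_neg, le_div_iff₀ hρ]
  exact h j

theorem Psi_ne {V : Type*} {N : ℕ} (b : Fin N → V → ℂ) {ρ : ℝ} (hρ : 0 < ρ) (v v' : V)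
    (hs : ∀ i j, i ≠ j → 3 * ρ ≤ ‖b i v - b j v‖)
    (hd : ∀ j, ‖b j v' - b j v‖ ≤ ρ / (4 * (N + 1))) (t : ℂ) (ht : ∀ j, t ≠ b j v) (i : Fin N) :
    Psi b ρ v v' t ≠ b i v' := by
  intro heq
  have hN : (0 : ℝ) < N + 1 := by positivity
  have hsum : ‖∑ j, ((chi (‖t - b j v‖ / ρ) : ℝ) : ℂ) * (b j v' - b j v)‖ ≤ ρ / 4 := by
    refine (norm_sum_le _ _).trans ?_
    have h1 : ∀ j ∈ (Finset.univ : Finset (Fin N)),
        ‖((chi (‖t - b j v‖ / ρ) : ℝ) : ℂ) * (b j v' - b j v)‖ ≤ ρ / (4 * (N + 1)) := by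
      intro j _
      rw [norm_mul, Complex.norm_real, Real.norm_eq_abs, abs_of_nonneg (chi_nonneg _)]
      calc chi (‖t - b j v‖ / ρ) * ‖b j v' - b j v‖ ≤ 1 * (ρ / (4 * (N + 1))) :=
            mul_le_mul (chi_le _) (hd j) (norm_nonneg _) zero_le_one
        _ = _ := one_mul _
    refine (Finset.sum_le_card_nsmul _ _ _ h1).trans ?_
    rw [Finset.card_univ, Fintype.card_fin, nsmul_eq_mul]
    rw [show (N : ℝ) * (ρ / (4 * (N + 1))) = (ρ / 4) * (N / (N + 1)) by field_simp]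
    have h2 : (N : ℝ) / (N + 1) ≤ 1 := by
      rw [div_le_one hN]; linarith
    calc ρ / 4 * (N / (N + 1)) ≤ ρ / 4 * 1 := mul_le_mul_of_nonneg_left h2 (by positivity)
      _ = ρ / 4 := mul_one _
  have h3 : ‖t - b i v'‖ ≤ ρ / 4 := by
    have : t - b i v' = -(∑ j, ((chi (‖t - b j v‖ / ρ) : ℝ) : ℂ) * (b j v' - b j v)) := by
      rw [← heq, Psi]; ring
    rw [this, norm_neg]
    exact hsum
  have hq : ρ / (4 * (N + 1)) ≤ ρ / 4 := by
    apply div_le_div_of_nonneg_left hρ.le (by norm_num)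
    have : (0 : ℝ) ≤ N := Nat.cast_nonneg N
    linarith
  have h4 : ‖t - b i v‖ ≤ ρ / 2 := by
    have : t - b i v = (t - b i v') + (b i v' - b i v) := by ring
    rw [this]
    refine (norm_add_le _ _).trans ?_
    linarith [hd i]
  have h5 : ∀ j, j ≠ i → chi (‖t - b j v‖ / ρ) = 0 := by
    intro j hj
    apply chi_zero
    rw [le_div_iff₀ hρ]
    have h6 := hs j i hj
    have h7 : ‖b j v - b i v‖ ≤ ‖t - b j v‖ + ‖t - b i v‖ := by
      have : b j v - b i v = -(t - b j v) + (t - b i v) := by ring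
      rw [this]
      refine (norm_add_le _ _).trans ?_
      rw [norm_neg]
    linarith
  have h6 : chi (‖t - b i v‖ / ρ) = 1 := by
    apply chi_one
    rw [div_le_one hρ]
    linarith
  have h7 : ∑ j, ((chi (‖t - b j v‖ / ρ) : ℝ) : ℂ) * (b j v' - b j v) = b i v' - b i v := by
    rw [Finset.sum_eq_single i]
    · rw [h6]; simp
    · intro j _ hj
      rw [h5 j hj]; simp
    · intro h
      exact absurd (Finset.mem_univ i) h
  apply ht i
  have h8 : Psi b ρ v v' t = b i v' := heq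
  rw [Psi, h7] at h8
  linear_combination h8

theorem exists_pos_le {ι : Type*} [Finite ι] (f : ι → ℝ) (hf : ∀ i, 0 < f i) :
    ∃ c : ℝ, 0 < c ∧ ∀ i, c ≤ f i := by
  rcases isEmpty_or_nonempty ι with h | h
  · exact ⟨1, one_pos, fun i => (h.false i).elim⟩
  · obtain ⟨i, hi⟩ := Finite.exists_min f
    exact ⟨f i, hf i, hi⟩

theorem root_const {k : ℕ} {δ : MvPolynomial (Fin k) ℂ} {v₁ : Fin k → ℂ} (h : RootCont δ v₁)
    (h0 : MvPolynomial.eval (0 : Fin k → ℂ) δ ≠ 0) :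
    ∃ (ε : ℝ) (N : ℕ) (b : Fin N → (Fin k → ℂ) → ℂ) (ρ : ℝ), 0 < ε ∧ 0 < ρ ∧
      (∀ i, ContinuousOn (b i) (ball v₁ ε)) ∧
      (∀ v ∈ ball v₁ ε, ∀ i, 2 * ρ ≤ ‖b i v‖) ∧
      (∀ v ∈ ball v₁ ε, ∀ i j, i ≠ j → 3 * ρ ≤ ‖b i v - b j v‖) ∧
      (∀ v ∈ ball v₁ ε, ∀ v' ∈ ball v₁ ε, ∀ j, ‖b j v' - b j v‖ ≤ ρ / (4 * (N + 1))) ∧
      ∀ v ∈ ball v₁ ε, ∀ t : ℂ, MvPolynomial.eval (t • v) δ = 0 ↔ ∃ i, t = b i v := by
  obtain ⟨ε₀, N, b, hε₀, hb, hb'⟩ := h
  have hc : v₁ ∈ ball v₁ ε₀ := mem_ball_self hε₀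
  obtain ⟨hinj, hz⟩ := hb' v₁ hc
  have hne : ∀ i, b i v₁ ≠ 0 := by
    intro i hi
    have := (hz 0).2 ⟨i, hi.symm⟩
    rw [zero_smul] at this
    exact h0 this
  obtain ⟨c₁, hc₁, hc₁'⟩ := exists_pos_le (fun i => ‖b i v₁‖) fun i => norm_pos_iff.2 (hne i)
  obtain ⟨c₂, hc₂, hc₂'⟩ := exists_pos_le
    (fun p : {p : Fin N × Fin N // p.1 ≠ p.2} => ‖b p.1.1 v₁ - b p.1.2 v₁‖)
    (fun p => norm_pos_iff.2 (sub_ne_zero.2 fun h => p.2 (hinj h)))
  set ρ := min c₁ c₂ / 4 with hρ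
  have hρ0 : 0 < ρ := by
    have := lt_min hc₁ hc₂
    positivity
  have h1 : ∀ i, 4 * ρ ≤ ‖b i v₁‖ := by
    intro i
    have := hc₁' i
    have h2 := min_le_left c₁ c₂
    linarith
  have h2 : ∀ i j, i ≠ j → 4 * ρ ≤ ‖b i v₁ - b j v₁‖ := by
    intro i j hij
    have : c₂ ≤ ‖b i v₁ - b j v₁‖ := hc₂' ⟨(i, j), hij⟩
    have h2 := min_le_right c₁ c₂
    linarith
  set η := ρ / (8 * (N + 1)) with hη
  have hN : (0 : ℝ) < N + 1 := by positivity
  have hη0 : 0 < η := by positivity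
  have hη' : η ≤ ρ / 8 := by
    apply div_le_div_of_nonneg_left hρ0.le (by norm_num)
    have : (0 : ℝ) ≤ N := Nat.cast_nonneg N
    linarith
  have hev : ∀ᶠ v in 𝓝 v₁, v ∈ ball v₁ ε₀ ∧ ∀ i, ‖b i v - b i v₁‖ < η := by
    refine Filter.Eventually.and (isOpen_ball.mem_nhds hc) ?_
    rw [Filter.eventually_all]
    intro i
    have h3 : ContinuousAt (b i) v₁ := (hb i).continuousAt (isOpen_ball.mem_nhds hc)
    have h4 := Metric.tendsto_nhds.1 h3 η hη0
    filter_upwards [h4] with v hv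
    rwa [dist_eq_norm] at hv
  obtain ⟨ε, hε, hball⟩ := Metric.eventually_nhds_iff_ball.1 hev
  refine ⟨ε, N, b, ρ, hε, hρ0, fun i => (hb i).mono fun v hv => (hball v hv).1, ?_, ?_, ?_, ?_⟩
  · intro v hv i
    have h3 := (hball v hv).2 i
    have h4 := norm_sub_norm_le (b i v₁) (b i v)
    rw [norm_sub_rev] at h4
    linarith [h1 i]
  · intro v hv i j hij
    have h3 := (hball v hv).2 i
    have h4 := (hball v hv).2 j
    have h5 : b i v₁ - b j v₁ = (b i v - b j v) + (-(b i v - b i v₁) + (b j v - b j v₁)) := by ring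
    have h6 := h2 i j hij
    rw [h5] at h6
    have h7 := norm_add_le (b i v - b j v) (-(b i v - b i v₁) + (b j v - b j v₁))
    have h8 := norm_add_le (-(b i v - b i v₁)) (b j v - b j v₁)
    rw [norm_neg] at h8
    linarith
  · intro v hv v' hv' j
    have h3 := (hball v hv).2 j
    have h4 := (hball v' hv').2 j
    have h5 : b j v' - b j v = (b j v' - b j v₁) + -(b j v - b j v₁) := by ring
    rw [h5]
    refine (norm_add_le _ _).trans ?_
    rw [norm_neg]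
    have h6 : ρ / (4 * (N + 1)) = η + η := by
      rw [hη]; field_simp; norm_num
    rw [h6]
    linarith
  · intro v hv
    exact (hb' v (hball v hv).1).2

end Pool.Agent.Y225.Gor
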