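import Pool.Agent.Y225.Gor.Der

/-!
# Periods of a combination of logarithmic derivatives with a single-valued primitive
-/

set_option autoImplicit false

open Metric Set Topology unitInterval

namespace Pool.Agent.Y225.Gor

open H113G Pool.Agent.W481 Pool.Agent.W327.F4

theorem eventually_zero_of_exp {X : Type*} [TopologicalSpace X] {f : X → ℂ} {x₀ : X}
    (hf : ContinuousAt f x₀) (h0 : f x₀ = 0) (h : ∀ᶠ x in 𝓝 x₀, Complex.exp (f x) = 1) :
    ∀ᶠ x in 𝓝 x₀, f x = 0 := by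
  have h1 : ∀ᶠ x in 𝓝 x₀, ‖f x‖ < 1 := by
    have h2 : ContinuousAt (fun x => ‖f x‖) x₀ := hf.norm
    exact h2.eventually_lt_const (by simp [h0])
  filter_upwards [h, h1] with x hx1 hx2
  obtain ⟨n, hn⟩ := Complex.exp_eq_one_iff.1 hx1
  rw [hn] at hx2 ⊢
  by_cases hn0 : n = 0
  · rw [hn0]; simp
  · exfalso
    have h3 : (1 : ℝ) ≤ |(n : ℝ)| := by
      have := Int.one_le_abs hn0
      exact_mod_cast this
    have h4 : ‖(n : ℂ) * (2 * Real.pi * Complex.I)‖ = |(n : ℝ)| * (2 * Real.pi) := by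
      rw [norm_mul, norm_mul, norm_mul, Complex.norm_I, mul_one, Complex.norm_intCast,
        Complex.norm_real, Real.norm_eq_abs, abs_of_pos Real.pi_pos]
      simp
    rw [h4] at hx2
    have h5 := Real.pi_gt_three
    nlinarith

theorem eventually_const_of_deriv {f : ℂ → ℂ} {a : ℂ} (hf : AnalyticAt ℂ f a)
    (h : ∀ᶠ s in 𝓝 a, deriv f s = 0) : ∀ᶠ s in 𝓝 a, f s = f a := by
  obtain ⟨ε, hε, hball⟩ := Metric.eventually_nhds_iff_ball.1 (h.and hf.eventually_analyticAt)
  filter_upwards [ball_mem_nhds _ hε] with s hs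
  exact (convex_ball a ε).is_const_of_fderivWithin_eq_zero (𝕜 := ℂ)
    (fun z hz => (hball z hz).2.differentiableAt.differentiableWithinAt)
    (fun z hz => by
      rw [fderivWithin_eq_fderiv (isOpen_ball.uniqueDiffWithinAt hz)
        (hball z hz).2.differentiableAt]
      ext
      simpa using (hball z hz).1) hs (mem_ball_self hε)

theorem path_germ (p : I → ℂ) (hp : Continuous p) (G : I → ℂ → ℂ)
    (hA : ∀ τ, AnalyticAt ℂ (G τ) (p τ))
    (hcomp : ∀ τ₀, ∀ᶠ τ in 𝓝 τ₀, ∀ᶠ s in 𝓝 (p τ), G τ s = G τ₀ s)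
    (h0 : ∀ᶠ s in 𝓝 (p 0), G 0 s = 0) (τ : I) : ∀ᶠ s in 𝓝 (p τ), G τ s = 0 := by
  set S : Set I := {τ | ∀ᶠ s in 𝓝 (p τ), G τ s = 0} with hS
  have hopen : IsOpen S := by
    rw [isOpen_iff_mem_nhds]
    intro τ₀ hτ₀
    have h1 : ∀ᶠ s in 𝓝 (p τ₀), ∀ᶠ s' in 𝓝 s, G τ₀ s' = 0 := by
      have h2 : ∀ᶠ s in 𝓝 (p τ₀), G τ₀ s = 0 := hτ₀
      exact h2.eventually_nhds
    filter_upwards [hcomp τ₀, hp.continuousAt.eventually h1] with τ h2 h3
    filter_upwards [h2, h3] with s h4 h5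
    rw [h4, h5]
  have hopen' : IsOpen Sᶜ := by
    rw [isOpen_iff_mem_nhds]
    intro τ₀ hτ₀
    have h1 : ∀ᶠ s in 𝓝[≠] (p τ₀), G τ₀ s ≠ 0 := by
      rcases (hA τ₀).eventually_eq_zero_or_eventually_ne_zero with h | h
      · exact absurd h hτ₀
      · exact h
    rw [eventually_nhdsWithin_iff] at h1
    have h2 : ∀ᶠ s' in 𝓝 (p τ₀), ¬ ∀ᶠ s in 𝓝 s', G τ₀ s = 0 := by
      filter_upwards [h1.eventually_nhds] with s' hs' hz
      have h3 : ∀ᶠ s in 𝓝 s', s = p τ₀ := by
        filter_upwards [hs', hz] with s h4 h5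
        by_contra h6
        exact h4 h6 h5
      have h4 : s' = p τ₀ := h3.self_of_nhds
      rw [h4] at h3
      have h5 : ∀ᶠ s in 𝓝[≠] (p τ₀), False := by
        filter_upwards [nhdsWithin_le_nhds h3, self_mem_nhdsWithin] with s h6 h7
        exact h7 h6
      rw [Filter.eventually_false_iff_eq_bot] at h5
      exact (inferInstance : (𝓝[≠] (p τ₀)).NeBot).ne h5
    filter_upwards [hcomp τ₀, hp.continuousAt.eventually h2] with τ h3 h4 h5
    apply h4
    have h6 : ∀ᶠ s in 𝓝 (p τ), G τ s = 0 := h5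
    filter_upwards [h3, h6] with s h7 h8
    rw [← h7, h8]
  have hcl : IsClopen S := ⟨⟨hopen'⟩, hopen⟩
  rcases isClopen_iff.1 hcl with h | h
  · exfalso
    have h1 : (0 : I) ∈ S := h0
    rw [h] at h1
    exact h1
  · have h1 : τ ∈ S := by rw [h]; exact mem_univ _
    exact h1

variable {Γ : Type} [TopologicalSpace Γ] {pr : Γ → ℂ}

/-- the local logarithm with value `L` at `a` -/
noncomputable def lgm (e : ℂ → ℂ) (L a : ℂ) (s : ℂ) : ℂ := L + Complex.log (e s / e a)

theorem lgm_self {e : ℂ → ℂ} {L a : ℂ} (h : e a ≠ 0) : lgm e L a a = L := by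
  rw [lgm, div_self h, Complex.log_one, add_zero]

theorem lgm_spec {e : ℂ → ℂ} {L a : ℂ} (he : AnalyticAt ℂ e a) (h : Complex.exp L = e a) :
    AnalyticAt ℂ (lgm e L a) a ∧ (∀ᶠ s in 𝓝 a, Complex.exp (lgm e L a s) = e s) ∧
      ∀ᶠ s in 𝓝 a, deriv (lgm e L a) s = deriv e s / e s := by
  have ha : e a ≠ 0 := by rw [← h]; exact Complex.exp_ne_zero _
  have h1 : AnalyticAt ℂ (fun s => e s / e a) a := he.div_const
  have hsl : ∀ᶠ s in 𝓝 a, e s / e a ∈ Complex.slitPlane := by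
    refine h1.continuousAt.eventually_mem (Complex.isOpen_slitPlane.mem_nhds ?_)
    rw [div_self ha]
    exact Complex.one_mem_slitPlane
  have hne : ∀ᶠ s in 𝓝 a, e s ≠ 0 := he.continuousAt.eventually_ne ha
  refine ⟨?_, ?_, ?_⟩
  · refine analyticAt_const.add (h1.clog ?_)
    rw [div_self ha]
    exact Complex.one_mem_slitPlane
  · filter_upwards [hne] with s hs
    rw [lgm, Complex.exp_add, Complex.exp_log (div_ne_zero hs ha), h]
    field_simp
  · filter_upwards [hne, hsl, he.eventually_analyticAt] with s hs1 hs2 hs3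
    have h2 : HasDerivAt (fun s => e s / e a) (deriv e s / e a) s :=
      hs3.differentiableAt.hasDerivAt.div_const _
    have h3 := (h2.clog hs2).const_add L
    have h4 : deriv (lgm e L a) s = _ := h3.deriv
    rw [h4]
    field_simp

theorem tang (hpr : IsLocalHomeomorph pr) {y₁ : Γ} {κ : Type} [Fintype κ] (E : κ → C(Γ, Cx))
    (hE : ∀ k, Hl pr (fun x => (E k x).1)) {N D : Γ → ℂ} (hN : Hl pr N) (hD : Hl pr D)
    (hD1 : D y₁ ≠ 0) (μ : κ → ℂ)
    (hrel : ∀ x, Joined y₁ x → der pr N x * D x - N x * der pr D x =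
      (∑ k, μ k * LD pr (fun x => (E k x).1) x) * D x ^ 2) (q : PH y₁ y₁) :
    ∑ k, μ k * dl (E k) q = 0 := by
  induction q using Path.Homotopic.Quotient.ind with | mk γ
  have hL := fun k => exists_log (E k) γ
  choose L hL using hL
  choose n hn using fun τ => hN (γ τ)
  choose d hd using fun τ => hD (γ τ)
  choose e he using fun τ k => hE k (γ τ)
  have hn' : ∀ τ, Rep pr N (γ τ) (n τ) := hn
  have hd' : ∀ τ, Rep pr D (γ τ) (d τ) := hd
  have he' : ∀ τ k, Rep pr (fun x => (E k x).1) (γ τ) (e τ k) := he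
  set p : I → ℂ := fun τ => pr (γ τ) with hp
  have hpc : Continuous p := hpr.continuous.comp γ.continuous
  have heL : ∀ τ k, Complex.exp (L k τ) = e τ k (p τ) := fun τ k => by
    rw [hL]; exact (he' τ k).val
  set c : ℂ := N y₁ / D y₁ - ∑ k, μ k * L k 0 with hc
  set G : I → ℂ → ℂ := fun τ s => d τ s * (∑ k, μ k * lgm (e τ k) (L k τ) (p τ) s + c) - n τ s
    with hG
  have hspec := fun τ k => lgm_spec (he' τ k).1 (heL τ k)
  have hA : ∀ τ, AnalyticAt ℂ (G τ) (p τ) := by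
    intro τ
    refine ((hd' τ).1.mul ?_).sub (hn' τ).1
    refine AnalyticAt.add ?_ analyticAt_const
    exact Finset.analyticAt_fun_sum _ fun k _ => analyticAt_const.mul (hspec τ k).1
  have hcomp : ∀ τ₀, ∀ᶠ τ in 𝓝 τ₀, ∀ᶠ s in 𝓝 (p τ), G τ s = G τ₀ s := by
    intro τ₀
    have hγc : ContinuousAt γ τ₀ := γ.continuous.continuousAt
    have h1 : ∀ᶠ τ in 𝓝 τ₀, ∀ᶠ s in 𝓝 (p τ), n τ s = n τ₀ s := by
      filter_upwards [hγc.eventually ((hn' τ₀).eventually hpr)] with τ hτ
      exact (hn' τ).unique hτ hpr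
    have h2 : ∀ᶠ τ in 𝓝 τ₀, ∀ᶠ s in 𝓝 (p τ), d τ s = d τ₀ s := by
      filter_upwards [hγc.eventually ((hd' τ₀).eventually hpr)] with τ hτ
      exact (hd' τ).unique hτ hpr
    have h3 : ∀ k, ∀ᶠ τ in 𝓝 τ₀, ∀ᶠ s in 𝓝 (p τ),
        lgm (e τ k) (L k τ) (p τ) s = lgm (e τ₀ k) (L k τ₀) (p τ₀) s := by
      intro k
      obtain ⟨a1, a2, a3⟩ := hspec τ₀ k
      have ha0 : lgm (e τ₀ k) (L k τ₀) (p τ₀) (p τ₀) = L k τ₀ :=
        lgm_self (by rw [← heL]; exact Complex.exp_ne_zero _)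
      -- the two logarithms agree at `p τ`
      have h4 : ∀ᶠ τ in 𝓝 τ₀, L k τ - lgm (e τ₀ k) (L k τ₀) (p τ₀) (p τ) = 0 := by
        refine eventually_zero_of_exp ?_ (by rw [ha0, sub_self]) ?_
        · refine (L k).continuous.continuousAt.sub ?_
          exact ContinuousAt.comp (g := lgm (e τ₀ k) (L k τ₀) (p τ₀)) (f := p)
            a1.continuousAt hpc.continuousAt
        · filter_upwards [hpc.continuousAt.eventually a2, hγc.eventually (he' τ₀ k).2] with τ h5 h6
          rw [Complex.exp_sub, h5, hL, h6]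
          refine div_self ?_
          rw [← h6]
          exact (E k (γ τ)).2
      filter_upwards [h4, hpc.continuousAt.eventually a1.eventually_analyticAt,
        hpc.continuousAt.eventually a2.eventually_nhds,
        hγc.eventually ((he' τ₀ k).eventually hpr)] with τ h5 h6 h7 h8
      have h9 : ∀ᶠ s in 𝓝 (p τ), e τ k s = e τ₀ k s := (he' τ k).unique h8 hpr
      obtain ⟨b1, b2, b3⟩ := hspec τ k
      have hb0 : lgm (e τ k) (L k τ) (p τ) (p τ) = L k τ :=
        lgm_self (by rw [← heL]; exact Complex.exp_ne_zero _)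
      have h10 : ∀ᶠ s in 𝓝 (p τ), lgm (e τ k) (L k τ) (p τ) s -
          lgm (e τ₀ k) (L k τ₀) (p τ₀) s = 0 := by
        refine eventually_zero_of_exp (b1.continuousAt.sub h6.continuousAt) ?_ ?_
        · rw [hb0]; exact h5
        · have hne : ∀ᶠ s in 𝓝 (p τ), e τ k s ≠ 0 :=
            (he' τ k).1.continuousAt.eventually_ne (by
              rw [← heL]; exact Complex.exp_ne_zero _)
          filter_upwards [b2, h7, h9, hne] with s h11 h12 h13 h14
          rw [Complex.exp_sub, h11, h12, ← h13]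
          exact div_self h14
      filter_upwards [h10] with s hs
      exact sub_eq_zero.1 hs
    have h3' : ∀ᶠ τ in 𝓝 τ₀, ∀ k, ∀ᶠ s in 𝓝 (p τ),
        lgm (e τ k) (L k τ) (p τ) s = lgm (e τ₀ k) (L k τ₀) (p τ₀) s :=
      Filter.eventually_all.2 h3
    filter_upwards [h1, h2, h3'] with τ h4 h5 h6
    filter_upwards [h4, h5, Filter.eventually_all.2 h6] with s h7 h8 h9
    simp only [hG]
    rw [h7, h8]
    congr 2
    congr 1
    exact Finset.sum_congr rfl fun k _ => by rw [h9 k]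
  have hγ0 : γ 0 = y₁ := γ.source
  have hγ1 : γ 1 = y₁ := γ.target
  have hl0 : ∀ τ k, lgm (e τ k) (L k τ) (p τ) (p τ) = L k τ := fun τ k =>
    lgm_self (by rw [← heL]; exact Complex.exp_ne_zero _)
  have hd0 : d 0 (p 0) = D y₁ := by
    rw [← (hd' 0).val, hγ0]
  have hn0 : n 0 (p 0) = N y₁ := by
    rw [← (hn' 0).val, hγ0]
  have h0 : ∀ᶠ s in 𝓝 (p 0), G 0 s = 0 := by
    -- the quotient minus the logarithms is constant
    set φ : ℂ → ℂ := fun s => n 0 s / d 0 s - ∑ k, μ k * lgm (e 0 k) (L k 0) (p 0) s with hφ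
    have hdne : d 0 (p 0) ≠ 0 := by rw [hd0]; exact hD1
    have hsumA : AnalyticAt ℂ (fun s => ∑ k, μ k * lgm (e 0 k) (L k 0) (p 0) s) (p 0) :=
      Finset.analyticAt_fun_sum _ fun k _ => analyticAt_const.mul (hspec 0 k).1
    have hφA : AnalyticAt ℂ φ (p 0) := ((hn' 0).1.div (hd' 0).1 hdne).sub hsumA
    have hrel' : ∀ᶠ s in 𝓝 (p 0), deriv (n 0) s * d 0 s - n 0 s * deriv (d 0) s =
        (∑ k, μ k * (deriv (e 0 k) s / e 0 k s)) * d 0 s ^ 2 := by
      rw [hp, ← hpr.map_nhds_eq, Filter.eventually_map]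
      have hall : ∀ᶠ y in 𝓝 (γ 0), ∀ k, Rep pr (fun x => (E k x).1) y (e 0 k) :=
        Filter.eventually_all.2 fun k => (he' 0 k).eventually hpr
      filter_upwards [(hn' 0).eventually hpr, (hd' 0).eventually hpr, hall,
        eventually_joined hpr (γ 0)] with y g1 g2 g3 g4
      rw [hγ0] at g4
      have g5 := hrel y g4
      rw [der_eq hpr g1, der_eq hpr g2, g1.val, g2.val] at g5
      rw [g5]
      congr 1
      refine Finset.sum_congr rfl fun k _ => ?_
      rw [LD, der_eq hpr (g3 k)]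
      have g6 : (E k y).1 = e 0 k (pr y) := (g3 k).val
      rw [g6]
    have hder : ∀ᶠ s in 𝓝 (p 0), deriv φ s = 0 := by
      have hall : ∀ᶠ s in 𝓝 (p 0), ∀ k, deriv (lgm (e 0 k) (L k 0) (p 0)) s =
          deriv (e 0 k) s / e 0 k s := Filter.eventually_all.2 fun k => (hspec 0 k).2.2
      have hallA : ∀ᶠ s in 𝓝 (p 0), ∀ k, AnalyticAt ℂ (lgm (e 0 k) (L k 0) (p 0)) s :=
        Filter.eventually_all.2 fun k => (hspec 0 k).1.eventually_analyticAt
      filter_upwards [hrel', hall, hallA, (hn' 0).1.eventually_analyticAt,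
        (hd' 0).1.eventually_analyticAt, (hd' 0).1.continuousAt.eventually_ne hdne]
        with s g1 g2 g3 g4 g5 g6
      have e1 : HasDerivAt (fun s => n 0 s / d 0 s)
          ((deriv (n 0) s * d 0 s - n 0 s * deriv (d 0) s) / d 0 s ^ 2) s :=
        g4.differentiableAt.hasDerivAt.div g5.differentiableAt.hasDerivAt g6
      have e2 : HasDerivAt (fun s => ∑ k, μ k * lgm (e 0 k) (L k 0) (p 0) s)
          (∑ k, μ k * deriv (lgm (e 0 k) (L k 0) (p 0)) s) s := by
        refine HasDerivAt.fun_sum fun k _ => ?_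
        exact (g3 k).differentiableAt.hasDerivAt.const_mul _
      have e3 : deriv φ s = _ := (e1.sub e2).deriv
      rw [e3, g1, mul_div_assoc, div_self (pow_ne_zero 2 g6), mul_one, sub_eq_zero]
      exact Finset.sum_congr rfl fun k _ => by rw [g2 k]
    have hconst := eventually_const_of_deriv hφA hder
    have hφ0 : φ (p 0) = c := by
      simp only [hφ, hc]
      rw [hn0, hd0]
      congr 1
      exact Finset.sum_congr rfl fun k _ => by rw [hl0]
    filter_upwards [hconst, (hd' 0).1.continuousAt.eventually_ne hdne] with s g1 g2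
    rw [hφ0] at g1
    simp only [hφ] at g1
    simp only [hG]
    have g3 : (∑ k, μ k * lgm (e 0 k) (L k 0) (p 0) s) + c = n 0 s / d 0 s := by
      linear_combination -g1
    rw [g3]
    field_simp
    ring
  have h1 := (path_germ p hpc G hA hcomp h0 1).self_of_nhds
  have h2 := h0.self_of_nhds
  simp only [hG, hl0] at h1 h2
  have hd1 : d 1 (p 1) = D y₁ := by
    rw [← (hd' 1).val, hγ1]
  have hn1 : n 1 (p 1) = N y₁ := by
    rw [← (hn' 1).val, hγ1]
  rw [hd1, hn1] at h1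
  rw [hd0, hn0] at h2
  have h3 : D y₁ * (∑ k, μ k * L k 1 - ∑ k, μ k * L k 0) = 0 := by linear_combination h1 - h2
  have h4 := (mul_eq_zero.1 h3).resolve_left hD1
  have h5 : ∀ k, dl (E k) (.mk γ) = L k 1 - L k 0 := fun k => dl_mk (E k) γ (L k) (hL k)
  simp only [h5, mul_sub, Finset.sum_sub_distrib]
  exact h4

end Pool.Agent.Y225.Gor
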