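import Pool.Agent.Y225.Gor.Psi
import Pool.Agent.W327.F4.InHConst

/-!
# Transport of logarithms along the lines through the base point
-/

set_option autoImplicit false

open Metric Set Topology unitInterval

namespace Pool.Agent.Y225.Gor

open H113G Pool.Agent.W481

/-- restriction of a polynomial to a line -/
theorem exists_linePoly {k : ℕ} (a d : Fin k → ℂ) (D : MvPolynomial (Fin k) ℂ) :
    ∃ p : Polynomial ℂ, ∀ s : ℂ, p.eval s = MvPolynomial.eval (a + s • d) D := by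
  refine ⟨MvPolynomial.aeval
    (fun i => Polynomial.C (a i) + Polynomial.X * Polynomial.C (d i)) D, fun s => ?_⟩
  induction D using MvPolynomial.induction_on with
  | C c => simp
  | add p q hp hq => simp only [map_add, Polynomial.eval_add, hp, hq]
  | mul_X q i hq =>
    simp only [map_mul, Polynomial.eval_mul, MvPolynomial.aeval_X, MvPolynomial.eval_X, hq,
      Polynomial.eval_add, Polynomial.eval_C, Polynomial.eval_X, Pi.add_apply, Pi.smul_apply,
      smul_eq_mul]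

/-- the complement of a hypersurface is preconnected -/
theorem compl_hyp_preconnected {k : ℕ} (D : MvPolynomial (Fin k) ℂ) :
    IsPreconnected {v : Fin k → ℂ | MvPolynomial.eval v D ≠ 0} := by
  refine isPreconnected_of_forall_pair fun v hv v' hv' => ?_
  obtain ⟨p, hpe⟩ := exists_linePoly v (v' - v) D
  have hp0 : p.eval 0 ≠ 0 := by
    rw [hpe, zero_smul, add_zero]; exact hv
  have hpne : p ≠ 0 := by
    rintro h
    rw [h, Polynomial.eval_zero] at hp0
    exact hp0 rfl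
  refine ⟨(fun s : ℂ => v + s • (v' - v)) '' {s | p.eval s ≠ 0}, ?_, ?_, ?_, ?_⟩
  · rintro _ ⟨s, hs, rfl⟩
    rw [mem_ofPred_eq, ← hpe]
    exact hs
  · exact ⟨0, hp0, by simp⟩
  · refine ⟨1, ?_, by simp⟩
    rw [mem_ofPred_eq, hpe, one_smul, add_sub_cancel]
    exact hv'
  · exact (Pool.Agent.W327.F4.compl_roots_preconnected p hpne).image _
      (continuous_const.add (continuous_id.smul continuous_const)).continuousOn

variable {m k : ℕ} {Y : Set (Fin m → ℂ)} {pr : (Fin m → ℂ) → (Fin k → ℂ)}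
  {δ : MvPolynomial (Fin k) ℂ}

/-- a logarithm of `u` over the line of `v`, with the values `c` over `t = 0` -/
structure LogAt (u c : (Fin m → ℂ) → ℂ) (v : Fin k → ℂ) (ℓ : Lc Y pr δ v → ℂ) : Prop where
  cont : Continuous ℓ
  exp : ∀ w, Complex.exp (ℓ w) = u w.1.2
  norm : ∀ w, w.1.1 = 0 → ℓ w = c w.1.2

/-- two logarithms on a preconnected space that agree at a point agree -/
theorem log_unique {T : Type*} [TopologicalSpace T] [PreconnectedSpace T] {f g : T → ℂ}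
    (hf : Continuous f) (hg : Continuous g) (h : ∀ t, Complex.exp (f t) = Complex.exp (g t))
    (t₀ : T) (h0 : f t₀ = g t₀) (t : T) : f t = g t := by
  have h1 := Complex.isCoveringMap_exp.eq_of_comp_eq hf hg
    (funext fun t => Subtype.ext (h t)) t₀ h0
  exact congrFun h1 t

theorem LogAt.unique (hq : IsCoveringMap (qY Y pr δ))
    (hδ : MvPolynomial.eval (0 : Fin k → ℂ) δ ≠ 0) {u c : (Fin m → ℂ) → ℂ} {v : Fin k → ℂ}
    {ℓ ℓ' : Lc Y pr δ v → ℂ} (h : LogAt u c v ℓ) (h' : LogAt u c v ℓ') (w : Lc Y pr δ v) :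
    ℓ w = ℓ' w := by
  -- the polynomial of the line
  obtain ⟨p, hpe'⟩ := exists_linePoly 0 v δ
  have hpe : ∀ s : ℂ, p.eval s = MvPolynomial.eval (s • v) δ := fun s => by
    rw [hpe', zero_add]
  have hp0 : p.eval 0 ≠ 0 := by
    rw [hpe, zero_smul]; exact hδ
  have hpne : p ≠ 0 := by
    rintro h
    rw [h, Polynomial.eval_zero] at hp0
    exact hp0 rfl
  have hfin : {s : ℂ | p.eval s = 0}.Finite := by
    refine (p.roots.toFinset.finite_toSet).subset fun s hs => ?_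
    simpa [hpne] using hs
  have hpc : IsPathConnected {s : ℂ | p.eval s ≠ 0} := by
    have h1 := hfin.countable.isPathConnected_compl_of_one_lt_rank (E := ℂ) (by
      rw [Complex.rank_real_complex]; norm_num)
    exact h1
  have hw : p.eval w.1.1 ≠ 0 := by
    rw [hpe]; exact w.2.2.2
  obtain ⟨γ, hγ⟩ := hpc.joinedIn w.1.1 hw 0 hp0
  -- lift
  have hγv : Continuous (fun τ => γ τ • v) := γ.continuous.smul continuous_const
  have hγδ : ∀ τ, MvPolynomial.eval (γ τ • v) δ ≠ 0 := fun τ => by rw [← hpe]; exact hγ τ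
  let G : C(I, H113G.Sp δ) := ⟨fun τ => ⟨γ τ • v, hγδ τ⟩, hγv.subtype_mk hγδ⟩
  let e₀ : Yo Y pr δ := ⟨w.1.2, w.2.1, by rw [w.2.2.1]; exact w.2.2.2⟩
  obtain ⟨Γ, hΓ, hΓ0⟩ := hq.exists_path_lifts G e₀ (by
    apply Subtype.ext
    change γ 0 • v = pr w.1.2
    rw [γ.source, w.2.2.1])
  have hΓ' : ∀ τ, pr (Γ τ).1 = γ τ • v := fun τ => congrArg Subtype.val (congrFun hΓ τ)
  let W : I → Lc Y pr δ v := fun τ => ⟨(γ τ, (Γ τ).1), (Γ τ).2.1, hΓ' τ, by
    have := (Γ τ).2.2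
    rw [hΓ' τ] at this
    exact this⟩
  have hW : Continuous W :=
    (γ.continuous.prodMk (continuous_subtype_val.comp Γ.continuous)).subtype_mk _
  have hW0 : W 0 = w := by
    apply Subtype.ext
    change ((γ 0 : ℂ), (Γ 0).1) = w.1
    rw [hΓ0, γ.source]
  have h1 := log_unique (h.cont.comp hW) (h'.cont.comp hW)
    (fun τ => (h.exp (W τ)).trans (h'.exp (W τ)).symm) 1 (by
      have h2 : (W 1).1.1 = 0 := γ.target
      change ℓ (W 1) = ℓ' (W 1)
      rw [h.norm _ h2, h'.norm _ h2]) 0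
  change ℓ (W 0) = ℓ' (W 0) at h1
  rwa [hW0] at h1

/-- the part of `Y` over the lines of the vectors of a set -/
abbrev Tot (Y : Set (Fin m → ℂ)) (pr : (Fin m → ℂ) → (Fin k → ℂ)) (δ : MvPolynomial (Fin k) ℂ)
    (B : Set (Fin k → ℂ)) : Type :=
  {w : (Fin k → ℂ) × ℂ × (Fin m → ℂ) // w.1 ∈ B ∧ w.2.2 ∈ Y ∧ pr w.2.2 = w.2.1 • w.1 ∧
    MvPolynomial.eval (w.2.1 • w.1) δ ≠ 0}

/-- the local transport -/
theorem local_transport (hq : IsCoveringMap (qY Y pr δ))
    (hδ : MvPolynomial.eval (0 : Fin k → ℂ) δ ≠ 0) {u c : (Fin m → ℂ) → ℂ}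
    (hu : ContinuousOn u Y) (hu0 : ∀ y ∈ Y, u y ≠ 0) {vs : Fin k → ℂ} (hr : RootCont δ vs) :
    ∃ ε : ℝ, 0 < ε ∧ ∀ v₁ ∈ ball vs ε, ∀ ℓ₁ : Lc Y pr δ v₁ → ℂ, LogAt u c v₁ ℓ₁ →
      ∃ ℓ : Tot Y pr δ (ball vs ε) → ℂ, Continuous ℓ ∧ (∀ w, Complex.exp (ℓ w) = u w.1.2.2) ∧
        ∀ w, w.1.2.1 = 0 → ℓ w = c w.1.2.2 := by
  obtain ⟨ε, N, b, ρ, hε, hρ, hb, h2ρ, h3ρ, hd, hz⟩ := root_const hr hδ
  refine ⟨ε, hε, fun v₁ hv₁ ℓ₁ hℓ₁ => ?_⟩
  -- the segment
  let vv : I × Tot Y pr δ (ball vs ε) → (Fin k → ℂ) := fun x =>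
    (1 - (x.1 : ℝ) : ℝ) • x.2.1.1 + (x.1 : ℝ) • v₁
  have hvvm : ∀ x, vv x ∈ ball vs ε := fun x =>
    (convex_ball vs ε) x.2.2.1 hv₁ (sub_nonneg.2 x.1.2.2) x.1.2.1 (by simp)
  have hvvc : Continuous vv := by
    have e1 : Continuous (fun x : I × Tot Y pr δ (ball vs ε) => (x.1 : ℝ)) :=
      continuous_subtype_val.comp continuous_fst
    have e2 : Continuous (fun x : I × Tot Y pr δ (ball vs ε) => x.2.1.1) :=
      continuous_fst.comp (continuous_subtype_val.comp continuous_snd)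
    exact ((continuous_const.sub e1).smul e2).add (e1.smul continuous_const)
  have hvv0 : ∀ w, vv (0, w) = w.1.1 := fun w => by simp [vv]
  have hvv1 : ∀ w, vv (1, w) = v₁ := fun w => by simp [vv]
  -- the moving parameter
  let ψ : I × Tot Y pr δ (ball vs ε) → ℂ := fun x => Psi b ρ x.2.1.1 (vv x) x.2.1.2.1
  have hbc : ∀ j (f : I × Tot Y pr δ (ball vs ε) → (Fin k → ℂ)), Continuous f →
      (∀ x, f x ∈ ball vs ε) → Continuous (fun x => b j (f x)) := fun j f hf hf' =>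
    (hb j).comp_continuous hf hf'
  have hψc : Continuous ψ := by
    have e1 : Continuous (fun x : I × Tot Y pr δ (ball vs ε) => x.2.1.1) :=
      continuous_fst.comp (continuous_subtype_val.comp continuous_snd)
    have e2 : Continuous (fun x : I × Tot Y pr δ (ball vs ε) => x.2.1.2.1) :=
      continuous_fst.comp (continuous_snd.comp (continuous_subtype_val.comp continuous_snd))
    have e3 : ∀ j, Continuous (fun x : I × Tot Y pr δ (ball vs ε) => b j x.2.1.1) := fun j =>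
      hbc j _ e1 fun x => x.2.2.1
    have e4 : ∀ j, Continuous (fun x : I × Tot Y pr δ (ball vs ε) => b j (vv x)) := fun j =>
      hbc j _ hvvc hvvm
    change Continuous (fun x : I × Tot Y pr δ (ball vs ε) =>
      x.2.1.2.1 + ∑ j, ((chi (‖x.2.1.2.1 - b j x.2.1.1‖ / ρ) : ℝ) : ℂ) *
        (b j (vv x) - b j x.2.1.1))
    refine e2.add (continuous_finsetSum _ fun j _ => ?_)
    refine Continuous.mul ?_ ((e4 j).sub (e3 j))
    exact Complex.continuous_ofReal.comp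
      (chi_cont.comp (((e2.sub (e3 j)).norm).div_const ρ))
  have hψne : ∀ x, MvPolynomial.eval (ψ x • vv x) δ ≠ 0 := by
    intro x h
    obtain ⟨i, hi⟩ := (hz _ (hvvm x) _).1 h
    refine Psi_ne b hρ x.2.1.1 (vv x) (h3ρ _ x.2.2.1) (hd _ x.2.2.1 _ (hvvm x)) x.2.1.2.1 ?_ i hi
    intro j hj
    exact x.2.2.2.2.2 ((hz _ x.2.2.1 _).2 ⟨j, hj⟩)
  -- the homotopy
  let H : C(I × Tot Y pr δ (ball vs ε), H113G.Sp δ) :=
    ⟨fun x => ⟨ψ x • vv x, hψne x⟩, (hψc.smul hvvc).subtype_mk _⟩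
  let f₀ : C(Tot Y pr δ (ball vs ε), Yo Y pr δ) :=
    ⟨fun w => ⟨w.1.2.2, w.2.2.1, by rw [w.2.2.2.1]; exact w.2.2.2.2⟩,
      (continuous_snd.comp (continuous_snd.comp continuous_subtype_val)).subtype_mk _⟩
  have hH0 : ∀ w, H (0, w) = qY Y pr δ (f₀ w) := by
    intro w
    apply Subtype.ext
    change Psi b ρ w.1.1 (vv (0, w)) w.1.2.1 • vv (0, w) = pr w.1.2.2
    rw [hvv0, Psi_self, w.2.2.2.1]
  let Ĥ := hq.liftHomotopy H f₀ hH0
  have hĤ : ∀ x, qY Y pr δ (Ĥ x) = H x := fun x => congrFun (hq.liftHomotopy_lifts H f₀ hH0) x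
  have hĤ0 : ∀ w, Ĥ (0, w) = f₀ w := fun w => hq.liftHomotopy_zero H f₀ hH0 w
  -- the function along the homotopy
  have hUc : Continuous (fun y : Yo Y pr δ => u y.1) := by
    have h1 : Continuous (fun y : Yo Y pr δ => (⟨y.1, y.2.1⟩ : Y)) :=
      continuous_subtype_val.subtype_mk _
    exact (continuousOn_iff_continuous_domRestrict.1 hu).comp h1
  let K : C(I × Tot Y pr δ (ball vs ε), Cx) :=
    ⟨fun x => ⟨u (Ĥ (σ x.1, x.2)).1, hu0 _ (Ĥ (σ x.1, x.2)).2.1⟩, by
      refine Continuous.subtype_mk ?_ _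
      exact hUc.comp (Ĥ.continuous.comp ((unitInterval.continuous_symm.comp continuous_fst).prodMk
        continuous_snd))⟩
  have hend : ∀ w : Tot Y pr δ (ball vs ε), pr (Ĥ (1, w)).1 = ψ (1, w) • v₁ := by
    intro w
    have h1 := congrArg Subtype.val (hĤ (1, w))
    change pr (Ĥ (1, w)).1 = ψ (1, w) • vv (1, w) at h1
    rw [h1, hvv1]
  let E₁ : Tot Y pr δ (ball vs ε) → Lc Y pr δ v₁ := fun w =>
    ⟨(ψ (1, w), (Ĥ (1, w)).1), (Ĥ (1, w)).2.1, hend w, by
      have := hψne (1, w)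
      rwa [hvv1] at this⟩
  have hE₁ : Continuous E₁ := by
    refine Continuous.subtype_mk ?_ _
    exact (hψc.comp (Continuous.prodMk_right 1)).prodMk
      (continuous_subtype_val.comp (Ĥ.continuous.comp (Continuous.prodMk_right 1)))
  let g₀ : C(Tot Y pr δ (ball vs ε), ℂ) := ⟨fun w => ℓ₁ (E₁ w), hℓ₁.cont.comp hE₁⟩
  have hK0 : ∀ w, K (0, w) = (⟨Complex.exp (g₀ w), Complex.exp_ne_zero _⟩ : Cx) := by
    intro w
    apply Subtype.ext
    change u (Ĥ (σ 0, w)).1 = Complex.exp (ℓ₁ (E₁ w))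
    rw [hℓ₁.exp, unitInterval.symm_zero]
  let L := Complex.isCoveringMap_exp.liftHomotopy K g₀ hK0
  have hL : ∀ x, Complex.exp (L x) = (K x).1 := fun x =>
    congrArg Subtype.val (congrFun (Complex.isCoveringMap_exp.liftHomotopy_lifts K g₀ hK0) x)
  have hL0 : ∀ w, L (0, w) = g₀ w := fun w => Complex.isCoveringMap_exp.liftHomotopy_zero K g₀ hK0 w
  refine ⟨fun w => L (1, w), L.continuous.comp (Continuous.prodMk_right 1), fun w => ?_,
    fun w hw => ?_⟩
  · rw [hL]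
    change u (Ĥ (σ 1, w)).1 = _
    rw [unitInterval.symm_one, hĤ0]
    rfl
  · -- constancy over `t = 0`
    have hψ0 : ∀ s : I, ψ (s, w) = 0 := by
      intro s
      change Psi b ρ w.1.1 (vv (s, w)) w.1.2.1 = 0
      rw [hw]
      exact Psi_zero b hρ _ _ (h2ρ _ w.2.1)
    have hc1 : ∀ s : I, Ĥ (s, w) = Ĥ (0, w) := by
      intro s
      refine hq.const_of_comp (g := fun s : I => Ĥ (s, w)) (Ĥ.continuous.comp
        (Continuous.prodMk_left w)) (fun s s' => ?_) s 0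
      rw [hĤ, hĤ]
      apply Subtype.ext
      change ψ (s, w) • vv (s, w) = ψ (s', w) • vv (s', w)
      rw [hψ0, hψ0, zero_smul, zero_smul]
    have hc2 : L (1, w) = L (0, w) := by
      refine Complex.isCoveringMap_exp.const_of_comp (g := fun s : I => L (s, w))
        (L.continuous.comp (Continuous.prodMk_left w)) (fun s s' => ?_) 1 0
      apply Subtype.ext
      change Complex.exp (L (s, w)) = Complex.exp (L (s', w))
      rw [hL, hL]
      change u (Ĥ (σ s, w)).1 = u (Ĥ (σ s', w)).1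
      rw [hc1, hc1 (σ s')]
    change L (1, w) = _
    rw [hc2, hL0]
    change ℓ₁ (E₁ w) = _
    rw [hℓ₁.norm _ (hψ0 1)]
    change c (Ĥ (1, w)).1 = _
    rw [hc1 1, hĤ0]
    rfl

end Pool.Agent.Y225.Gor
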